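import Pool.Agent.Helper18.GLQ.Defs

/-! Part [B]: the edge-minimal graph. -/

namespace GLQ

open Finset GLR

set_option linter.unusedSectionVars false

variable {V E : Type*} [Fintype V] [DecidableEq V] [DecidableEq E]

namespace PB

theorem card_symmDiff_cut (K : Gph V E) (X : Finset E) (U W : Finset V) :
    K.cut X (symmDiff U W) = symmDiff (K.cut X U) (K.cut X W) := by
  ext e
  rw [mem_symmDiff, Gph.mem_cut, Gph.mem_cut, Gph.mem_cut, mem_symmDiff, mem_symmDiff]
  tauto

theorem mem_cut_of_end {K : Gph V E} {X : Finset E} (hne : ∀ e ∈ X, K.s e ≠ K.t e) {e : E}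
    (he : e ∈ X) {v : V} (hv : K.s e = v ∨ K.t e = v) : e ∈ K.cut X {v} := by
  rw [Gph.mem_cut_singleton]
  refine ⟨he, ?_⟩
  have := hne e he
  rcases hv with h | h
  · left
    refine ⟨h, fun h' => this (h.trans h'.symm)⟩
  · right
    refine ⟨fun h' => this (h'.trans h.symm), h⟩

end PB

open PB

/-- [B1] existence: take `F'` inclusion-minimal with `L ⊆ F' ⊆ F`, `con` and `q`. -/
theorem exists_min {K : Gph V E} {N : Finset V} (h : KF K N) :
    ∃ F' ⊆ K.F, K.meet K.F N ⊆ F' ∧ Mn { K with F := F' } N := by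
  classical
  let P : Finset E → Prop := fun F' => K.meet K.F N ⊆ F' ∧
    (∀ U ⊆ K.A, (U ∩ N).Nonempty → (N \ U).Nonempty → (K.cut F' U).Nonempty) ∧
    (∀ U ⊆ K.A, K.cut (K.meet K.F N) U = ∅ → (U ∩ N).card = 1 → 4 ≤ (K.cut F' U).card)
  obtain ⟨F', hF', hmin⟩ := exists_min_image (K.F.powerset.filter P) card
    ⟨K.F, by
      rw [mem_filter, mem_powerset]
      exact ⟨subset_rfl, K.meet_subset _ _, h.con, h.q⟩⟩
  rw [mem_filter, mem_powerset] at hF'
  obtain ⟨hsub, hL, hcon, hq⟩ := hF'
  have hmeet : K.meet F' N = K.meet K.F N := by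
    apply subset_antisymm (K.meet_mono hsub N)
    intro e he
    rw [Gph.mem_meet]
    exact ⟨hL he, (K.mem_meet.mp he).2⟩
  have hcutN : ∀ y ∈ N, K.cut F' {y} = K.cut K.F {y} := by
    intro y hy
    apply subset_antisymm (K.cut_mono hsub _)
    intro e he
    rw [Gph.mem_cut]
    refine ⟨hL ?_, (K.mem_cut.mp he).2⟩
    rw [Gph.mem_cut_singleton] at he
    rw [Gph.mem_meet]
    refine ⟨he.1, ?_⟩
    rcases he.2 with h1 | h1
    · left; rw [h1.1]; exact hy
    · right; rw [h1.2]; exact hy
  refine ⟨F', hsub, hL, ?_⟩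
  have hkf : KF { K with F := F' } N :=
    { sA := fun e he => h.sA e (hsub he)
      tA := fun e he => h.tA e (hsub he)
      ne := fun e he => h.ne e (hsub he)
      NA := h.NA
      two := h.two
      degN := by
        intro y hy
        change (K.cut F' {y}).card = 2
        rw [hcutN y hy]
        exact h.degN y hy
      ind := fun e he => h.ind e (hsub he)
      port := by
        intro v hv hN
        change (K.cut (K.meet F' N) {v}).card ≤ 1
        rw [hmeet]
        exact h.port v hv hN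
      deg := by
        intro v hv hN
        exact le_trans (card_le_card (K.cut_mono hsub _)) (h.deg v hv hN)
      con := hcon
      q := by
        intro U hU hc h1
        change K.cut (K.meet F' N) U = ∅ at hc
        rw [hmeet] at hc
        exact hq U hU hc h1 }
  refine ⟨hkf, ?_⟩
  intro e he hnL
  change e ∈ F' at he
  change e ∉ K.meet F' N at hnL
  rw [hmeet] at hnL
  have hnP : ¬ P (F'.erase e) := by
    intro hP
    have := hmin (F'.erase e) (by
      rw [mem_filter, mem_powerset]
      exact ⟨(erase_subset _ _).trans hsub, hP⟩)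
    rw [card_erase_of_mem he] at this
    have : 0 < F'.card := card_pos.mpr ⟨e, he⟩
    omega
  have hL' : K.meet K.F N ⊆ F'.erase e := by
    intro f hf
    rw [mem_erase]
    refine ⟨?_, hL hf⟩
    rintro rfl
    exact hnL hf
  by_cases hc : ∀ U ⊆ K.A, (U ∩ N).Nonempty → (N \ U).Nonempty → (K.cut (F'.erase e) U).Nonempty
  · have hq' : ¬ ∀ U ⊆ K.A, K.cut (K.meet K.F N) U = ∅ → (U ∩ N).card = 1 →
        4 ≤ (K.cut (F'.erase e) U).card := fun hq' => hnP ⟨hL', hc, hq'⟩
    push Not at hq'
    obtain ⟨U, hU, hcl, h1, h4⟩ := hq'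
    have h5 := hq U hU hcl h1
    rw [Gph.cut_erase] at h4
    right
    have hin : e ∈ K.cut F' U := by
      by_contra hn
      rw [erase_eq_of_notMem hn] at h4
      omega
    rw [card_erase_of_mem hin] at h4
    refine ⟨U, ⟨hU, ?_, h1, ?_⟩, hin⟩
    · change K.cut (K.meet F' N) U = ∅
      rw [hmeet]
      exact hcl
    · change (K.cut F' U).card = 4
      omega
  · push Not at hc
    obtain ⟨U, hU, h1, h2, h3⟩ := hc
    left
    refine ⟨U, hU, h1, h2, ?_⟩
    change K.cut F' U = {e}
    rw [Gph.cut_erase] at h3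
    obtain ⟨f, hf⟩ := hcon U hU h1 h2
    have hfe : ∀ f ∈ K.cut F' U, f = e := by
      intro f hf
      by_contra hne
      have : f ∈ (K.cut F' U).erase e := mem_erase.mpr ⟨hne, hf⟩
      rw [h3] at this
      simp at this
    apply subset_antisymm
    · intro f hf
      rw [mem_singleton]
      exact hfe f hf
    · intro f' hf'
      rw [mem_singleton] at hf'
      rw [hf', ← hfe f hf]
      exact hf

/-- [B2] ports have degree 3 (apply `q` to `{y, p, q}`) -/
theorem KF.port_deg {K : Gph V E} {N : Finset V} (h : KF K N) {v : V} (hv : Port K N v)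
    (hA : v ∈ K.A) : (K.cut K.F {v}).card = 3 := by
  obtain ⟨hvN, e, he⟩ := hv
  have hmem : ∀ f a, f ∈ K.F → (K.s f ∈ N ∨ K.t f ∈ N) → (K.s f = a ∨ K.t f = a) →
      f ∈ K.cut (K.meet K.F N) {a} := by
    intro f a hf hfN ha
    apply mem_cut_of_end
    · intro e he
      exact h.ne e (K.meet_subset _ _ he)
    · rw [Gph.mem_meet]; exact ⟨hf, hfN⟩
    · exact ha
  have heF : e ∈ K.F := K.meet_subset _ _ (K.cut_subset _ _ he)
  have heN := (K.mem_meet.mp (K.cut_subset _ _ he)).2
  have hev := (K.mem_cut_singleton.mp he).2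
  -- the leg vertex
  obtain ⟨y, hyN, hye, hJ⟩ : ∃ y ∈ N, e ∈ K.cut K.F {y} ∧
      ((K.s e = y ∧ K.t e = v) ∨ (K.s e = v ∧ K.t e = y)) := by
    rcases hev with ⟨h1, h2⟩ | ⟨h1, h2⟩
    · have : K.t e ∈ N := by
        rcases heN with h3 | h3
        · rw [h1] at h3; exact absurd h3 hvN
        · exact h3
      exact ⟨K.t e, this, mem_cut_of_end h.ne heF (Or.inr rfl), Or.inr ⟨h1, rfl⟩⟩
    · have : K.s e ∈ N := by
        rcases heN with h3 | h3
        · exact h3
        · rw [h2] at h3; exact absurd h3 hvN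
      exact ⟨K.s e, this, mem_cut_of_end h.ne heF (Or.inl rfl), Or.inl ⟨rfl, h2⟩⟩
  have h2 := h.degN y hyN
  have h1 : ((K.cut K.F {y}).erase e).card = 1 := by rw [card_erase_of_mem hye, h2]
  obtain ⟨e', he'⟩ := card_eq_one.mp h1
  have he'm : e' ∈ (K.cut K.F {y}).erase e := by rw [he']; simp
  rw [mem_erase] at he'm
  have hcy : K.cut K.F {y} = {e, e'} := by rw [← insert_erase hye, he']
  have he'F : e' ∈ K.F := K.cut_subset _ _ he'm.2
  obtain ⟨p, hpA, hJ'⟩ : ∃ p ∈ K.A, (K.s e' = y ∧ K.t e' = p) ∨ (K.s e' = p ∧ K.t e' = y) := by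
    rcases (K.mem_cut_singleton.mp he'm.2).2 with ⟨a, b⟩ | ⟨a, b⟩
    · exact ⟨K.t e', h.tA _ he'F, Or.inl ⟨a, rfl⟩⟩
    · exact ⟨K.s e', h.sA _ he'F, Or.inr ⟨rfl, b⟩⟩
  have hpN : p ∉ N := by
    intro hp
    apply h.ind e' he'F
    rcases hJ' with ⟨a, b⟩ | ⟨a, b⟩
    · rw [a, b]; exact ⟨hyN, hp⟩
    · rw [a, b]; exact ⟨hp, hyN⟩
  have hyv : y ≠ v := fun h' => hvN (h' ▸ hyN)
  have hyp : y ≠ p := fun h' => hpN (h' ▸ hyN)
  have uniq : ∀ a ∈ K.A, a ∉ N → ∀ f ∈ K.cut (K.meet K.F N) {a},
      ∀ f' ∈ K.cut (K.meet K.F N) {a}, f = f' := by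
    intro a ha haN f hf f' hf'
    exact card_le_one.mp (h.port a ha haN) f hf f' hf'
  have heL : e ∈ K.cut (K.meet K.F N) {v} := he
  have he'L : e' ∈ K.cut (K.meet K.F N) {p} := by
    apply hmem e' p he'F
    · rcases hJ' with ⟨a, b⟩ | ⟨a, b⟩
      · left; rw [a]; exact hyN
      · right; rw [b]; exact hyN
    · rcases hJ' with ⟨a, b⟩ | ⟨a, b⟩
      · right; exact b
      · left; exact a
  have hpv : p ≠ v := by
    rintro rfl
    exact he'm.1 (uniq p hA hvN e' he'L e heL)
  -- the set U
  have hU : ({y, v, p} : Finset V) ⊆ K.A := by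
    intro z hz
    simp only [mem_insert, mem_singleton] at hz
    rcases hz with rfl | rfl | rfl
    · exact h.NA hyN
    · exact hA
    · exact hpA
  have hUN : ({y, v, p} : Finset V) ∩ N = {y} := by
    ext z
    simp only [mem_inter, mem_insert, mem_singleton]
    constructor
    · rintro ⟨rfl | rfl | rfl, h'⟩
      · rfl
      · exact absurd h' hvN
      · exact absurd h' hpN
    · rintro rfl
      exact ⟨Or.inl rfl, hyN⟩
  have hcl : K.cut (K.meet K.F N) {y, v, p} = ∅ := by
    rw [eq_empty_iff_forall_notMem]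
    intro f hf
    rw [Gph.mem_cut, Gph.mem_meet] at hf
    obtain ⟨⟨hfF, hfN⟩, hfc⟩ := hf
    simp only [mem_insert, mem_singleton] at hfc
    by_cases hfy : K.s f = y ∨ K.t f = y
    · have hfy' : f ∈ K.cut K.F {y} := mem_cut_of_end h.ne hfF hfy
      rw [hcy] at hfy'
      simp only [mem_insert, mem_singleton] at hfy'
      rcases hfy' with rfl | rfl
      · rcases hJ with ⟨a, b⟩ | ⟨a, b⟩
        · rw [a, b] at hfc; exact hfc (by simp)
        · rw [a, b] at hfc; exact hfc (by simp)
      · rcases hJ' with ⟨a, b⟩ | ⟨a, b⟩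
        · rw [a, b] at hfc; exact hfc (by simp)
        · rw [a, b] at hfc; exact hfc (by simp)
    · push Not at hfy
      have hfv : ¬ (K.s f = v ∨ K.t f = v) := by
        intro h'
        have := uniq v hA hvN f (hmem f v hfF hfN h') e heL
        rw [this] at hfy
        rcases hJ with ⟨a, b⟩ | ⟨a, b⟩
        · exact hfy.1 a
        · exact hfy.2 b
      have hfp : ¬ (K.s f = p ∨ K.t f = p) := by
        intro h'
        have := uniq p hpA hpN f (hmem f p hfF hfN h') e' he'L
        rw [this] at hfy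
        rcases hJ' with ⟨a, b⟩ | ⟨a, b⟩
        · exact hfy.1 a
        · exact hfy.2 b
      tauto
  have hq := h.q _ hU hcl (by rw [hUN, card_singleton])
  have hh := K.handshake h.ne {y, v, p}
  rw [sum_insert (by simp [hyv, hyp]), sum_pair (Ne.symm hpv), h2] at hh
  have hin : ({e, e'} : Finset E) ⊆ K.ins K.F {y, v, p} := by
    intro f hf
    simp only [mem_insert, mem_singleton] at hf
    rw [Gph.mem_ins]
    simp only [mem_insert, mem_singleton]
    rcases hf with rfl | rfl
    · refine ⟨heF, ?_⟩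
      tauto
    · refine ⟨he'F, ?_⟩
      tauto
  have hin2 := card_le_card hin
  rw [card_pair (Ne.symm he'm.1)] at hin2
  have d1 := h.deg v hA hvN
  have d2 := h.deg p hpA hpN
  omega

/-- [B3] non-ports have degree `≠ 1` -/
theorem Mn.deg_ne_one {K : Gph V E} {N : Finset V} (h : Mn K N) {v : V} (hv : ¬ Port K N v)
    (hN : v ∉ N) (hA : v ∈ K.A) : (K.cut K.F {v}).card ≠ 1 := by
  intro h1
  obtain ⟨f, hf⟩ := card_eq_one.mp h1
  have hL : K.cut (K.meet K.F N) {v} = ∅ := by
    by_contra hne
    exact hv ⟨hN, nonempty_iff_ne_empty.mpr hne⟩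
  have hfm : f ∈ K.cut K.F {v} := by rw [hf]; simp
  have hfF : f ∈ K.F := K.cut_subset _ _ hfm
  have hfL : f ∉ K.meet K.F N := by
    intro h'
    have : f ∈ K.cut (K.meet K.F N) {v} := by
      rw [Gph.mem_cut] at hfm ⊢
      exact ⟨h', hfm.2⟩
    rw [hL] at this
    simp at this
  have hsub : ∀ U ⊆ K.A, symmDiff U {v} ⊆ K.A := by
    intro U hU z hz
    rw [mem_symmDiff, mem_singleton] at hz
    rcases hz with h' | h'
    · exact hU h'.1
    · rw [h'.1]; exact hA
  have hint : ∀ U : Finset V, symmDiff U {v} ∩ N = U ∩ N := by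
    intro U
    ext z
    rw [mem_inter, mem_inter, mem_symmDiff, mem_singleton]
    by_cases hz : z = v
    · subst hz; tauto
    · tauto
  have hdif : ∀ U : Finset V, N \ symmDiff U {v} = N \ U := by
    intro U
    ext z
    rw [mem_sdiff, mem_sdiff, mem_symmDiff, mem_singleton]
    by_cases hz : z = v
    · subst hz; tauto
    · tauto
  rcases h.nd f hfF hfL with ⟨U, hU, a, b, c⟩ | ⟨U, hU, hc⟩
  · have := h.con (symmDiff U {v}) (hsub U hU) (by rw [hint]; exact a) (by rw [hdif]; exact b)
    rw [card_symmDiff_cut, c, hf, symmDiff_self] at this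
    simp at this
  · have := h.q (symmDiff U {v}) (hsub U hU.sub) (by
      rw [card_symmDiff_cut, hU.closed, hL, symmDiff_self]
      rfl) (by rw [hint]; exact hU.one)
    rw [card_symmDiff_cut, hf] at this
    have h4 := hU.four
    have h5 : symmDiff (K.cut K.F U) {f} ⊆ (K.cut K.F U).erase f := by
      intro e he
      rw [mem_symmDiff, mem_singleton] at he
      rw [mem_erase]
      rcases he with h' | h'
      · exact ⟨h'.2, h'.1⟩
      · exact absurd (h'.1 ▸ hc) h'.2
    have h6 := card_le_card h5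
    rw [card_erase_of_mem hc] at h6
    omega

/-- [B4] the non-isolated vertices are connected -/
theorem Mn.conn {K : Gph V E} {N : Finset V} (h : Mn K N) :
    K.Conn K.F (K.A.filter fun v => (K.cut K.F {v}).Nonempty) := by
  set A0 := K.A.filter fun v => (K.cut K.F {v}).Nonempty with hA0
  have hs : ∀ e ∈ K.F, K.s e ∈ A0 := by
    intro e he
    rw [hA0, mem_filter]
    exact ⟨h.sA e he, e, mem_cut_of_end h.ne he (Or.inl rfl)⟩
  have ht : ∀ e ∈ K.F, K.t e ∈ A0 := by
    intro e he
    rw [hA0, mem_filter]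
    exact ⟨h.tA e he, e, mem_cut_of_end h.ne he (Or.inr rfl)⟩
  -- no isolated part without leg vertices
  have key : ∀ D ⊆ A0, D.Nonempty → D ∩ N = ∅ → K.cut K.F D ≠ ∅ := by
    intro D hD hDn hDN hc
    obtain ⟨v, hv⟩ := hDn
    have hvA := hD hv
    rw [hA0, mem_filter] at hvA
    obtain ⟨hvA, e, he⟩ := hvA
    have heF : e ∈ K.F := K.cut_subset _ _ he
    have hnc : ∀ f ∈ K.F, (K.s f ∈ D ↔ K.t f ∈ D) := by
      intro f hf
      by_contra hn
      have : f ∈ K.cut K.F D := K.mem_cut.mpr ⟨hf, hn⟩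
      rw [hc] at this
      simp at this
    have hDA : D ⊆ K.A := by
      intro z hz
      have := hD hz
      rw [hA0, mem_filter] at this
      exact this.1
    have hin : K.s e ∈ D ∧ K.t e ∈ D := by
      have h1 := hnc e heF
      rcases (K.mem_cut_singleton.mp he).2 with h2 | h2
      · rw [← h2.1] at hv; tauto
      · rw [← h2.2] at hv; tauto
    have hnN : ∀ z ∈ D, z ∉ N := by
      intro z hz hzN
      have : z ∈ D ∩ N := mem_inter.mpr ⟨hz, hzN⟩
      rw [hDN] at this
      simp at this
    have heL : e ∉ K.meet K.F N := by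
      rw [Gph.mem_meet]
      rintro ⟨_, h1 | h1⟩
      · exact hnN _ hin.1 h1
      · exact hnN _ hin.2 h1
    have hint : ∀ U : Finset V, (U ∪ D) ∩ N = U ∩ N := by
      intro U
      ext z
      rw [mem_inter, mem_inter, mem_union]
      have := hnN z
      tauto
    have hdif : ∀ U : Finset V, N \ (U ∪ D) = N \ U := by
      intro U
      ext z
      rw [mem_sdiff, mem_sdiff, mem_union]
      have := hnN z
      tauto
    have hcut : ∀ (X : Finset E) (U : Finset V), X ⊆ K.F → K.cut X (U ∪ D) ⊆ (K.cut X U).erase e := by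
      intro X U hX f hf
      rw [Gph.mem_cut, mem_union, mem_union] at hf
      have h1 := hnc f (hX hf.1)
      rw [mem_erase, Gph.mem_cut]
      refine ⟨?_, hf.1, ?_⟩
      · rintro rfl
        have := hf.2
        tauto
      · have := hf.2
        tauto
    rcases h.nd e heF heL with ⟨U, hU, a, b, c⟩ | ⟨U, hU, hce⟩
    · obtain ⟨f, hf⟩ := h.con (U ∪ D) (union_subset hU hDA) (by rw [hint]; exact a)
        (by rw [hdif]; exact b)
      have := hcut _ _ subset_rfl hf
      rw [c] at this
      simp at this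
    · have hcl : K.cut (K.meet K.F N) (U ∪ D) = ∅ := by
        rw [eq_empty_iff_forall_notMem]
        intro f hf
        have := hcut _ _ (K.meet_subset _ _) hf
        rw [hU.closed] at this
        simp at this
      have h4 := h.q (U ∪ D) (union_subset hU.sub hDA) hcl (by rw [hint]; exact hU.one)
      have h5 := card_le_card (hcut K.F U subset_rfl)
      rw [card_erase_of_mem hce, hU.four] at h5
      omega
  intro Y hY hne hYA
  have hins : K.ins K.F A0 = K.F := by
    apply subset_antisymm (K.ins_subset _ _)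
    intro e he
    rw [Gph.mem_ins]
    exact ⟨he, hs e he, ht e he⟩
  rw [hins]
  by_contra hemp
  rw [not_nonempty_iff_eq_empty] at hemp
  have hYK : Y ⊆ K.A := by
    intro z hz
    have := hY hz
    rw [hA0, mem_filter] at this
    exact this.1
  by_cases h1 : (Y ∩ N).Nonempty
  · by_cases h2 : (N \ Y).Nonempty
    · have := h.con Y hYK h1 h2
      rw [hemp] at this
      simp at this
    · rw [not_nonempty_iff_eq_empty, sdiff_eq_empty_iff_subset] at h2
      apply key (A0 \ Y) sdiff_subset
      · rw [sdiff_nonempty]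
        intro h3
        exact hYA (subset_antisymm hY h3)
      · rw [eq_empty_iff_forall_notMem]
        intro z hz
        rw [mem_inter, mem_sdiff] at hz
        exact hz.1.2 (h2 hz.2)
      · rw [eq_empty_iff_forall_notMem]
        intro f hf
        rw [Gph.mem_cut, mem_sdiff, mem_sdiff] at hf
        have a1 := hs f hf.1
        have a2 := ht f hf.1
        have : f ∈ K.cut K.F Y := by
          rw [Gph.mem_cut]
          refine ⟨hf.1, ?_⟩
          have := hf.2
          tauto
        rw [hemp] at this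
        simp at this
  · rw [not_nonempty_iff_eq_empty] at h1
    exact key Y hY hne h1 hemp

end GLQ
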