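import Pool.Agent.Helper18.GLQ.B

/-! Part [C]: tight sets are trivial. -/

namespace GLQ

open Finset GLR

set_option linter.unusedSectionVars false

variable {V E : Type*} [Fintype V] [DecidableEq V] [DecidableEq E]

/-! ### propositional lemmas -/

theorem paux1 {a b c d : Prop} (h : ¬ ((a ∧ ¬ c) ↔ (b ∧ ¬ d))) (h' : c ↔ d) : ¬ (a ↔ b) := by
  tauto

theorem paux2 {a b c d : Prop} (h : ¬ ((a ∨ c) ↔ (b ∨ d))) (h' : c ↔ d) : ¬ (a ↔ b) := by
  tauto

theorem paux3 {a b c d : Prop} (h : ¬ (a ↔ b)) (h' : ¬ (c ↔ d)) (h1 : a ↔ c) :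
    ((a ∧ ¬ c) ↔ (b ∧ ¬ d)) := by
  tauto

theorem paux4 {a b c d : Prop} (h : ¬ (a ↔ b)) (h' : ¬ (c ↔ d)) (h1 : ¬ (a ↔ c)) :
    ((a ∨ c) ↔ (b ∨ d)) := by
  tauto

/-! ### closed sets -/

theorem closed_union {K : Gph V E} {X : Finset E} {U W : Finset V} (hU : K.cut X U = ∅)
    (hW : K.cut X W = ∅) : K.cut X (U ∪ W) = ∅ := by
  rw [eq_empty_iff_forall_notMem] at hU hW ⊢
  intro e he
  have h1 := hU e
  have h2 := hW e
  simp only [Gph.mem_cut, mem_union] at he h1 h2
  tauto

theorem closed_inter {K : Gph V E} {X : Finset E} {U W : Finset V} (hU : K.cut X U = ∅)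
    (hW : K.cut X W = ∅) : K.cut X (U ∩ W) = ∅ := by
  rw [eq_empty_iff_forall_notMem] at hU hW ⊢
  intro e he
  have h1 := hU e
  have h2 := hW e
  simp only [Gph.mem_cut, mem_inter] at he h1 h2
  tauto

theorem closed_sdiff {K : Gph V E} {X : Finset E} {U W : Finset V} (hU : K.cut X U = ∅)
    (hW : K.cut X W = ∅) : K.cut X (U \ W) = ∅ := by
  rw [eq_empty_iff_forall_notMem] at hU hW ⊢
  intro e he
  have h1 := hU e
  have h2 := hW e
  simp only [Gph.mem_cut, mem_sdiff] at he h1 h2
  tauto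

/-- union and intersection of tight sets with the same leg vertex -/
theorem Tight.union {K : Gph V E} {N U W : Finset V} (h : KF K N) (hU : Tight K N U)
    (hW : Tight K N W) (he : U ∩ N = W ∩ N) : Tight K N (U ∪ W) := by
  have n1 : (U ∪ W) ∩ N = U ∩ N := by
    rw [union_inter_distrib_right, ← he, union_self]
  have n2 : (U ∩ W) ∩ N = U ∩ N := by
    ext v
    have := congrArg (fun Z => v ∈ Z) he
    simp only [mem_inter, eq_iff_iff] at this ⊢
    tauto
  have c1 := closed_union hU.closed hW.closed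
  have c2 := closed_inter hU.closed hW.closed
  have q1 := h.q (U ∪ W) (union_subset hU.sub hW.sub) c1 (by rw [n1]; exact hU.one)
  have q2 := h.q (U ∩ W) (inter_subset_left.trans hU.sub) c2 (by rw [n2]; exact hU.one)
  have h3 := K.submod K.F U W
  have h4 := hU.four
  have h5 := hW.four
  exact ⟨union_subset hU.sub hW.sub, c1, by rw [n1]; exact hU.one, by omega⟩

theorem Tight.inter {K : Gph V E} {N U W : Finset V} (h : KF K N) (hU : Tight K N U)
    (hW : Tight K N W) (he : U ∩ N = W ∩ N) : Tight K N (U ∩ W) := by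
  have n1 : (U ∪ W) ∩ N = U ∩ N := by
    rw [union_inter_distrib_right, ← he, union_self]
  have n2 : (U ∩ W) ∩ N = U ∩ N := by
    ext v
    have := congrArg (fun Z => v ∈ Z) he
    simp only [mem_inter, eq_iff_iff] at this ⊢
    tauto
  have c1 := closed_union hU.closed hW.closed
  have c2 := closed_inter hU.closed hW.closed
  have q1 := h.q (U ∪ W) (union_subset hU.sub hW.sub) c1 (by rw [n1]; exact hU.one)
  have q2 := h.q (U ∩ W) (inter_subset_left.trans hU.sub) c2 (by rw [n2]; exact hU.one)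
  have h3 := K.submod K.F U W
  have h4 := hU.four
  have h5 := hW.four
  exact ⟨inter_subset_left.trans hU.sub, c2, by rw [n2]; exact hU.one, by omega⟩

/-- the leg vertex of a difference -/
theorem Tight.sdiff_inter {K : Gph V E} {N U W : Finset V} (hU : Tight K N U)
    (hW : Tight K N W) (he : U ∩ N ≠ W ∩ N) : (U \ W) ∩ N = U ∩ N := by
  obtain ⟨y, hy⟩ := card_eq_one.1 hU.one
  obtain ⟨z, hz⟩ := card_eq_one.1 hW.one
  have hyz : y ≠ z := by
    rintro rfl
    exact he (hy.trans hz.symm)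
  ext v
  have h1 : v ∈ U ∩ N ↔ v = y := by rw [hy, mem_singleton]
  have h2 : v ∈ W ∩ N ↔ v = z := by rw [hz, mem_singleton]
  simp only [mem_inter, mem_sdiff] at h1 h2 ⊢
  constructor
  · tauto
  · intro h3
    refine ⟨⟨h3.1, fun h4 => ?_⟩, h3.2⟩
    exact hyz ((h1.1 h3).symm.trans (h2.1 ⟨h4, h3.2⟩))

/-- differences of tight sets with different leg vertices -/
theorem Tight.sdiff {K : Gph V E} {N U W : Finset V} (h : KF K N) (hU : Tight K N U)
    (hW : Tight K N W) (he : U ∩ N ≠ W ∩ N) : Tight K N (U \ W) := by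
  have n1 := Tight.sdiff_inter hU hW he
  have n2 := Tight.sdiff_inter hW hU he.symm
  have c1 := closed_sdiff hU.closed hW.closed
  have c2 := closed_sdiff hW.closed hU.closed
  have q1 := h.q (U \ W) (sdiff_subset.trans hU.sub) c1 (by rw [n1]; exact hU.one)
  have q2 := h.q (W \ U) (sdiff_subset.trans hW.sub) c2 (by rw [n2]; exact hW.one)
  have h3 := K.posimod K.F U W
  have h4 := hU.four
  have h5 := hW.four
  exact ⟨sdiff_subset.trans hU.sub, c1, by rw [n1]; exact hU.one, by omega⟩

/-! ### counting -/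

theorem card_cut_insert {K : Gph V E} (X : Finset E) {W : Finset V} {v : V} (hv : v ∉ W) :
    (K.cut X (insert v W)).card + 2 * (K.cut (K.cut X {v}) W).card
      = (K.cut X W).card + (K.cut X {v}).card := by
  have h1 : (K.cut (K.cut X {v}) W).card =
      ∑ e ∈ X, (if (¬ (K.s e = v ↔ K.t e = v) ∧ ¬ (K.s e ∈ W ↔ K.t e ∈ W)) then 1 else 0) := by
    rw [Gph.cut, Gph.cut, filter_filter, card_filter]
    simp only [mem_singleton]
  rw [h1, Gph.card_cut_eq_sum, Gph.card_cut_eq_sum, Gph.card_cut_eq_sum, mul_sum,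
    ← sum_add_distrib, ← sum_add_distrib]
  refine sum_congr rfl fun e _ => ?_
  by_cases h1 : K.s e = v <;> by_cases h2 : K.t e = v <;> by_cases h3 : K.s e ∈ W <;>
    by_cases h4 : K.t e ∈ W <;> simp_all

theorem card_cut_split {K : Gph V E} (X : Finset E) (U S : Finset V) :
    (K.cut X (U ∩ S)).card + (K.cut X (U \ S)).card
      = (K.cut X U).card + 2 * (K.cut (K.ins X U) S).card := by
  have h1 : (K.cut (K.ins X U) S).card =
      ∑ e ∈ X, (if ((K.s e ∈ U ∧ K.t e ∈ U) ∧ ¬ (K.s e ∈ S ↔ K.t e ∈ S)) then 1 else 0) := by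
    rw [Gph.cut, Gph.ins, filter_filter, card_filter]
  rw [h1, Gph.card_cut_eq_sum, Gph.card_cut_eq_sum, Gph.card_cut_eq_sum, mul_sum,
    ← sum_add_distrib, ← sum_add_distrib]
  refine sum_congr rfl fun e _ => ?_
  by_cases h1 : K.s e ∈ U <;> by_cases h2 : K.t e ∈ U <;> by_cases h3 : K.s e ∈ S <;>
    by_cases h4 : K.t e ∈ S <;> simp_all

/-- trivial sets -/
def Triv (K : Gph V E) (N U : Finset V) : Prop :=
  ∀ v ∈ U, v ∉ N → ¬ Port K N v → (K.cut K.F {v}).card ≤ 2

/-- no pending set off the legs -/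
theorem Mn.no_pend {K : Gph V E} {N : Finset V} (h : Mn K N) {S : Finset V} (hA : S ⊆ K.A)
    (hN : S ∩ N = ∅) (hc : K.cut (K.meet K.F N) S = ∅) {g : E} (hg : K.cut K.F S = {g}) :
    False := by
  have hgS : g ∈ K.cut K.F S := by rw [hg]; exact mem_singleton_self g
  have hgF : g ∈ K.F := (K.mem_cut.1 hgS).1
  have hgc := (K.mem_cut.1 hgS).2
  have hgL : g ∉ K.meet K.F N := by
    intro h1
    have : g ∈ K.cut (K.meet K.F N) S := K.mem_cut.2 ⟨h1, hgc⟩
    rw [hc] at this
    exact absurd this (notMem_empty _)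
  have only : ∀ e ∈ K.F, e ≠ g → (K.s e ∈ S ↔ K.t e ∈ S) := by
    intro e he hne
    by_contra h1
    have : e ∈ K.cut K.F S := K.mem_cut.2 ⟨he, h1⟩
    rw [hg, mem_singleton] at this
    exact hne this
  -- the modified set
  have key : ∀ U ⊆ K.A, g ∈ K.cut K.F U → ∃ U' ⊆ K.A, U' ∩ N = U ∩ N ∧
      K.cut K.F U' ⊆ (K.cut K.F U).erase g ∧
      (K.cut (K.meet K.F N) U = ∅ → K.cut (K.meet K.F N) U' = ∅) := by
    intro U hUA hgU
    have hgU' := (K.mem_cut.1 hgU).2
    by_cases h1 : (K.s g ∈ U ↔ K.s g ∈ S)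
    · -- the end of g in S is in U: remove S
      refine ⟨U \ S, sdiff_subset.trans hUA, ?_, ?_, fun h2 => closed_sdiff h2 hc⟩
      · ext v
        have : v ∉ S ∩ N := by rw [hN]; exact notMem_empty v
        simp only [mem_inter, mem_sdiff] at this ⊢
        tauto
      · intro e he
        have he' := K.mem_cut.1 he
        simp only [mem_sdiff] at he'
        rw [mem_erase]
        by_cases hne : e = g
        · subst hne
          exact absurd (paux3 hgU' hgc h1) he'.2
        · exact ⟨hne, K.mem_cut.2 ⟨he'.1, paux1 he'.2 (only e he'.1 hne)⟩⟩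
    · refine ⟨U ∪ S, union_subset hUA hA, ?_, ?_, fun h2 => closed_union h2 hc⟩
      · rw [union_inter_distrib_right, hN, union_empty]
      · intro e he
        have he' := K.mem_cut.1 he
        simp only [mem_union] at he'
        rw [mem_erase]
        by_cases hne : e = g
        · subst hne
          exact absurd (paux4 hgU' hgc h1) he'.2
        · exact ⟨hne, K.mem_cut.2 ⟨he'.1, paux2 he'.2 (only e he'.1 hne)⟩⟩
  rcases h.nd g hgF hgL with ⟨U, hUA, hU1, hU2, hUg⟩ | ⟨U, hU, hgU⟩
  · obtain ⟨U', hU'A, hN', hsub, -⟩ := key U hUA (by rw [hUg]; exact mem_singleton_self g)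
    have h1 : (U' ∩ N).Nonempty := by rw [hN']; exact hU1
    have h2 : (N \ U').Nonempty := by
      obtain ⟨z, hz⟩ := hU2
      refine ⟨z, ?_⟩
      have := congrArg (fun Z => z ∈ Z) hN'
      simp only [mem_inter, eq_iff_iff, mem_sdiff] at this hz ⊢
      tauto
    obtain ⟨e, he⟩ := h.con U' hU'A h1 h2
    have := hsub he
    rw [hUg] at this
    simp at this
  · obtain ⟨U', hU'A, hN', hsub, hcl⟩ := key U hU.sub hgU
    have h1 := h.q U' hU'A (hcl hU.closed) (by rw [hN']; exact hU.one)
    have h2 := card_le_card hsub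
    rw [card_erase_of_mem hgU, hU.four] at h2
    omega

/-- the group of a leg vertex is tight and contained in every closed set containing the leg
vertex -/
theorem exists_group {K : Gph V E} {N : Finset V} (h : KF K N) {y : V} (hy : y ∈ N) :
    ∃ T, Tight K N T ∧ T ∩ N = {y} ∧ (∀ v ∈ T, v ∉ N → Port K N v) ∧
      ∀ U, K.cut (K.meet K.F N) U = ∅ → y ∈ U → T ⊆ U := by
  obtain ⟨a, b, hab, hcut⟩ := card_eq_two.1 (h.degN y hy)
  have hoth : ∀ e ∈ K.cut K.F {y}, ∃ p, p ∈ K.A ∧ p ∉ N ∧ p ≠ y ∧ e ∈ K.F ∧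
      ((K.s e = y ∧ K.t e = p) ∨ (K.s e = p ∧ K.t e = y)) := by
    intro e he
    have h1 := K.mem_cut_singleton.1 he
    have h2 := h.ind e h1.1
    rcases h1.2 with ⟨h3, h4⟩ | ⟨h3, h4⟩
    · exact ⟨K.t e, h.tA e h1.1, fun h5 => h2 ⟨by rw [h3]; exact hy, h5⟩, h4, h1.1, Or.inl ⟨h3, rfl⟩⟩
    · exact ⟨K.s e, h.sA e h1.1, fun h5 => h2 ⟨h5, by rw [h4]; exact hy⟩, h3, h1.1, Or.inr ⟨rfl, h4⟩⟩
  obtain ⟨p, hpA, hpN, hpy, haF, ha⟩ := hoth a (by rw [hcut]; simp)
  obtain ⟨q, hqA, hqN, hqy, hbF, hb⟩ := hoth b (by rw [hcut]; simp)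
  have haL : a ∈ K.meet K.F N := by
    rw [K.mem_meet]
    rcases ha with ⟨h1, h2⟩ | ⟨h1, h2⟩
    · exact ⟨haF, Or.inl (by rw [h1]; exact hy)⟩
    · exact ⟨haF, Or.inr (by rw [h2]; exact hy)⟩
  have hbL : b ∈ K.meet K.F N := by
    rw [K.mem_meet]
    rcases hb with ⟨h1, h2⟩ | ⟨h1, h2⟩
    · exact ⟨hbF, Or.inl (by rw [h1]; exact hy)⟩
    · exact ⟨hbF, Or.inr (by rw [h2]; exact hy)⟩
  have hap : a ∈ K.cut (K.meet K.F N) {p} := by
    rw [K.mem_cut_singleton]
    refine ⟨haL, ?_⟩
    rcases ha with ⟨h1, h2⟩ | ⟨h1, h2⟩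
    · exact Or.inr ⟨by rw [h1]; exact hpy.symm, h2⟩
    · exact Or.inl ⟨h1, by rw [h2]; exact hpy.symm⟩
  have hbq : b ∈ K.cut (K.meet K.F N) {q} := by
    rw [K.mem_cut_singleton]
    refine ⟨hbL, ?_⟩
    rcases hb with ⟨h1, h2⟩ | ⟨h1, h2⟩
    · exact Or.inr ⟨by rw [h1]; exact hqy.symm, h2⟩
    · exact Or.inl ⟨h1, by rw [h2]; exact hqy.symm⟩
  have hpq : p ≠ q := by
    rintro rfl
    have h1 := h.port p hpA hpN
    have h2 : ({a, b} : Finset E) ⊆ K.cut (K.meet K.F N) {p} := by
      intro e he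
      rw [mem_insert, mem_singleton] at he
      rcases he with rfl | rfl
      · exact hap
      · exact hbq
    have h3 := card_le_card h2
    rw [card_pair hab] at h3
    omega
  -- L-edges at p, q and y
  have hLp : ∀ e ∈ K.meet K.F N, e ∈ K.cut (K.meet K.F N) {p} → e = a := by
    intro e _ he
    exact card_le_one.1 (h.port p hpA hpN) e he a hap
  have hLq : ∀ e ∈ K.meet K.F N, e ∈ K.cut (K.meet K.F N) {q} → e = b := by
    intro e _ he
    exact card_le_one.1 (h.port q hqA hqN) e he b hbq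
  set T : Finset V := {y, p, q} with hT
  have hTm : ∀ v, v ∈ T ↔ v = y ∨ v = p ∨ v = q := by
    intro v
    rw [hT]
    simp
  have hcl : K.cut (K.meet K.F N) T = ∅ := by
    rw [eq_empty_iff_forall_notMem]
    intro e he
    have h1 := K.mem_cut.1 he
    rw [hTm, hTm] at h1
    have heF : e ∈ K.F := (K.mem_meet.1 h1.1).1
    have hyc : e ∈ K.cut K.F {y} → e = a ∨ e = b := by
      intro h2
      rw [hcut] at h2
      simpa using h2
    have hm : ∀ v, e ∈ K.cut K.F {v} ↔ e ∈ K.cut (K.meet K.F N) {v} := by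
      intro v
      rw [K.mem_cut, K.mem_cut]
      tauto
    have hst := h.ne e heF
    have h5 : e = a ∨ e = b := by
      by_cases h6 : K.s e = y ∨ K.t e = y
      · apply hyc
        rw [K.mem_cut_singleton]
        refine ⟨heF, ?_⟩
        rcases h6 with h6 | h6
        · exact Or.inl ⟨h6, fun h7 => hst (h6.trans h7.symm)⟩
        · exact Or.inr ⟨fun h7 => hst (h7.trans h6.symm), h6⟩
      · by_cases h7 : K.s e = p ∨ K.t e = p
        · left
          apply hLp e h1.1
          rw [K.mem_cut_singleton]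
          refine ⟨h1.1, ?_⟩
          rcases h7 with h7 | h7
          · exact Or.inl ⟨h7, fun h8 => hst (h7.trans h8.symm)⟩
          · exact Or.inr ⟨fun h8 => hst (h8.trans h7.symm), h7⟩
        · right
          apply hLq e h1.1
          rw [K.mem_cut_singleton]
          refine ⟨h1.1, ?_⟩
          have h8 : K.s e = q ∨ K.t e = q := by tauto
          rcases h8 with h8 | h8
          · exact Or.inl ⟨h8, fun h9 => hst (h8.trans h9.symm)⟩
          · exact Or.inr ⟨fun h9 => hst (h9.trans h8.symm), h8⟩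
    rcases h5 with rfl | rfl
    · rcases ha with ⟨h2, h3⟩ | ⟨h2, h3⟩
      · exact h1.2 (iff_of_true (Or.inl h2) (Or.inr (Or.inl h3)))
      · exact h1.2 (iff_of_true (Or.inr (Or.inl h2)) (Or.inl h3))
    · rcases hb with ⟨h2, h3⟩ | ⟨h2, h3⟩
      · exact h1.2 (iff_of_true (Or.inl h2) (Or.inr (Or.inr h3)))
      · exact h1.2 (iff_of_true (Or.inr (Or.inr h2)) (Or.inl h3))
  have hTN : T ∩ N = {y} := by
    ext v
    rw [mem_inter, hTm, mem_singleton]
    constructor
    · rintro ⟨rfl | rfl | rfl, h1⟩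
      · rfl
      · exact absurd h1 hpN
      · exact absurd h1 hqN
    · rintro rfl
      exact ⟨Or.inl rfl, hy⟩
  have hTA : T ⊆ K.A := by
    intro v hv
    rw [hTm] at hv
    rcases hv with rfl | rfl | rfl
    · exact h.NA hy
    · exact hpA
    · exact hqA
  have hone : (T ∩ N).card = 1 := by rw [hTN]; exact card_singleton y
  have hge := h.q T hTA hcl hone
  have hle : (K.cut K.F T).card ≤ 4 := by
    have h1 := K.handshake h.ne T
    have h2 : ∑ v ∈ T, (K.cut K.F {v}).card = 2 + ((K.cut K.F {p}).card + (K.cut K.F {q}).card) := by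
      rw [hT, sum_insert, sum_insert, sum_singleton, h.degN y hy]
      · simpa using hpq
      · simp only [mem_insert, mem_singleton, not_or]
        exact ⟨hpy.symm, hqy.symm⟩
    have h3 := h.deg p hpA hpN
    have h4 := h.deg q hqA hqN
    have h5 : ({a, b} : Finset E) ⊆ K.ins K.F T := by
      intro e he
      rw [mem_insert, mem_singleton] at he
      rw [K.mem_ins, hTm, hTm]
      rcases he with rfl | rfl
      · rcases ha with ⟨h6, h7⟩ | ⟨h6, h7⟩
        · exact ⟨haF, Or.inl h6, Or.inr (Or.inl h7)⟩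
        · exact ⟨haF, Or.inr (Or.inl h6), Or.inl h7⟩
      · rcases hb with ⟨h6, h7⟩ | ⟨h6, h7⟩
        · exact ⟨hbF, Or.inl h6, Or.inr (Or.inr h7)⟩
        · exact ⟨hbF, Or.inr (Or.inr h6), Or.inl h7⟩
    have h6 := card_le_card h5
    rw [card_pair hab] at h6
    omega
  refine ⟨T, ⟨hTA, hcl, hone, le_antisymm hle hge⟩, hTN, ?_, ?_⟩
  · intro v hv hvN
    rw [hTm] at hv
    rcases hv with rfl | rfl | rfl
    · exact absurd hy hvN
    · exact ⟨hvN, a, hap⟩
    · exact ⟨hvN, b, hbq⟩
  · intro U hU hyU v hv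
    rw [hTm] at hv
    rw [eq_empty_iff_forall_notMem] at hU
    rcases hv with rfl | rfl | rfl
    · exact hyU
    · by_contra hvU
      apply hU a
      rw [K.mem_cut]
      refine ⟨haL, ?_⟩
      rcases ha with ⟨h6, h7⟩ | ⟨h6, h7⟩
      · rw [h6, h7]; exact fun h8 => hvU (h8.1 hyU)
      · rw [h6, h7]; exact fun h8 => hvU (h8.2 hyU)
    · by_contra hvU
      apply hU b
      rw [K.mem_cut]
      refine ⟨hbL, ?_⟩
      rcases hb with ⟨h6, h7⟩ | ⟨h6, h7⟩
      · rw [h6, h7]; exact fun h8 => hvU (h8.1 hyU)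
      · rw [h6, h7]; exact fun h8 => hvU (h8.2 hyU)

/-- [C] -/
theorem Mn.trivial {K : Gph V E} {N : Finset V} (h : Mn K N) {U : Finset V} (hU : Tight K N U)
    {v : V} (hv : v ∈ U) (hN : v ∉ N) (hp : ¬ Port K N v) : (K.cut K.F {v}).card ≤ 2 := by
  classical
  suffices hall : ∀ n, ∀ U : Finset V, U.card = n → Tight K N U → Triv K N U from
    hall U.card U rfl hU v hv hN hp
  clear hv hN hp hU v U
  intro n
  induction n using Nat.strong_induction_on with
  | _ n ih =>
  intro U0 hn hU0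
  have hmin : ∀ W, W ⊂ U0 → Tight K N W → Triv K N W := by
    intro W hW hT
    exact ih W.card (by rw [← hn]; exact card_lt_card hW) W rfl hT
  -- the leg vertex
  obtain ⟨y, hy⟩ := card_eq_one.1 hU0.one
  have hyU : y ∈ U0 ∧ y ∈ N := by
    have : y ∈ U0 ∩ N := by rw [hy]; exact mem_singleton_self y
    exact mem_inter.1 this
  obtain ⟨T, hT, hTN, hTp, hTU⟩ := exists_group h.toKF hyU.2
  -- the largest trivial tight subset
  obtain ⟨W, hW, hWmax⟩ := exists_max_image
    (U0.powerset.filter fun W => Tight K N W ∧ Triv K N W ∧ W ∩ N = U0 ∩ N) card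
    ⟨T, by
      rw [mem_filter, mem_powerset]
      refine ⟨hTU U0 hU0.closed hyU.1, hT, fun v hv hvN hvp => absurd (hTp v hv hvN) hvp, ?_⟩
      rw [hTN, hy]⟩
  simp only [mem_filter, mem_powerset] at hW hWmax
  obtain ⟨hWU, hWT, hWtr, hWN⟩ := hW
  have hbig : ∀ W', W' ⊆ U0 → Tight K N W' → Triv K N W' → W' ∩ N = U0 ∩ N → W' ⊆ W := by
    intro W' h1 h2 h3 h4
    have h5 := hWmax (W ∪ W') ⟨union_subset hWU h1, Tight.union h.toKF hWT h2 (hWN.trans h4.symm),
      fun v hv => by
        rcases mem_union.1 hv with hv | hv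
        · exact hWtr v hv
        · exact h3 v hv,
      by rw [union_inter_distrib_right, hWN, h4, union_self]⟩
    have h6 : W = W ∪ W' := eq_of_subset_of_card_le subset_union_left h5
    rw [h6]
    exact subset_union_right
  -- no edge inside U0 \ W
  have hnoE : ∀ e ∈ K.F, ¬ ((K.s e ∈ U0 ∧ K.s e ∉ W) ∧ (K.t e ∈ U0 ∧ K.t e ∉ W)) := by
    rintro e he ⟨⟨hs1, hs2⟩, ht1, ht2⟩
    have hnotN : ∀ v ∈ U0, v ∉ W → v ∉ N := by
      intro v h1 h2 h3
      have : v ∈ W ∩ N := by rw [hWN]; exact mem_inter.2 ⟨h1, h3⟩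
      exact h2 (mem_inter.1 this).1
    have heL : e ∉ K.meet K.F N := by
      intro h1
      rcases (K.mem_meet.1 h1).2 with h2 | h2
      · exact hnotN _ hs1 hs2 h2
      · exact hnotN _ ht1 ht2 h2
    rcases h.nd e he heL with ⟨S, hSA, hS1, hS2, hSe⟩ | ⟨U', hU', heU'⟩
    · -- bridge
      have main : ∀ S : Finset V, S ⊆ K.A → K.cut K.F S = {e} → y ∈ S → False := by
        intro S hSA hSe hyS
        have heS : e ∈ K.cut K.F S := by rw [hSe]; exact mem_singleton_self e
        have heS' := (K.mem_cut.1 heS).2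
        have hSc : K.cut (K.meet K.F N) S = ∅ := by
          rw [eq_empty_iff_forall_notMem]
          intro f hf
          have h1 := K.mem_cut.1 hf
          have h2 : f ∈ K.cut K.F S := K.mem_cut.2 ⟨K.meet_subset _ _ h1.1, h1.2⟩
          rw [hSe, mem_singleton] at h2
          subst h2
          exact heL h1.1
        have hc1 := closed_inter hU0.closed hSc
        have hc2 := closed_sdiff hU0.closed hSc
        have hN1 : (U0 ∩ S) ∩ N = U0 ∩ N := by
          ext v
          have : v ∈ U0 ∩ N ↔ v = y := by rw [hy, mem_singleton]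
          simp only [mem_inter] at this ⊢
          constructor
          · tauto
          · intro h1
            have := this.1 h1
            subst this
            exact ⟨⟨h1.1, hyS⟩, h1.2⟩
        have hN2 : (U0 \ S) ∩ N = ∅ := by
          rw [eq_empty_iff_forall_notMem]
          intro v hv
          have : v ∈ U0 ∩ N ↔ v = y := by rw [hy, mem_singleton]
          simp only [mem_inter, mem_sdiff] at this hv
          have h1 := this.1 ⟨hv.1.1, hv.2⟩
          subst h1
          exact hv.1.2 hyS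
        have hq := h.q (U0 ∩ S) (inter_subset_left.trans hU0.sub) hc1 (by rw [hN1]; exact hU0.one)
        have hsp := card_cut_split K.F U0 S (K := K)
        have hle : (K.cut (K.ins K.F U0) S).card ≤ 1 := by
          have h1 : K.cut (K.ins K.F U0) S ⊆ {e} := by
            rw [← hSe]
            exact K.cut_mono (K.ins_subset _ _) S
          simpa using card_le_card h1
        have h4 := hU0.four
        have hne4 : (K.cut K.F (U0 ∩ S)).card ≠ 4 := by
          intro h5
          have hti : Tight K N (U0 ∩ S) :=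
            ⟨inter_subset_left.trans hU0.sub, hc1, by rw [hN1]; exact hU0.one, h5⟩
          have hss : U0 ∩ S ⊂ U0 := by
            refine ⟨inter_subset_left, fun h6 => ?_⟩
            have h7 := (mem_inter.1 (h6 hs1)).2
            have h8 := (mem_inter.1 (h6 ht1)).2
            tauto
          have hsub := hbig _ inter_subset_left hti (hmin _ hss hti) hN1
          by_cases h6 : K.s e ∈ S
          · exact hs2 (hsub (mem_inter.2 ⟨hs1, h6⟩))
          · have h7 : K.t e ∈ S := by tauto
            exact ht2 (hsub (mem_inter.2 ⟨ht1, h7⟩))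
        have hle1 : (K.cut K.F (U0 \ S)).card ≤ 1 := by omega
        have heD : e ∈ K.cut K.F (U0 \ S) := by
          rw [K.mem_cut]
          simp only [mem_sdiff]
          refine ⟨he, ?_⟩
          tauto
        have hD : K.cut K.F (U0 \ S) = {e} := by
          ext f
          rw [mem_singleton]
          constructor
          · intro hf
            exact card_le_one.1 hle1 f hf e heD
          · rintro rfl
            exact heD
        exact h.no_pend (sdiff_subset.trans hU0.sub) hN2 hc2 hD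
      by_cases hyS : y ∈ S
      · exact main S hSA hSe hyS
      · apply main (K.A \ S) sdiff_subset _ (mem_sdiff.2 ⟨hU0.sub hyU.1, hyS⟩)
        rw [K.cut_compl h.sA h.tA (Subset.refl _)]
        exact hSe
    · -- a tight set
      have heU'' := (K.mem_cut.1 heU').2
      by_cases heq : U0 ∩ N = U' ∩ N
      · have hti := Tight.inter h.toKF hU0 hU' heq
        have hss : U0 ∩ U' ⊂ U0 := by
          refine ⟨inter_subset_left, fun h6 => ?_⟩
          have h7 := (mem_inter.1 (h6 hs1)).2
          have h8 := (mem_inter.1 (h6 ht1)).2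
          tauto
        have hN1 : (U0 ∩ U') ∩ N = U0 ∩ N := by
          ext v
          have := congrArg (fun Z => v ∈ Z) heq
          simp only [mem_inter, eq_iff_iff] at this ⊢
          tauto
        have hsub := hbig _ inter_subset_left hti (hmin _ hss hti) hN1
        by_cases h6 : K.s e ∈ U'
        · exact hs2 (hsub (mem_inter.2 ⟨hs1, h6⟩))
        · have h7 : K.t e ∈ U' := by tauto
          exact ht2 (hsub (mem_inter.2 ⟨ht1, h7⟩))
      · have hti := Tight.sdiff h.toKF hU0 hU' heq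
        have hN1 := Tight.sdiff_inter hU0 hU' heq
        have hss : U0 \ U' ⊂ U0 := by
          refine ⟨sdiff_subset, fun h6 => ?_⟩
          have h7 := (mem_sdiff.1 (h6 hs1)).2
          have h8 := (mem_sdiff.1 (h6 ht1)).2
          tauto
        have hsub := hbig _ sdiff_subset hti (hmin _ hss hti) hN1
        by_cases h6 : K.s e ∈ U'
        · have h7 : K.t e ∉ U' := by tauto
          exact ht2 (hsub (mem_sdiff.2 ⟨ht1, h7⟩))
        · exact hs2 (hsub (mem_sdiff.2 ⟨hs1, h6⟩))
  -- U0 = W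
  suffices hUW : U0 ⊆ W by
    intro v hv
    exact hWtr v (hUW hv)
  intro v hv
  by_contra hvW
  have hvA := hU0.sub hv
  have hvN : v ∉ N := by
    intro h3
    have : v ∈ W ∩ N := by rw [hWN]; exact mem_inter.2 ⟨hv, h3⟩
    exact hvW (mem_inter.1 this).1
  -- no L-edge at v
  have hvL : K.cut (K.meet K.F N) {v} = ∅ := by
    rw [eq_empty_iff_forall_notMem]
    intro e he
    have h1 := K.mem_cut_singleton.1 he
    have hcU := eq_empty_iff_forall_notMem.1 hU0.closed e
    have hcW := eq_empty_iff_forall_notMem.1 hWT.closed e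
    rw [K.mem_cut] at hcU hcW
    have h2 := (K.mem_meet.1 h1.1).2
    have hnn : ∀ w, w ∈ U0 → w ∈ N → w ∈ W := by
      intro w h3 h4
      have : w ∈ W ∩ N := by rw [hWN]; exact mem_inter.2 ⟨h3, h4⟩
      exact (mem_inter.1 this).1
    have h3 := hnn (K.s e)
    have h4 := hnn (K.t e)
    rcases h1.2 with ⟨h5, h6⟩ | ⟨h5, h6⟩
    · rw [h5] at hcU hcW h2 h3
      tauto
    · rw [h6] at hcU hcW h2 h4
      tauto
  have hi := card_cut_insert K.F hvW (K := K)
  have he := card_cut_insert K.F (notMem_erase v U0) (K := K)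
  rw [insert_erase hv] at he
  have hjj : K.cut (K.cut K.F {v}) (U0.erase v) = K.cut (K.cut K.F {v}) W := by
    ext e
    rw [K.mem_cut (U := U0.erase v), K.mem_cut (U := W), K.mem_cut_singleton, mem_erase, mem_erase]
    constructor
    · rintro ⟨⟨h1, h2⟩, h3⟩
      refine ⟨⟨h1, h2⟩, ?_⟩
      have := hnoE e h1
      rcases h2 with ⟨h4, h5⟩ | ⟨h4, h5⟩
      · rw [h4] at this h3 ⊢
        tauto
      · rw [h5] at this h3 ⊢
        tauto
    · rintro ⟨⟨h1, h2⟩, h3⟩
      refine ⟨⟨h1, h2⟩, ?_⟩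
      have h6 : ∀ w, w ∈ W → w ∈ U0 := fun w hw => hWU hw
      rcases h2 with ⟨h4, h5⟩ | ⟨h4, h5⟩
      · have := h6 (K.t e)
        rw [h4] at h3 ⊢
        tauto
      · have := h6 (K.s e)
        rw [h5] at h3 ⊢
        tauto
  rw [hjj] at he
  have hclI : K.cut (K.meet K.F N) (insert v W) = ∅ := by
    rw [insert_eq]
    exact closed_union hvL hWT.closed
  have hclE : K.cut (K.meet K.F N) (U0.erase v) = ∅ := by
    rw [erase_eq]
    exact closed_sdiff hU0.closed hvL
  have hNI : (insert v W) ∩ N = U0 ∩ N := by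
    rw [insert_inter_of_notMem hvN, hWN]
  have hNE : (U0.erase v) ∩ N = U0 ∩ N := by
    ext w
    simp only [mem_inter, mem_erase]
    constructor
    · tauto
    · rintro ⟨h1, h2⟩
      refine ⟨⟨?_, h1⟩, h2⟩
      rintro rfl
      exact hvN h2
  have hIA : insert v W ⊆ K.A := by
    intro w hw
    rcases mem_insert.1 hw with rfl | hw
    · exact hvA
    · exact hWT.sub hw
  have q1 := h.q (insert v W) hIA hclI (by rw [hNI]; exact hU0.one)
  have q2 := h.q (U0.erase v) ((erase_subset _ _).trans hU0.sub) hclE (by rw [hNE]; exact hU0.one)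
  have f1 := hWT.four
  have f2 := hU0.four
  have d3 := h.deg v hvA hvN
  have htI : Tight K N (insert v W) := ⟨hIA, hclI, by rw [hNI]; exact hU0.one, by omega⟩
  have hsub := hbig (insert v W) (insert_subset hv hWU) htI (by
    intro w hw hwN hwp
    rcases mem_insert.1 hw with rfl | hw
    · omega
    · exact hWtr w hw hwN hwp) hNI
  exact hvW (hsub (mem_insert_self v W))

end GLQ
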