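import Pool.Agent.Helper18.GLQ.C

/-! Part [D]: every circuit touches at least two leg groups. -/

namespace GLQ

open Finset GLR

set_option linter.unusedSectionVars false

variable {V E : Type*} [Fintype V] [DecidableEq V] [DecidableEq E]

namespace DAux

theorem mem_cs {K : Gph V E} {X : Finset E} (hX : ∀ e ∈ X, K.s e ≠ K.t e) {v : V} {e : E} :
    e ∈ K.cut X {v} ↔ e ∈ X ∧ (K.s e = v ∨ K.t e = v) := by
  rw [Gph.mem_cut_singleton]
  constructor
  · rintro ⟨h, h1 | h1⟩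
    · exact ⟨h, Or.inl h1.1⟩
    · exact ⟨h, Or.inr h1.2⟩
  · rintro ⟨h, h1 | h1⟩
    · exact ⟨h, Or.inl ⟨h1, fun h2 => hX e h (h1.trans h2.symm)⟩⟩
    · exact ⟨h, Or.inr ⟨fun h2 => hX e h (h2.trans h1.symm), h1⟩⟩

theorem mem_vs {K : Gph V E} {X : Finset E} (hX : ∀ e ∈ X, K.s e ≠ K.t e) {v : V} :
    v ∈ vs K X ↔ ∃ e ∈ X, K.s e = v ∨ K.t e = v := by
  simp only [vs, mem_filter, mem_univ, true_and, Finset.Nonempty, mem_cs hX]

theorem s_mem_vs {K : Gph V E} {X : Finset E} (hX : ∀ e ∈ X, K.s e ≠ K.t e) {e : E} (he : e ∈ X) :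
    K.s e ∈ vs K X := (mem_vs hX).mpr ⟨e, he, Or.inl rfl⟩

theorem t_mem_vs {K : Gph V E} {X : Finset E} (hX : ∀ e ∈ X, K.s e ≠ K.t e) {e : E} (he : e ∈ X) :
    K.t e ∈ vs K X := (mem_vs hX).mpr ⟨e, he, Or.inr rfl⟩

/-- the group of a leg vertex -/
def grp (K : Gph V E) (y : V) : Finset V := vs K (K.cut K.F {y})

section

variable {K : Gph V E} {N : Finset V}

theorem cutF_ne (h : KF K N) (y : V) : ∀ e ∈ K.cut K.F {y}, K.s e ≠ K.t e :=
  fun e he => h.ne e (K.cut_subset _ _ he)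

theorem mem_grp (h : KF K N) {y v : V} :
    v ∈ grp K y ↔ ∃ e ∈ K.F, (K.s e = y ∨ K.t e = y) ∧ (K.s e = v ∨ K.t e = v) := by
  rw [grp, mem_vs (cutF_ne h y)]
  constructor
  · rintro ⟨e, he, h1⟩
    rw [mem_cs h.ne] at he
    exact ⟨e, he.1, he.2, h1⟩
  · rintro ⟨e, he, h1, h2⟩
    exact ⟨e, (mem_cs h.ne).mpr ⟨he, h1⟩, h2⟩

theorem grp_sub (h : KF K N) (y : V) : grp K y ⊆ K.A := by
  intro v hv
  rw [mem_grp h] at hv
  obtain ⟨e, he, -, h1 | h1⟩ := hv
  · exact h1 ▸ h.sA e he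
  · exact h1 ▸ h.tA e he

theorem self_mem_grp (h : KF K N) {y : V} (hy : y ∈ N) : y ∈ grp K y := by
  have h1 := h.degN y hy
  have h2 : (K.cut K.F {y}).Nonempty := card_pos.mp (by omega)
  obtain ⟨e, he⟩ := h2
  rw [mem_cs h.ne] at he
  exact (mem_grp h).mpr ⟨e, he.1, he.2, he.2⟩

/-- a non-`y` member of the group of `y` is a port -/
theorem port_of_mem_grp (h : KF K N) {y : V} (hy : y ∈ N) {v : V} (hv : v ∈ grp K y)
    (hne : v ≠ y) : Port K N v := by
  rw [mem_grp h] at hv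
  obtain ⟨e, he, h1, h2⟩ := hv
  have h3 := h.ind e he
  have hvN : v ∉ N := by
    intro hvN
    apply h3
    rcases h1 with h1 | h1 <;> rcases h2 with h2 | h2
    · exact absurd (h2.symm.trans h1) hne
    · exact ⟨h1 ▸ hy, h2 ▸ hvN⟩
    · exact ⟨h2 ▸ hvN, h1 ▸ hy⟩
    · exact absurd (h2.symm.trans h1) hne
  refine ⟨hvN, e, ?_⟩
  rw [mem_cs (fun e he => h.ne e (K.meet_subset _ _ he)), Gph.mem_meet]
  refine ⟨⟨he, ?_⟩, h2⟩
  rcases h1 with h1 | h1
  · exact Or.inl (h1 ▸ hy)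
  · exact Or.inr (h1 ▸ hy)

theorem grp_inter (h : KF K N) {y : V} (hy : y ∈ N) : grp K y ∩ N = {y} := by
  ext v
  rw [mem_inter, mem_singleton]
  constructor
  · rintro ⟨h1, h2⟩
    by_contra h3
    exact (port_of_mem_grp h hy h1 h3).1 h2
  · rintro rfl
    exact ⟨self_mem_grp h hy, hy⟩

/-- an edge at a leg vertex `y` lies in its group -/
theorem ends_mem_grp (h : KF K N) {y : V} {e : E} (he : e ∈ K.F) (h1 : K.s e = y ∨ K.t e = y) :
    K.s e ∈ grp K y ∧ K.t e ∈ grp K y :=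
  ⟨(mem_grp h).mpr ⟨e, he, h1, Or.inl rfl⟩, (mem_grp h).mpr ⟨e, he, h1, Or.inr rfl⟩⟩

/-- the group of a port is unique -/
theorem grp_unique (h : KF K N) {y y' v : V} (hy : y ∈ N) (hy' : y' ∈ N) (hv : v ∈ grp K y)
    (hv' : v ∈ grp K y') : y = y' := by
  by_contra hne
  have hvN : v ∉ N := by
    intro hvN
    have h1 : v ∈ grp K y ∩ N := mem_inter.mpr ⟨hv, hvN⟩
    have h2 : v ∈ grp K y' ∩ N := mem_inter.mpr ⟨hv', hvN⟩
    rw [grp_inter h hy, mem_singleton] at h1
    rw [grp_inter h hy', mem_singleton] at h2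
    exact hne (h1.symm.trans h2)
  have hvA : v ∈ K.A := grp_sub h y hv
  have hp := h.port v hvA hvN
  rw [mem_grp h] at hv hv'
  obtain ⟨e, he, h1, h2⟩ := hv
  obtain ⟨e', he', h1', h2'⟩ := hv'
  have hne' : ∀ e ∈ K.meet K.F N, K.s e ≠ K.t e := fun e he => h.ne e (K.meet_subset _ _ he)
  have hm : e ∈ K.cut (K.meet K.F N) {v} := by
    rw [mem_cs hne', Gph.mem_meet]
    refine ⟨⟨he, ?_⟩, h2⟩
    rcases h1 with h1 | h1
    · exact Or.inl (h1 ▸ hy)
    · exact Or.inr (h1 ▸ hy)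
  have hm' : e' ∈ K.cut (K.meet K.F N) {v} := by
    rw [mem_cs hne', Gph.mem_meet]
    refine ⟨⟨he', ?_⟩, h2'⟩
    rcases h1' with h1' | h1'
    · exact Or.inl (h1' ▸ hy')
    · exact Or.inr (h1' ▸ hy')
  have hee : e = e' := card_le_one.mp hp e hm e' hm'
  subst hee
  have hyv : y ≠ v := fun h3 => hvN (h3 ▸ hy)
  have hyv' : y' ≠ v := fun h3 => hvN (h3 ▸ hy')
  have hst := h.ne e he
  rcases h1 with h1 | h1 <;> rcases h1' with h1' | h1' <;> rcases h2 with h2 | h2
  · exact hyv (h1.symm.trans h2)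
  · exact hne (h1.symm.trans h1')
  · exact hyv (h1.symm.trans h2)
  · exact hyv' (h1'.symm.trans h2)
  · exact hyv' (h1'.symm.trans h2)
  · exact hyv (h1.symm.trans h2)
  · exact hne (h1.symm.trans h1')
  · exact hyv (h1.symm.trans h2)

/-- closed sets: an edge at a leg vertex with an end in a closed set lies inside -/
theorem closed_iff (h : KF K N) {U : Finset V} :
    K.cut (K.meet K.F N) U = ∅ ↔
      ∀ y ∈ N, ∀ e ∈ K.F, (K.s e = y ∨ K.t e = y) → (K.s e ∈ U ↔ K.t e ∈ U) := by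
  constructor
  · intro hc y hy e he h1
    by_contra h2
    have : e ∈ K.cut (K.meet K.F N) U := by
      rw [Gph.mem_cut, Gph.mem_meet]
      refine ⟨⟨he, ?_⟩, h2⟩
      rcases h1 with h1 | h1
      · exact Or.inl (h1 ▸ hy)
      · exact Or.inr (h1 ▸ hy)
    rw [hc] at this
    exact absurd this (notMem_empty _)
  · intro hc
    rw [eq_empty_iff_forall_notMem]
    intro e he
    rw [Gph.mem_cut, Gph.mem_meet] at he
    obtain ⟨⟨he, h1⟩, h2⟩ := he
    rcases h1 with h1 | h1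
    · exact h2 (hc _ h1 e he (Or.inl rfl))
    · exact h2 (hc _ h1 e he (Or.inr rfl))

/-- a closed set containing a member of the group of `y` contains the whole group -/
theorem grp_sub_closed (h : KF K N) {U : Finset V} (hc : K.cut (K.meet K.F N) U = ∅) {y : V}
    (hy : y ∈ N) (hyU : y ∈ U) : grp K y ⊆ U := by
  intro v hv
  rw [mem_grp h] at hv
  obtain ⟨e, he, h1, h2⟩ := hv
  have h3 := (closed_iff h).mp hc y hy e he h1
  rcases h1 with h1 | h1 <;> rcases h2 with h2 | h2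
  · rw [← h2, h1]; exact hyU
  · rw [← h2]; exact h3.mp (h1 ▸ hyU)
  · rw [← h2]; exact h3.mpr (h1 ▸ hyU)
  · rw [← h2, h1]; exact hyU

/-- a port lies in the group of a leg vertex -/
theorem port_mem_grp (h : KF K N) {v : V} (hv : Port K N v) : ∃ y ∈ N, v ∈ grp K y := by
  obtain ⟨hvN, e, he⟩ := hv
  rw [mem_cs (fun e he => h.ne e (K.meet_subset _ _ he)), Gph.mem_meet] at he
  obtain ⟨⟨he, h1⟩, h2⟩ := he
  rcases h1 with h1 | h1
  · exact ⟨_, h1, (mem_grp h).mpr ⟨e, he, Or.inl rfl, h2⟩⟩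
  · exact ⟨_, h1, (mem_grp h).mpr ⟨e, he, Or.inr rfl, h2⟩⟩

/-- a port in a closed set has its leg vertex in it -/
theorem leg_mem_closed (h : KF K N) {U : Finset V} (hc : K.cut (K.meet K.F N) U = ∅) {y v : V}
    (hy : y ∈ N) (hv : v ∈ grp K y) (hvU : v ∈ U) : y ∈ U := by
  rw [mem_grp h] at hv
  obtain ⟨e, he, h1, h2⟩ := hv
  have h3 := (closed_iff h).mp hc y hy e he h1
  rcases h1 with h1 | h1 <;> rcases h2 with h2 | h2
  · rw [← h1, h2]; exact hvU
  · rw [← h1]; exact h3.mpr (h2 ▸ hvU)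
  · rw [← h1]; exact h3.mp (h2 ▸ hvU)
  · rw [← h1, h2]; exact hvU

/-- a set meeting every group in everything or nothing is closed -/
theorem grp_closed (h : KF K N) {U : Finset V} (hU : ∀ y ∈ N, grp K y ⊆ U ∨ Disjoint (grp K y) U) :
    K.cut (K.meet K.F N) U = ∅ := by
  rw [closed_iff h]
  intro y hy e he h1
  obtain ⟨h2, h3⟩ := ends_mem_grp h he h1
  rcases hU y hy with h4 | h4
  · exact ⟨fun _ => h4 h3, fun _ => h4 h2⟩
  · exact ⟨fun h5 => absurd h5 (disjoint_left.mp h4 h2), fun h5 => absurd h5 (disjoint_left.mp h4 h3)⟩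

theorem grp_disjoint (h : KF K N) {y y' : V} (hy : y ∈ N) (hy' : y' ∈ N) (hne : y ≠ y') :
    Disjoint (grp K y) (grp K y') := by
  rw [disjoint_left]
  intro v h1 h2
  exact hne (grp_unique h hy hy' h1 h2)

/-- the group has three members: the degree sum of the edges at `y` -/
theorem grp_card (h : KF K N) {y : V} (hy : y ∈ N) : (grp K y).card = 3 := by
  have h1 := K.handshake (X := K.cut K.F {y}) (cutF_ne h y) (grp K y)
  have hins : K.ins (K.cut K.F {y}) (grp K y) = K.cut K.F {y} := by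
    ext e
    rw [Gph.mem_ins]
    constructor
    · exact fun h => h.1
    · intro he
      have he' := he
      rw [mem_cs h.ne] at he'
      obtain ⟨h2, h3⟩ := ends_mem_grp h he'.1 he'.2
      exact ⟨he, h2, h3⟩
  have hcut : K.cut (K.cut K.F {y}) (grp K y) = ∅ := by
    rw [eq_empty_iff_forall_notMem]
    intro e he
    rw [Gph.mem_cut] at he
    obtain ⟨he, h4⟩ := he
    rw [mem_cs h.ne] at he
    obtain ⟨h2, h3⟩ := ends_mem_grp h he.1 he.2
    exact h4 ⟨fun _ => h3, fun _ => h2⟩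
  rw [hins, hcut, h.degN y hy, card_empty] at h1
  rw [← add_sum_erase _ _ (self_mem_grp h hy)] at h1
  have hy2 : (K.cut (K.cut K.F {y}) {y}).card = 2 := by
    have : K.cut (K.cut K.F {y}) {y} = K.cut K.F {y} := by
      ext e
      rw [mem_cs (cutF_ne h y), mem_cs h.ne]
      tauto
    rw [this, h.degN y hy]
  have hv1 : ∀ v ∈ (grp K y).erase y, (K.cut (K.cut K.F {y}) {v}).card = 1 := by
    intro v hv
    rw [mem_erase] at hv
    have hp := port_of_mem_grp h hy hv.2 hv.1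
    have hle := h.port v (grp_sub h y hv.2) hp.1
    have hsub : K.cut (K.cut K.F {y}) {v} ⊆ K.cut (K.meet K.F N) {v} := by
      apply K.cut_mono
      intro e he
      rw [mem_cs h.ne] at he
      rw [Gph.mem_meet]
      refine ⟨he.1, ?_⟩
      rcases he.2 with h1 | h1
      · exact Or.inl (h1 ▸ hy)
      · exact Or.inr (h1 ▸ hy)
    have h2 := card_le_card hsub
    have h3 : (K.cut (K.cut K.F {y}) {v}).Nonempty := by
      have := hv.2
      rw [grp, vs, mem_filter] at this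
      exact this.2
    have h4 := card_pos.mpr h3
    omega
  rw [hy2, sum_congr rfl hv1, sum_const, smul_eq_mul, mul_one, card_erase_of_mem
    (self_mem_grp h hy)] at h1
  have h5 : 0 < (grp K y).card := card_pos.mpr ⟨y, self_mem_grp h hy⟩
  omega

theorem grp_sum (h : KF K N) {y : V} (hy : y ∈ N) :
    ∑ v ∈ grp K y, (K.cut K.F {v}).card = 8 := by
  rw [← add_sum_erase _ _ (self_mem_grp h hy), h.degN y hy]
  have h1 : ∀ v ∈ (grp K y).erase y, (K.cut K.F {v}).card = 3 := by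
    intro v hv
    rw [mem_erase] at hv
    exact h.port_deg (port_of_mem_grp h hy hv.2 hv.1) (grp_sub h y hv.2)
  rw [sum_congr rfl h1, sum_const, card_erase_of_mem (self_mem_grp h hy), grp_card h hy]
  rfl

theorem grp_closed' (h : KF K N) {y : V} (hy : y ∈ N) : K.cut (K.meet K.F N) (grp K y) = ∅ := by
  apply grp_closed h
  intro y' hy'
  by_cases hyy : y' = y
  · subst hyy
    exact Or.inl (Subset.refl _)
  · exact Or.inr (grp_disjoint h hy' hy hyy)

/-- the group of a leg vertex is tight -/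
theorem grp_tight (h : KF K N) {y : V} (hy : y ∈ N) : Tight K N (grp K y) := by
  have hone : (grp K y ∩ N).card = 1 := by rw [grp_inter h hy]; simp
  refine ⟨grp_sub h y, grp_closed' h hy, hone, ?_⟩
  have hq := h.q (grp K y) (grp_sub h y) (grp_closed' h hy) hone
  have h1 := K.handshake h.ne (grp K y)
  rw [grp_sum h hy] at h1
  have h2 : K.cut K.F {y} ⊆ K.ins K.F (grp K y) := by
    intro e he
    rw [mem_cs h.ne] at he
    obtain ⟨h2, h3⟩ := ends_mem_grp h he.1 he.2
    rw [Gph.mem_ins]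
    exact ⟨he.1, h2, h3⟩
  have h3 := card_le_card h2
  rw [h.degN y hy] at h3
  omega

/-- touching a group -/
theorem mem_tch (h : KF K N) {W : Finset V} {y : V} :
    y ∈ tch K N W ↔ y ∈ N ∧ (grp K y ∩ W).Nonempty := by
  rw [tch, mem_filter]
  refine and_congr_right fun hy => ?_
  constructor
  · rintro ⟨e, he⟩
    rw [Gph.mem_meet, mem_cs h.ne] at he
    obtain ⟨h1, h2⟩ := ends_mem_grp h he.1.1 he.1.2
    rcases he.2 with h3 | h3
    · exact ⟨_, mem_inter.mpr ⟨h1, h3⟩⟩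
    · exact ⟨_, mem_inter.mpr ⟨h2, h3⟩⟩
  · rintro ⟨v, hv⟩
    rw [mem_inter, mem_grp h] at hv
    obtain ⟨⟨e, he, h1, h2⟩, h3⟩ := hv
    refine ⟨e, ?_⟩
    rw [Gph.mem_meet, mem_cs h.ne]
    refine ⟨⟨he, h1⟩, ?_⟩
    rcases h2 with h2 | h2
    · exact Or.inl (h2 ▸ h3)
    · exact Or.inr (h2 ▸ h3)

end

section

variable {K : Gph V E} {N : Finset V} {Z : Finset E}

theorem neZ (h : KF K N) (hZ : K.Circ Z) : ∀ e ∈ Z, K.s e ≠ K.t e := fun e he => h.ne e (hZ.sub he)

theorem vs_sub (h : KF K N) (hZ : K.Circ Z) : vs K Z ⊆ K.A := by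
  intro v hv
  rw [mem_vs (neZ h hZ)] at hv
  obtain ⟨e, he, h1 | h1⟩ := hv
  · exact h1 ▸ h.sA e (hZ.sub he)
  · exact h1 ▸ h.tA e (hZ.sub he)

theorem degZ (h : KF K N) (hZ : K.Circ Z) {v : V} (hv : v ∈ vs K Z) : (K.cut Z {v}).card = 2 := by
  have h1 : 0 < (K.cut Z {v}).card := by
    rw [card_pos]
    rw [vs, mem_filter] at hv
    exact hv.2
  have h2 := hZ.ev v
  have h3 := card_le_card (K.cut_mono hZ.sub {v})
  have h4 : (K.cut K.F {v}).card ≤ 3 := by
    by_cases hN : v ∈ N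
    · rw [h.degN v hN]; norm_num
    · exact h.deg v (vs_sub h hZ hv) hN
  obtain ⟨k, hk⟩ := h2
  omega

theorem degZ0 {v : V} (hv : v ∉ vs K Z) : (K.cut Z {v}).card = 0 := by
  rw [vs, mem_filter] at hv
  rw [card_eq_zero]
  by_contra h1
  exact hv ⟨mem_univ _, nonempty_iff_ne_empty.mpr h1⟩

theorem cardZ (h : KF K N) (hZ : K.Circ Z) : Z.card = (vs K Z).card := by
  have h1 := K.handshake (neZ h hZ) (vs K Z)
  have h2 : K.ins Z (vs K Z) = Z := by
    ext e
    rw [Gph.mem_ins]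
    exact ⟨fun h => h.1, fun he => ⟨he, s_mem_vs (neZ h hZ) he, t_mem_vs (neZ h hZ) he⟩⟩
  have h3 : K.cut Z (vs K Z) = ∅ := by
    rw [eq_empty_iff_forall_notMem]
    intro e he
    rw [Gph.mem_cut] at he
    exact he.2 ⟨fun _ => t_mem_vs (neZ h hZ) he.1, fun _ => s_mem_vs (neZ h hZ) he.1⟩
  rw [h2, h3, card_empty, sum_congr rfl (fun v hv => degZ h hZ hv), sum_const, smul_eq_mul] at h1
  omega

/-- at a vertex of degree two of the circuit all edges are in the circuit -/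
theorem all_in (h : KF K N) (hZ : K.Circ Z) {v : V} (hv : v ∈ vs K Z)
    (hd : (K.cut K.F {v}).card ≤ 2) {e : E} (he : e ∈ K.F) (h1 : K.s e = v ∨ K.t e = v) :
    e ∈ Z := by
  have h2 := degZ h hZ hv
  have h3 : K.cut Z {v} = K.cut K.F {v} :=
    eq_of_subset_of_card_le (K.cut_mono hZ.sub {v}) (by omega)
  have h4 : e ∈ K.cut K.F {v} := (mem_cs h.ne).mpr ⟨he, h1⟩
  rw [← h3] at h4
  exact K.cut_subset _ _ h4

/-- main inequality -/
theorem main_ineq (h : Mn K N) (hZ : K.Circ Z) {y : V} (hy : y ∈ N) {U : Finset V}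
    (hU : Tight K N U) (hyU : U ∩ N = {y}) :
    (K.cut Z U).card ≤ (K.cut Z (grp K y)).card := by
  have hk := h.toKF
  have hyU' : y ∈ U := by
    have : y ∈ U ∩ N := by rw [hyU]; exact mem_singleton_self _
    exact (mem_inter.mp this).1
  have hGU : grp K y ⊆ U := grp_sub_closed hk hU.closed hy hyU'
  set S := (U \ vs K Z) ∪ grp K y with hS
  have hSU : S ⊆ U := by
    rw [hS]
    exact union_subset sdiff_subset hGU
  have hGS : grp K y ⊆ S := by
    rw [hS]
    exact subset_union_right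
  have hSc : K.cut (K.meet K.F N) S = ∅ := by
    apply grp_closed hk
    intro y' hy'
    by_cases hyy : y' = y
    · subst hyy
      exact Or.inl hGS
    · refine Or.inr ?_
      rw [disjoint_left]
      intro v h1 h2
      have h3 := leg_mem_closed hk hU.closed hy' h1 (hSU h2)
      have h4 : y' ∈ U ∩ N := mem_inter.mpr ⟨h3, hy'⟩
      rw [hyU, mem_singleton] at h4
      exact hyy h4
  have hSN : S ∩ N = {y} := by
    apply Subset.antisymm
    · intro v hv
      rw [← hyU]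
      rw [mem_inter] at hv ⊢
      exact ⟨hSU hv.1, hv.2⟩
    · intro v hv
      rw [mem_singleton] at hv
      subst hv
      exact mem_inter.mpr ⟨hGS (self_mem_grp hk hy), hy⟩
  have hq := h.q S (hSU.trans hU.sub) hSc (by rw [hSN]; simp)
  have e1 : K.cut Z S = K.cut Z (grp K y) := by
    ext e
    rw [Gph.mem_cut, Gph.mem_cut]
    refine and_congr_right fun he => ?_
    have hs := s_mem_vs (neZ hk hZ) he
    have ht := t_mem_vs (neZ hk hZ) he
    have key : ∀ x ∈ vs K Z, (x ∈ S ↔ x ∈ grp K y) := by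
      intro x hx
      rw [hS, mem_union, mem_sdiff]
      tauto
    rw [key _ hs, key _ ht]
  have e2 : K.cut (K.F \ Z) S = K.cut (K.F \ Z) U := by
    ext e
    rw [Gph.mem_cut, Gph.mem_cut]
    refine and_congr_right fun he => ?_
    rw [mem_sdiff] at he
    have key : ∀ x, (K.s e = x ∨ K.t e = x) → (x ∈ S ↔ x ∈ U) := by
      intro x hx
      refine ⟨fun h1 => hSU h1, fun h1 => ?_⟩
      by_contra h2
      have h3 : x ∈ vs K Z := by
        by_contra h3
        exact h2 (by rw [hS]; exact mem_union_left _ (mem_sdiff.mpr ⟨h1, h3⟩))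
      have h4 : x ∉ grp K y := fun h4 => h2 (hGS h4)
      have h5 : x ∉ N := by
        intro h5
        have h6 : x ∈ U ∩ N := mem_inter.mpr ⟨h1, h5⟩
        rw [hyU, mem_singleton] at h6
        subst h6
        exact h4 (self_mem_grp hk hy)
      have h6 : ¬ Port K N x := by
        intro h6
        obtain ⟨y', hy', h7⟩ := port_mem_grp hk h6
        have h8 := leg_mem_closed hk hU.closed hy' h7 h1
        have h9 : y' ∈ U ∩ N := mem_inter.mpr ⟨h8, hy'⟩
        rw [hyU, mem_singleton] at h9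
        subst h9
        exact h4 h7
      have h7 := h.trivial hU h1 h5 h6
      exact he.2 (all_in hk hZ h3 h7 he.1 hx)
    rw [key _ (Or.inl rfl), key _ (Or.inr rfl)]
  have c1 := K.card_cut_sdiff hZ.sub S
  have c2 := K.card_cut_sdiff hZ.sub U
  rw [e1, e2] at c1
  have c3 := hU.four
  omega

/-- a plain vertex of the circuit: its circuit edges are in cuts of tight sets -/
theorem d3 (h : Mn K N) (hZ : K.Circ Z) {a : V} (haN : a ∉ N)
    (hap : ¬ Port K N a) {e : E} (he : e ∈ Z)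
    (hea : K.s e = a ∨ K.t e = a) :
    ∃ y ∈ tch K N (vs K Z), ∃ U, Tight K N U ∧ U ∩ N = {y} ∧ e ∈ K.cut K.F U := by
  have hk := h.toKF
  have heF := hZ.sub he
  have heL : e ∉ K.meet K.F N := by
    intro h1
    apply hap
    refine ⟨haN, e, ?_⟩
    rw [mem_cs (fun e he => hk.ne e (K.meet_subset _ _ he))]
    exact ⟨h1, hea⟩
  rcases h.nd e heF heL with ⟨U, -, -, -, h1⟩ | ⟨U, hU, h1⟩
  · exfalso
    have h2 : K.cut Z U = {e} := by
      apply Subset.antisymm
      · rw [← h1]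
        exact K.cut_mono hZ.sub U
      · rw [singleton_subset_iff, Gph.mem_cut]
        have h3 : e ∈ K.cut K.F U := by rw [h1]; exact mem_singleton_self _
        rw [Gph.mem_cut] at h3
        exact ⟨he, h3.2⟩
    have h3 := Gph.Ev.cut hZ.ev U
    rw [h2, card_singleton] at h3
    exact absurd h3 (by decide)
  · obtain ⟨y, hy⟩ := card_eq_one.mp hU.one
    have hyN : y ∈ N := by
      have : y ∈ U ∩ N := by rw [hy]; exact mem_singleton_self _
      exact (mem_inter.mp this).2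
    refine ⟨y, ?_, U, hU, hy, h1⟩
    rw [mem_tch hk]
    refine ⟨hyN, ?_⟩
    have h2 := main_ineq h hZ hyN hU hy
    have h3 : e ∈ K.cut Z U := by
      rw [Gph.mem_cut] at h1 ⊢
      exact ⟨he, h1.2⟩
    have h4 : 0 < (K.cut Z U).card := card_pos.mpr ⟨e, h3⟩
    obtain ⟨f, hf⟩ := card_pos.mp (lt_of_lt_of_le h4 h2)
    rw [Gph.mem_cut] at hf
    by_cases h5 : K.s f ∈ grp K y
    · exact ⟨_, mem_inter.mpr ⟨h5, s_mem_vs (neZ hk hZ) hf.1⟩⟩
    · have h6 : K.t f ∈ grp K y := by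
        by_contra h6
        exact hf.2 ⟨fun h => absurd h h5, fun h => absurd h h6⟩
      exact ⟨_, mem_inter.mpr ⟨h6, t_mem_vs (neZ hk hZ) hf.1⟩⟩

/-- no touched group is impossible -/
theorem tch_ne (h : Mn K N) (hZ : K.Circ Z) : tch K N (vs K Z) ≠ ∅ := by
  intro hT
  have hk := h.toKF
  have hno : ∀ y ∈ N, ∀ v ∈ grp K y, v ∉ vs K Z := by
    intro y hy v hv hvW
    have : y ∈ tch K N (vs K Z) := (mem_tch hk).mpr ⟨hy, v, mem_inter.mpr ⟨hv, hvW⟩⟩
    rw [hT] at this
    exact absurd this (notMem_empty _)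
  obtain ⟨e, he⟩ := hZ.ne
  have hv := s_mem_vs (neZ hk hZ) he
  have h1 : K.s e ∉ N := fun h1 => hno _ h1 _ (self_mem_grp hk h1) hv
  have h2 : ¬ Port K N (K.s e) := by
    intro h2
    obtain ⟨y, hy, h3⟩ := port_mem_grp hk h2
    exact hno y hy _ h3 hv
  obtain ⟨y, hy, -⟩ := d3 h hZ h1 h2 he (Or.inl rfl)
  rw [hT] at hy
  exact absurd hy (notMem_empty _)

/-- count D -/
theorem countD (h : KF K N) (hZ : K.Circ Z) {y : V} (hy : y ∈ tch K N (vs K Z)) :
    (Z ∩ K.cut K.F {y}).card + 1 ≤ (grp K y ∩ vs K Z).card := by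
  rw [mem_tch h] at hy
  obtain ⟨hyN, hne⟩ := hy
  rcases (Z ∩ K.cut K.F {y}).eq_empty_or_nonempty with h0 | ⟨f, hf⟩
  · rw [h0, card_empty]
    exact card_pos.mpr hne
  have hyW : y ∈ vs K Z := by
    rw [mem_inter, mem_cs h.ne] at hf
    exact (mem_vs (neZ h hZ)).mpr ⟨f, hf.1, hf.2.2⟩
  have hyg : y ∈ grp K y ∩ vs K Z := mem_inter.mpr ⟨self_mem_grp h hyN, hyW⟩
  have hneX : ∀ e ∈ Z ∩ K.cut K.F {y}, K.s e ≠ K.t e :=
    fun e he => neZ h hZ e (mem_inter.mp he).1
  have h1 := K.handshake hneX (grp K y ∩ vs K Z)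
  have h2 : K.ins (Z ∩ K.cut K.F {y}) (grp K y ∩ vs K Z) = Z ∩ K.cut K.F {y} := by
    ext e
    rw [Gph.mem_ins]
    refine ⟨fun h => h.1, fun he => ⟨he, ?_⟩⟩
    rw [mem_inter, mem_cs h.ne] at he
    obtain ⟨h3, h4⟩ := ends_mem_grp h he.2.1 he.2.2
    exact ⟨mem_inter.mpr ⟨h3, s_mem_vs (neZ h hZ) he.1⟩,
      mem_inter.mpr ⟨h4, t_mem_vs (neZ h hZ) he.1⟩⟩
  rw [h2, ← add_sum_erase _ _ hyg] at h1
  have h3 : (K.cut (Z ∩ K.cut K.F {y}) {y}).card ≤ (Z ∩ K.cut K.F {y}).card :=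
    card_le_card (K.cut_subset _ _)
  have h4 : ∑ v ∈ (grp K y ∩ vs K Z).erase y, (K.cut (Z ∩ K.cut K.F {y}) {v}).card
      ≤ ∑ v ∈ (grp K y ∩ vs K Z).erase y, 1 := by
    apply sum_le_sum
    intro v hv
    rw [mem_erase, mem_inter] at hv
    have hp := port_of_mem_grp h hyN hv.2.1 hv.1
    have hle := h.port v (grp_sub h y hv.2.1) hp.1
    refine le_trans (card_le_card (K.cut_mono ?_ {v})) hle
    intro e he
    rw [mem_inter, mem_cs h.ne] at he
    rw [Gph.mem_meet]
    refine ⟨he.2.1, ?_⟩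
    rcases he.2.2 with h1 | h1
    · exact Or.inl (h1 ▸ hyN)
    · exact Or.inr (h1 ▸ hyN)
  rw [sum_const, smul_eq_mul, mul_one, card_erase_of_mem hyg] at h4
  have h5 : 0 < (grp K y ∩ vs K Z).card := card_pos.mpr ⟨y, hyg⟩
  omega

/-- count C -/
theorem countC (h : KF K N) (hZ : K.Circ Z) (y : V) :
    (K.cut Z (grp K y)).card + 2 * (Z ∩ K.cut K.F {y}).card ≤ 2 * (grp K y ∩ vs K Z).card := by
  have h1 := K.handshake (neZ h hZ) (grp K y)
  have h2 : Z ∩ K.cut K.F {y} ⊆ K.ins Z (grp K y) := by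
    intro e he
    rw [mem_inter, mem_cs h.ne] at he
    obtain ⟨h3, h4⟩ := ends_mem_grp h he.2.1 he.2.2
    rw [Gph.mem_ins]
    exact ⟨he.1, h3, h4⟩
  have h3 := card_le_card h2
  have h4 : ∑ v ∈ grp K y, (K.cut Z {v}).card = ∑ v ∈ grp K y ∩ vs K Z, 2 := by
    rw [← filter_mem_eq_inter, sum_filter]
    apply sum_congr rfl
    intro v _
    by_cases hv : v ∈ vs K Z
    · rw [if_pos hv, degZ h hZ hv]
    · rw [if_neg hv, degZ0 hv]
  rw [sum_const, smul_eq_mul] at h4
  omega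

/-- count B -/
theorem countB (h : KF K N) (hZ : K.Circ Z) {y : V} (hy : tch K N (vs K Z) = {y})
    {D : Finset V} (hD : ∀ v ∈ vs K Z, v ∉ N → ¬ Port K N v → (K.cut K.F {v}).card = 3 → v ∈ D) :
    2 * (grp K y ∩ vs K Z).card ≤ D.card + 2 * (Z ∩ K.cut K.F {y}).card := by
  have hyT : y ∈ tch K N (vs K Z) := by rw [hy]; exact mem_singleton_self _
  have hyN : y ∈ N := ((mem_tch h).mp hyT).1
  have huniq : ∀ y' ∈ N, ∀ v ∈ grp K y', v ∈ vs K Z → y' = y := by
    intro y' hy' v hv hvW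
    have h1 : y' ∈ tch K N (vs K Z) := (mem_tch h).mpr ⟨hy', v, mem_inter.mpr ⟨hv, hvW⟩⟩
    rw [hy, mem_singleton] at h1
    exact h1
  set W := vs K Z with hW
  set G := grp K y with hG
  have hsub : G ∪ W ⊆ K.A := union_subset (grp_sub h y) (vs_sub h hZ)
  have hclosed : K.cut (K.meet K.F N) (G ∪ W) = ∅ := by
    apply grp_closed h
    intro y' hy'
    by_cases hyy : y' = y
    · subst hyy
      exact Or.inl subset_union_left
    · refine Or.inr ?_
      rw [disjoint_left]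
      intro v h1 h2
      rw [mem_union] at h2
      rcases h2 with h2 | h2
      · exact disjoint_left.mp (grp_disjoint h hy' hyN hyy) h1 h2
      · exact hyy (huniq y' hy' v h1 h2)
  have hone : (G ∪ W) ∩ N = {y} := by
    apply Subset.antisymm
    · intro v hv
      rw [mem_inter, mem_union] at hv
      rw [mem_singleton]
      rcases hv.1 with h1 | h1
      · have : v ∈ grp K y ∩ N := mem_inter.mpr ⟨h1, hv.2⟩
        rw [grp_inter h hyN, mem_singleton] at this
        exact this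
      · exact huniq v hv.2 v (self_mem_grp h hv.2) h1
    · intro v hv
      rw [mem_singleton] at hv
      subst hv
      exact mem_inter.mpr ⟨mem_union_left _ (self_mem_grp h hyN), hyN⟩
  have hq := h.q (G ∪ W) hsub hclosed (by rw [hone]; simp)
  have hs := K.handshake h.ne (G ∪ W)
  have hsplit : G ∪ W = G ∪ (W \ G) := by
    ext v
    rw [mem_union, mem_union, mem_sdiff]
    tauto
  have hsum : ∑ v ∈ G ∪ W, (K.cut K.F {v}).card
      = 8 + ∑ v ∈ W \ G, (K.cut K.F {v}).card := by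
    rw [hsplit, sum_union disjoint_sdiff, grp_sum h hyN]
  have hle : ∑ v ∈ W \ G, (K.cut K.F {v}).card ≤ ∑ v ∈ W \ G, (2 + if v ∈ D then 1 else 0) := by
    apply sum_le_sum
    intro v hv
    rw [mem_sdiff] at hv
    have h1 : v ∉ N := by
      intro h1
      have h2 := huniq v h1 v (self_mem_grp h h1) hv.1
      subst h2
      exact hv.2 (self_mem_grp h hyN)
    have h2 : ¬ Port K N v := by
      intro h2
      obtain ⟨y', hy', h3⟩ := port_mem_grp h h2
      have h4 := huniq y' hy' v h3 hv.1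
      subst h4
      exact hv.2 h3
    have h3 := h.deg v (vs_sub h hZ hv.1) h1
    by_cases h4 : (K.cut K.F {v}).card = 3
    · rw [if_pos (hD v hv.1 h1 h2 h4)]
      exact h3
    · omega
  rw [sum_add_distrib, sum_const, smul_eq_mul, ← sum_filter, sum_const, smul_eq_mul, mul_one] at hle
  have hDle : ((W \ G).filter fun v => v ∈ D).card ≤ D.card := by
    apply card_le_card
    intro v hv
    exact (mem_filter.mp hv).2
  have hins : Z ∪ K.cut K.F {y} ⊆ K.ins K.F (G ∪ W) := by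
    intro e he
    rw [mem_union] at he
    rw [Gph.mem_ins]
    rcases he with he | he
    · exact ⟨hZ.sub he, mem_union_right _ (s_mem_vs (neZ h hZ) he),
        mem_union_right _ (t_mem_vs (neZ h hZ) he)⟩
    · rw [mem_cs h.ne] at he
      obtain ⟨h3, h4⟩ := ends_mem_grp h he.1 he.2
      exact ⟨he.1, mem_union_left _ h3, mem_union_left _ h4⟩
  have hinsc := card_le_card hins
  have hu := card_union_add_card_inter Z (K.cut K.F {y})
  rw [h.degN y hyN] at hu
  have hcz := cardZ h hZ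
  rw [← hW] at hcz
  have hw := card_sdiff_add_card_inter W G
  rw [inter_comm] at hw
  omega

end

end DAux

open DAux

theorem Mn.circ {K : Gph V E} {N : Finset V} (h : Mn K N) {Z : Finset E} (hZ : K.Circ Z) :
    2 ≤ (tch K N (vs K Z)).card := by
  classical
  have hk := h.toKF
  by_contra hlt
  have hT1 : (tch K N (vs K Z)).card = 1 := by
    have h1 : 0 < (tch K N (vs K Z)).card := card_pos.mpr (nonempty_iff_ne_empty.mpr (tch_ne h hZ))
    omega
  obtain ⟨y, hy⟩ := card_eq_one.mp hT1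
  have hyT : y ∈ tch K N (vs K Z) := by rw [hy]; exact mem_singleton_self _
  have hyN : y ∈ N := ((mem_tch hk).mp hyT).1
  set D : Finset V := (vs K Z).filter fun v => v ∉ N ∧ ¬ Port K N v ∧ (K.cut K.F {v}).card = 3
    with hD
  have hB := countB hk hZ hy (D := D) (fun v h1 h2 h3 h4 => by
    rw [hD, mem_filter]
    exact ⟨h1, h2, h3, h4⟩)
  have hC := countC hk hZ y
  have hDD := countD hk hZ hyT
  -- the largest tight set at `y`
  obtain ⟨U, hU, hmax⟩ := exists_max_image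
    (univ.filter fun U : Finset V => Tight K N U ∧ U ∩ N = {y}) card
    ⟨grp K y, by
      rw [mem_filter]
      exact ⟨mem_univ _, grp_tight hk hyN, grp_inter hk hyN⟩⟩
  rw [mem_filter] at hU
  obtain ⟨-, hUt, hUy⟩ := hU
  have hall : ∀ U', Tight K N U' → U' ∩ N = {y} → U' ⊆ U := by
    intro U' h1 h2
    have h3 : Tight K N (U ∪ U') := Tight.union hk hUt h1 (hUy.trans h2.symm)
    have h4 : (U ∪ U') ∩ N = {y} := by
      rw [union_inter_distrib_right, hUy, h2, union_self]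
    have h5 := hmax (U ∪ U') (by
      rw [mem_filter]
      exact ⟨mem_univ _, h3, h4⟩)
    have h6 : U = U ∪ U' := eq_of_subset_of_card_le subset_union_left h5
    rw [h6]
    exact subset_union_right
  have hmain := main_ineq h hZ hyN hUt hUy
  have hDU : ∀ a ∈ D, a ∉ U := by
    intro a ha haU
    rw [hD, mem_filter] at ha
    have := h.trivial hUt haU ha.2.1 ha.2.2.1
    omega
  have hcross : ∀ e ∈ Z, ∀ a ∈ D, (K.s e = a ∨ K.t e = a) → e ∈ K.cut K.F U := by
    intro e he a ha hea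
    have ha' := ha
    rw [hD, mem_filter] at ha'
    obtain ⟨y', hy', U', h1, h2, h3⟩ := d3 h hZ ha'.2.1 ha'.2.2.1 he hea
    rw [hy, mem_singleton] at hy'
    subst hy'
    have h4 := hall U' h1 h2
    have h5 : a ∉ U := hDU a ha
    rw [Gph.mem_cut] at h3 ⊢
    refine ⟨h3.1, ?_⟩
    rcases hea with h6 | h6
    · intro h7
      have h8 : K.s e ∉ U := h6 ▸ h5
      have h9 : K.t e ∉ U := fun h10 => h8 (h7.mpr h10)
      exact h3.2 ⟨fun h => absurd (h4 h) h8, fun h => absurd (h4 h) h9⟩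
    · intro h7
      have h8 : K.t e ∉ U := h6 ▸ h5
      have h9 : K.s e ∉ U := fun h10 => h8 (h7.mp h10)
      exact h3.2 ⟨fun h => absurd (h4 h) h9, fun h => absurd (h4 h) h8⟩
  have hA := K.handshake (neZ hk hZ) D
  have hA1 : K.ins Z D = ∅ := by
    rw [eq_empty_iff_forall_notMem]
    intro e he
    rw [Gph.mem_ins] at he
    have h1 := hcross e he.1 _ he.2.1 (Or.inl rfl)
    rw [Gph.mem_cut] at h1
    exact h1.2 ⟨fun h => absurd h (hDU _ he.2.1), fun h => absurd h (hDU _ he.2.2)⟩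
  have hA2 : K.cut Z D ⊆ K.cut Z U := by
    intro e he
    rw [Gph.mem_cut] at he
    have h1 : e ∈ K.cut K.F U := by
      by_cases h2 : K.s e ∈ D
      · exact hcross e he.1 _ h2 (Or.inl rfl)
      · have h3 : K.t e ∈ D := by
          by_contra h3
          exact he.2 ⟨fun h => absurd h h2, fun h => absurd h h3⟩
        exact hcross e he.1 _ h3 (Or.inr rfl)
    rw [Gph.mem_cut] at h1 ⊢
    exact ⟨he.1, h1.2⟩
  have hA3 := card_le_card hA2
  rw [hA1, card_empty, sum_congr rfl (fun v hv => degZ hk hZ (mem_filter.mp (hD ▸ hv)).1),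
    sum_const, smul_eq_mul] at hA
  omega

end GLQ
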