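import Pool.Agent.Helper18.GLR.Tools

/-!
# GLQ (helper49's unrooted graph lemma) in K-form, counting version

`K : Gph V E`, `N` the leg vertices (degree 2), `L = K.meet K.F N` the edges at leg vertices.
-/

namespace GLQ

open Finset GLR

set_option linter.unusedSectionVars false

variable {V E : Type*} [Fintype V] [DecidableEq V] [DecidableEq E]

/-- the vertices touched by an edge set (loops are invisible) -/
def vs (K : Gph V E) (Z : Finset E) : Finset V := univ.filter fun v => (K.cut Z {v}).Nonempty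

/-- the leg vertices whose group `{y, p, q}` meets `W` -/
def tch (K : Gph V E) (N W : Finset V) : Finset V :=
  N.filter fun y => (K.meet (K.cut K.F {y}) W).Nonempty

/-- `v` is a port: not a leg vertex, adjacent to a leg vertex -/
def Port (K : Gph V E) (N : Finset V) (v : V) : Prop :=
  v ∉ N ∧ (K.cut (K.meet K.F N) {v}).Nonempty

/-- hypotheses of GLQ -/
structure KF (K : Gph V E) (N : Finset V) : Prop where
  sA : ∀ e ∈ K.F, K.s e ∈ K.A
  tA : ∀ e ∈ K.F, K.t e ∈ K.A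
  ne : ∀ e ∈ K.F, K.s e ≠ K.t e
  NA : N ⊆ K.A
  two : 2 ≤ N.card
  degN : ∀ y ∈ N, (K.cut K.F {y}).card = 2
  ind : ∀ e ∈ K.F, ¬ (K.s e ∈ N ∧ K.t e ∈ N)
  port : ∀ v ∈ K.A, v ∉ N → (K.cut (K.meet K.F N) {v}).card ≤ 1
  deg : ∀ v ∈ K.A, v ∉ N → (K.cut K.F {v}).card ≤ 3
  con : ∀ U ⊆ K.A, (U ∩ N).Nonempty → (N \ U).Nonempty → (K.cut K.F U).Nonempty
  q : ∀ U ⊆ K.A, K.cut (K.meet K.F N) U = ∅ → (U ∩ N).card = 1 → 4 ≤ (K.cut K.F U).card

/-- tight sets -/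
structure Tight (K : Gph V E) (N U : Finset V) : Prop where
  sub : U ⊆ K.A
  closed : K.cut (K.meet K.F N) U = ∅
  one : (U ∩ N).card = 1
  four : (K.cut K.F U).card = 4

/-- edge-minimal -/
structure Mn (K : Gph V E) (N : Finset V) : Prop extends KF K N where
  nd : ∀ e ∈ K.F, e ∉ K.meet K.F N →
    (∃ U ⊆ K.A, (U ∩ N).Nonempty ∧ (N \ U).Nonempty ∧ K.cut K.F U = {e}) ∨
    (∃ U, Tight K N U ∧ e ∈ K.cut K.F U)

/-- the situation of the final step (all vertices of `K.A` non-isolated) -/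
structure Fi (K : Gph V E) (N : Finset V) : Prop where
  sA : ∀ e ∈ K.F, K.s e ∈ K.A
  tA : ∀ e ∈ K.F, K.t e ∈ K.A
  ne : ∀ e ∈ K.F, K.s e ≠ K.t e
  NA : N ⊆ K.A
  two : 2 ≤ N.card
  degN : ∀ y ∈ N, (K.cut K.F {y}).card = 2
  ind : ∀ e ∈ K.F, ¬ (K.s e ∈ N ∧ K.t e ∈ N)
  port : ∀ v ∈ K.A, v ∉ N → (K.cut (K.meet K.F N) {v}).card ≤ 1
  deg2 : ∀ v ∈ K.A, v ∉ N → 2 ≤ (K.cut K.F {v}).card
  deg3 : ∀ v ∈ K.A, v ∉ N → (K.cut K.F {v}).card ≤ 3
  degP : ∀ v ∈ K.A, Port K N v → (K.cut K.F {v}).card = 3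
  con : K.Conn K.F K.A
  circ : ∀ Z, K.Circ Z → 2 ≤ (tch K N (vs K Z)).card

/-- the conclusion -/
structure GoodK (K : Gph V E) (N : Finset V) (X : Finset E) (B : Finset V) : Prop where
  circ : K.Circ X
  BA : B ⊆ K.A
  con : K.Conn K.F B
  dis : Disjoint B (vs K X)
  one : (N ∩ vs K X).card ≤ 1
  all : ∀ y ∈ N, y ∉ vs K X → y ∈ B
  two : 2 ≤ (tch K N (vs K X)).card

end GLQ
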