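import Pool.Agent.Helper18.GLQ.Defs

/-! Part [E]: the final extremal argument. -/

namespace GLQ

open Finset GLR

set_option linter.unusedSectionVars false

variable {V E : Type*} [Fintype V] [DecidableEq V] [DecidableEq E]

namespace PE

theorem mem_cut1 {K : Gph V E} (hne : ∀ e ∈ K.F, K.s e ≠ K.t e) {X : Finset E} (hX : X ⊆ K.F)
    {v : V} {e : E} : e ∈ K.cut X {v} ↔ e ∈ X ∧ (K.s e = v ∨ K.t e = v) := by
  rw [K.mem_cut_singleton]
  constructor
  · rintro ⟨h1, h2⟩
    exact ⟨h1, by tauto⟩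
  · rintro ⟨h1, h2⟩
    have := hne e (hX h1)
    refine ⟨h1, ?_⟩
    rcases h2 with h2 | h2
    · left
      exact ⟨h2, fun h => this (h2.trans h.symm)⟩
    · right
      exact ⟨fun h => this (h.trans h2.symm), h2⟩

theorem mem_vs {K : Gph V E} (hne : ∀ e ∈ K.F, K.s e ≠ K.t e) {Z : Finset E} (hZ : Z ⊆ K.F)
    {v : V} : v ∈ vs K Z ↔ ∃ e ∈ Z, K.s e = v ∨ K.t e = v := by
  simp only [vs, mem_filter, mem_univ, true_and]
  constructor
  · rintro ⟨e, he⟩
    rw [mem_cut1 hne hZ] at he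
    exact ⟨e, he.1, he.2⟩
  · rintro ⟨e, he, h⟩
    exact ⟨e, (mem_cut1 hne hZ).mpr ⟨he, h⟩⟩

theorem vs_mono {K : Gph V E} {Z W : Finset E} (h : Z ⊆ W) : vs K Z ⊆ vs K W := by
  intro v hv
  simp only [vs, mem_filter, mem_univ, true_and] at hv ⊢
  exact hv.mono (K.cut_mono h _)

/-- an even set has at least two edges at each of its vertices -/
theorem two_le {K : Gph V E} {Z : Finset E} (hev : K.Ev Z) {v : V} (hv : v ∈ vs K Z) :
    2 ≤ (K.cut Z {v}).card := by
  simp only [vs, mem_filter, mem_univ, true_and] at hv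
  have h1 := card_pos.mpr hv
  rcases hev v with ⟨k, hk⟩
  omega

theorem conn_insert {K : Gph V E} {B : Finset V} (hB : K.Conn K.F B) {p b : V} {e : E}
    (he : e ∈ K.F) (hb : b ∈ B) (hp : p ∉ B)
    (h : (K.s e = p ∧ K.t e = b) ∨ (K.t e = p ∧ K.s e = b)) : K.Conn K.F (insert p B) := by
  intro Y hY hne hYB
  have hpb : b ≠ p := fun h => hp (h ▸ hb)
  by_cases hx : (p ∈ Y ↔ b ∈ Y)
  · have h1 : Y.erase p ⊆ B := by
      intro v hv
      rw [mem_erase] at hv
      have := hY hv.2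
      rw [mem_insert] at this
      exact this.resolve_left hv.1
    have h2 : (Y.erase p).Nonempty := by
      by_cases hpY : p ∈ Y
      · exact ⟨b, mem_erase.mpr ⟨hpb, hx.mp hpY⟩⟩
      · rw [erase_eq_of_notMem hpY]
        exact hne
    have h3 : Y.erase p ≠ B := by
      intro h3
      have hbY : b ∈ Y := by
        rw [← h3] at hb
        exact (mem_erase.mp hb).2
      apply hYB
      rw [← h3, insert_erase (hx.mpr hbY)]
    obtain ⟨f, hf⟩ := hB _ h1 h2 h3
    refine ⟨f, ?_⟩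
    simp only [Gph.cut, Gph.ins, mem_filter, mem_erase, mem_insert] at hf ⊢
    obtain ⟨⟨hfF, hs, ht⟩, hc⟩ := hf
    have hs' : K.s f ≠ p := fun h => hp (h ▸ hs)
    have ht' : K.t f ≠ p := fun h => hp (h ▸ ht)
    refine ⟨⟨hfF, Or.inr hs, Or.inr ht⟩, ?_⟩
    tauto
  · refine ⟨e, ?_⟩
    simp only [Gph.cut, Gph.ins, mem_filter, mem_insert]
    rcases h with ⟨h1, h2⟩ | ⟨h1, h2⟩
    · rw [h1, h2]
      refine ⟨⟨he, Or.inl rfl, Or.inr hb⟩, hx⟩
    · rw [h1, h2]
      refine ⟨⟨he, Or.inr hb, Or.inl rfl⟩, fun h => hx h.symm⟩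

/-- degrees without the edges at the leg vertices -/
theorem deg_sdiff {K : Gph V E} {N : Finset V} (h : Fi K N) {v : V} (hv : v ∈ K.A)
    (hN : v ∉ N) : 2 ≤ (K.cut K.F {v} \ K.cut (K.meet K.F N) {v}).card := by
  have h1 : K.cut (K.meet K.F N) {v} ⊆ K.cut K.F {v} := K.cut_mono (K.meet_subset _ _) _
  rw [card_sdiff_of_subset h1]
  have h2 := h.port v hv hN
  have h3 := h.deg2 v hv hN
  by_cases hp : (K.cut (K.meet K.F N) {v}).Nonempty
  · have := h.degP v hv ⟨hN, hp⟩
    omega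
  · rw [not_nonempty_iff_eq_empty] at hp
    rw [hp, card_empty]
    omega

/-- edges inside `S` when all degrees are at least two -/
theorem le_ins {K : Gph V E} {J : Finset E} {S D : Finset V} (hne : ∀ e ∈ J, K.s e ≠ K.t e)
    (hJ : ∀ e ∈ J, K.s e ∈ S ∧ K.t e ∈ S) (hD : D ⊆ S)
    (h1 : ∀ v ∈ D, 1 ≤ (K.cut J {v}).card)
    (h2 : ∀ v ∈ S, v ∉ D → 2 ≤ (K.cut J {v}).card) : 2 * S.card ≤ 2 * J.card + D.card := by
  have h3 := K.handshake hne S
  have h4 : K.ins J S = J := by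
    ext e
    rw [K.mem_ins]
    exact ⟨fun h => h.1, fun h => ⟨h, hJ e h⟩⟩
  have h5 : K.cut J S = ∅ := by
    rw [eq_empty_iff_forall_notMem]
    intro e he
    rw [K.mem_cut] at he
    have := hJ e he.1
    exact he.2 ⟨fun _ => this.2, fun _ => this.1⟩
  rw [h4, h5, card_empty, add_zero] at h3
  have h6 : ∑ v ∈ S, 2 ≤ ∑ v ∈ S, ((K.cut J {v}).card + if v ∈ D then 1 else 0) := by
    refine sum_le_sum fun v hv => ?_
    by_cases hvD : v ∈ D
    · have := h1 v hvD
      simp only [hvD, if_true]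
      omega
    · have := h2 v hv hvD
      simp only [hvD, if_false]
      omega
  rw [sum_const, sum_add_distrib, h3, smul_eq_mul, ← card_filter] at h6
  have h7 : (S.filter fun v => v ∈ D) = D := by
    ext v
    rw [mem_filter]
    exact ⟨fun h => h.2, fun h => ⟨hD h, h⟩⟩
  rw [h7] at h6
  omega

/-- there is a circuit off the leg vertices -/
theorem exists_X0 {K : Gph V E} {N : Finset V} (h : Fi K N) :
    ∃ X, K.Circ X ∧ N ∩ vs K X = ∅ := by
  set S := K.A \ N with hS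
  set J := K.ins K.F S with hJ
  have hJF : J ⊆ K.F := K.ins_subset _ _
  have hJS : ∀ e ∈ J, K.s e ∈ S ∧ K.t e ∈ S := fun e he => ((K.mem_ins).mp he).2
  have hdeg : ∀ v ∈ S, 2 ≤ (K.cut J {v}).card := by
    intro v hv
    rw [hS, mem_sdiff] at hv
    refine (deg_sdiff h hv.1 hv.2).trans (card_le_card ?_)
    intro e he
    rw [mem_sdiff, mem_cut1 h.ne (Subset.refl _), mem_cut1 h.ne (K.meet_subset _ _),
      K.mem_meet] at he
    rw [mem_cut1 h.ne hJF, hJ, K.mem_ins, hS, mem_sdiff, mem_sdiff]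
    have h1 := h.sA e he.1.1
    have h2 := h.tA e he.1.1
    tauto
  have h1 := le_ins (D := ∅) (fun e he => h.ne e (hJF he)) hJS (empty_subset _) (by simp)
    (fun v hv _ => hdeg v hv)
  rw [card_empty] at h1
  have hSn : S.Nonempty := by
    obtain ⟨y, hy⟩ := card_pos.mp (show 0 < N.card by have := h.two; omega)
    obtain ⟨e, he⟩ := card_pos.mp (show 0 < (K.cut K.F {y}).card by rw [h.degN y hy]; omega)
    rw [mem_cut1 h.ne (Subset.refl _)] at he
    have h3 := h.ind e he.1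
    rcases he.2 with h4 | h4
    · refine ⟨K.t e, ?_⟩
      rw [hS, mem_sdiff]
      refine ⟨h.tA e he.1, fun h5 => h3 ⟨h4 ▸ hy, h5⟩⟩
    · refine ⟨K.s e, ?_⟩
      rw [hS, mem_sdiff]
      refine ⟨h.sA e he.1, fun h5 => h3 ⟨h5, h4 ▸ hy⟩⟩
  obtain ⟨Z, hZ, hZn, hZe⟩ := K.exists_even hJS hSn (by omega)
  obtain ⟨X, hX, hXc⟩ := K.exists_circ (hZ.trans hJF) hZn hZe
  refine ⟨X, hXc, ?_⟩
  rw [eq_empty_iff_forall_notMem]
  intro v hv
  rw [mem_inter, mem_vs h.ne hXc.sub] at hv
  obtain ⟨hvN, e, he, hve⟩ := hv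
  have h2 := hJS e (hZ (hX he))
  rw [hS, mem_sdiff, mem_sdiff] at h2
  rcases hve with h3 | h3
  · exact h2.1.2 (h3 ▸ hvN)
  · exact h2.2.2 (h3 ▸ hvN)

/-- the pairs of the extremal argument -/
structure Pr (K : Gph V E) (N : Finset V) (X : Finset E) (B : Finset V) : Prop where
  circ : K.Circ X
  BA : B ⊆ K.A
  con : K.Conn K.F B
  dis : Disjoint B (vs K X)
  one : (N ∩ vs K X).card ≤ 1

/-- `p` is a foot -/
def Foot (K : Gph V E) (B : Finset V) (p : V) : Prop :=
  p ∈ K.A ∧ p ∉ B ∧ ∃ e ∈ K.F, (K.s e = p ∧ K.t e ∈ B) ∨ (K.t e = p ∧ K.s e ∈ B)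

theorem exists_max {K : Gph V E} {N : Finset V} (h : Fi K N) :
    ∃ X B, Pr K N X B ∧ B.Nonempty ∧ ∀ X' B', Pr K N X' B' → B'.card ≤ B.card := by
  classical
  obtain ⟨X0, hX0, hN⟩ := exists_X0 h
  obtain ⟨y, hy⟩ := card_pos.mp (show 0 < N.card by have := h.two; omega)
  have h0 : Pr K N X0 {y} := by
    refine ⟨hX0, by simpa using h.NA hy, ?_, ?_, by rw [hN]; simp⟩
    · intro Y hY hne hYB
      exfalso
      rcases subset_singleton_iff.mp hY with h1 | h1
      · rw [h1] at hne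
        exact absurd hne (by simp)
      · exact hYB h1
    · rw [disjoint_singleton_left]
      intro h1
      have : y ∈ N ∩ vs K X0 := mem_inter.mpr ⟨hy, h1⟩
      rw [hN] at this
      exact absurd this (by simp)
  let P : Finset (Finset V) := K.A.powerset.filter fun B => ∃ X, Pr K N X B
  have hP : P.Nonempty := ⟨{y}, by
    simp only [P, mem_filter, mem_powerset]
    exact ⟨h0.BA, X0, h0⟩⟩
  obtain ⟨B, hB, hmax⟩ := exists_max_image P card hP
  simp only [P, mem_filter, mem_powerset] at hB hmax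
  obtain ⟨hBA, X, hX⟩ := hB
  have hm : ∀ X' B', Pr K N X' B' → B'.card ≤ B.card := fun X' B' h' =>
    hmax B' ⟨h'.BA, X', h'⟩
  refine ⟨X, B, hX, ?_, hm⟩
  have := hm _ _ h0
  rw [card_singleton] at this
  exact card_pos.mp (by omega)

theorem foot_mem {K : Gph V E} {N : Finset V} {B : Finset V} (hBA : B ⊆ K.A)
    (hB : K.Conn K.F B) (hmax : ∀ X' B', Pr K N X' B' → B'.card ≤ B.card)
    {p : V} (hp : Foot K B p) {Z : Finset E} (hZ : Z ⊆ K.F) (hne : Z.Nonempty) (hev : K.Ev Z)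
    (hdis : Disjoint B (vs K Z)) (hone : (N ∩ vs K Z).card ≤ 1) : p ∈ vs K Z := by
  by_contra hpZ
  obtain ⟨X, hX, hXc⟩ := K.exists_circ hZ hne hev
  obtain ⟨hpA, hpB, e, he, h⟩ := hp
  have h1 : Pr K N X (insert p B) := by
    refine ⟨hXc, insert_subset hpA hBA, ?_, ?_, ?_⟩
    · rcases h with ⟨h1, h2⟩ | ⟨h1, h2⟩
      · exact conn_insert hB he h2 hpB (Or.inl ⟨h1, rfl⟩)
      · exact conn_insert hB he h2 hpB (Or.inr ⟨h1, rfl⟩)
    · rw [disjoint_insert_left]
      exact ⟨fun h => hpZ (vs_mono hX h), hdis.mono_right (vs_mono hX)⟩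
    · exact (card_le_card (inter_subset_inter_left (vs_mono hX))).trans hone
  have := hmax _ _ h1
  rw [card_insert_of_notMem hpB] at this
  omega

/-- structure of a foot -/
theorem foot_struct {K : Gph V E} {N : Finset V} {X : Finset E} {B : Finset V} (h : Fi K N)
    (hX : Pr K N X B) (hmax : ∀ X' B', Pr K N X' B' → B'.card ≤ B.card)
    {p : V} (hp : Foot K B p) : p ∉ N ∧ (K.cut X {p}).card = 2 ∧
      ∃ e0 ∈ K.F, (K.s e0 ∈ B ∨ K.t e0 ∈ B) ∧ K.cut K.F {p} = insert e0 (K.cut X {p}) := by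
  have h1 := foot_mem hX.BA hX.con hmax hp hX.circ.sub hX.circ.ne hX.circ.ev hX.dis hX.one
  have h2 := two_le hX.circ.ev h1
  obtain ⟨hpA, hpB, e0, he0, hee⟩ := hp
  have h3 : e0 ∉ X := by
    intro h3
    rcases hee with ⟨_, h4⟩ | ⟨_, h4⟩
    · exact disjoint_left.mp hX.dis h4 ((mem_vs h.ne hX.circ.sub).mpr ⟨e0, h3, Or.inr rfl⟩)
    · exact disjoint_left.mp hX.dis h4 ((mem_vs h.ne hX.circ.sub).mpr ⟨e0, h3, Or.inl rfl⟩)
  have h4 : insert e0 (K.cut X {p}) ⊆ K.cut K.F {p} := by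
    refine insert_subset ?_ (K.cut_mono hX.circ.sub _)
    rw [mem_cut1 h.ne (Subset.refl _)]
    exact ⟨he0, by tauto⟩
  have h5 : e0 ∉ K.cut X {p} := fun h => h3 (K.cut_subset _ _ h)
  have h6 := card_le_card h4
  rw [card_insert_of_notMem h5] at h6
  have hpN : p ∉ N := by
    intro hpN
    have := h.degN p hpN
    omega
  have h7 := h.deg3 p hpA hpN
  refine ⟨hpN, by omega, e0, he0, by tauto, (eq_of_subset_of_card_le h4 ?_).symm⟩
  rw [card_insert_of_notMem h5]
  omega

end PE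

open PE in
theorem Fi.good {K : Gph V E} {N : Finset V} (h : Fi K N) : ∃ X B, GoodK K N X B := by
  classical
  obtain ⟨X, B, hX, hBn, hmax⟩ := exists_max h
  refine ⟨X, B, hX.circ, hX.BA, hX.con, hX.dis, hX.one, ?_, h.circ X hX.circ⟩
  intro y hyN hyX
  by_contra hyB
  set S0 := (K.A \ B) \ N with hS0
  set J := K.ins K.F S0 with hJ
  have hm : ∀ v, v ∈ S0 ↔ (v ∈ K.A ∧ v ∉ B) ∧ v ∉ N := by
    intro v
    rw [hS0, mem_sdiff, mem_sdiff]
  have hJF : J ⊆ K.F := K.ins_subset _ _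
  have hJS : ∀ e ∈ J, K.s e ∈ S0 ∧ K.t e ∈ S0 := fun e he => ((K.mem_ins).mp he).2
  have hXF : X ⊆ K.F := hX.circ.sub
  have hXs : ∀ e ∈ X, K.s e ∈ vs K X := fun e he => (mem_vs h.ne hXF).mpr ⟨e, he, Or.inl rfl⟩
  have hXt : ∀ e ∈ X, K.t e ∈ vs K X := fun e he => (mem_vs h.ne hXF).mpr ⟨e, he, Or.inr rfl⟩
  have hXB : ∀ v ∈ vs K X, v ∉ B := fun v hv hb => disjoint_left.mp hX.dis hb hv
  have hJe : ∀ e ∈ K.F, K.s e ∉ B → K.t e ∉ B → K.s e ∉ N → K.t e ∉ N → e ∈ J := by
    intro e he h1 h2 h3 h4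
    rw [hJ, K.mem_ins, hm, hm]
    exact ⟨he, ⟨⟨h.sA e he, h1⟩, h3⟩, ⟨h.tA e he, h2⟩, h4⟩
  -- vertices which are not feet
  have hnf : ∀ v ∈ S0, ¬ Foot K B v → 2 ≤ (K.cut J {v}).card := by
    intro v hv hf
    rw [hm] at hv
    refine (deg_sdiff h hv.1.1 hv.2).trans (card_le_card ?_)
    intro e he
    rw [mem_sdiff, mem_cut1 h.ne (Subset.refl _), mem_cut1 h.ne (K.meet_subset _ _),
      K.mem_meet] at he
    rw [mem_cut1 h.ne hJF]
    refine ⟨?_, he.1.2⟩
    have h3 : K.s e ∉ N := by tauto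
    have h4 : K.t e ∉ N := by tauto
    rcases he.1.2 with h5 | h5
    · refine hJe e he.1.1 (h5 ▸ hv.1.2) ?_ h3 h4
      intro h6
      exact hf ⟨hv.1.1, hv.1.2, e, he.1.1, Or.inl ⟨h5, h6⟩⟩
    · refine hJe e he.1.1 ?_ (h5 ▸ hv.1.2) h3 h4
      intro h6
      exact hf ⟨hv.1.1, hv.1.2, e, he.1.1, Or.inr ⟨h5, h6⟩⟩
  -- feet
  have hXJ : ∀ v, ∀ e ∈ K.cut X {v}, e ∉ K.cut (K.meet K.F N) {v} → e ∈ K.cut J {v} := by
    intro v e he hn
    rw [mem_cut1 h.ne hXF] at he
    rw [mem_cut1 h.ne (K.meet_subset _ _), K.mem_meet] at hn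
    rw [mem_cut1 h.ne hJF]
    have h1 := hXF he.1
    refine ⟨hJe e h1 (hXB _ (hXs e he.1)) (hXB _ (hXt e he.1)) ?_ ?_, he.2⟩
    · tauto
    · tauto
  have hff : ∀ v, Foot K B v → (∀ e ∈ K.cut X {v}, e ∉ K.cut (K.meet K.F N) {v}) →
      2 ≤ (K.cut J {v}).card := by
    intro v hf hn
    rw [← (foot_struct h hX hmax hf).2.1]
    exact card_le_card fun e he => hXJ v e he (hn e he)
  have hf1 : ∀ v, Foot K B v → 1 ≤ (K.cut J {v}).card := by
    intro v hf
    obtain ⟨h1, h2, -⟩ := foot_struct h hX hmax hf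
    have h3 := h.port v hf.1 h1
    have h4 : K.cut X {v} \ K.cut (K.meet K.F N) {v} ⊆ K.cut J {v} := by
      intro e he
      rw [mem_sdiff] at he
      exact hXJ v e he.1 he.2
    have h5 := card_le_card h4
    have h6 := le_card_sdiff (K.cut (K.meet K.F N) {v}) (K.cut X {v})
    omega
  have hf2 : ∀ v, Foot K B v → (K.cut J {v}).card ≤ 2 := by
    intro v hf
    obtain ⟨h1, h2, e0, he0, h3, h4⟩ := foot_struct h hX hmax hf
    rw [← h2]
    refine card_le_card fun e he => ?_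
    have h5 := K.cut_mono hJF _ he
    rw [h4, mem_insert] at h5
    refine h5.resolve_left ?_
    intro h6
    have h7 := hJS e (K.cut_subset _ _ he)
    rw [hm, hm, h6] at h7
    tauto
  -- the exceptional vertices
  set D := S0.filter fun v => (K.cut J {v}).card < 2 with hD
  have hDf : ∀ v ∈ D, Foot K B v := by
    intro v hv
    rw [hD, mem_filter] at hv
    by_contra hf
    have := hnf v hv.1 hf
    omega
  have hDe : ∀ v ∈ D, ∃ e ∈ X, (K.s e = v ∧ K.t e ∈ N) ∨ (K.t e = v ∧ K.s e ∈ N) := by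
    intro v hv
    have hf := hDf v hv
    rw [hD, mem_filter, hm] at hv
    by_contra hcon
    have h1 : ∀ e ∈ K.cut X {v}, e ∉ K.cut (K.meet K.F N) {v} := by
      intro e he hn
      rw [mem_cut1 h.ne (K.meet_subset _ _), K.mem_meet] at hn
      have h2 := K.cut_subset _ _ he
      apply hcon
      refine ⟨e, h2, ?_⟩
      have hvN := hv.1.2
      rcases hn.2 with h3 | h3
      · have h4 : K.s e ∉ N := h3 ▸ hvN
        left
        exact ⟨h3, by tauto⟩
      · have h4 : K.t e ∉ N := h3 ▸ hvN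
        right
        exact ⟨h3, by tauto⟩
    have := hff v hf h1
    omega
  have hDc : D.card ≤ 2 := by
    rcases D.eq_empty_or_nonempty with h0 | ⟨v0, hv0⟩
    · rw [h0]
      simp
    obtain ⟨y0, hy0, hy0X⟩ : ∃ y0 ∈ N, y0 ∈ vs K X := by
      obtain ⟨e, he, h1 | h1⟩ := hDe v0 hv0
      · exact ⟨_, h1.2, hXt e he⟩
      · exact ⟨_, h1.2, hXs e he⟩
    have huniq : ∀ z ∈ N, z ∈ vs K X → z = y0 := by
      intro z hz hzX
      exact card_le_one.mp hX.one z (mem_inter.mpr ⟨hz, hzX⟩) y0 (mem_inter.mpr ⟨hy0, hy0X⟩)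
    have hsub : D ⊆ (K.cut K.F {y0}).image fun e => if K.s e = y0 then K.t e else K.s e := by
      intro v hv
      obtain ⟨e, he, h1⟩ := hDe v hv
      rw [mem_image]
      have hvN : v ∉ N := ((hm v).mp (mem_filter.mp hv).1).2
      have hvy : v ≠ y0 := fun h => hvN (h ▸ hy0)
      refine ⟨e, ?_, ?_⟩
      · rw [mem_cut1 h.ne (Subset.refl _)]
        refine ⟨hXF he, ?_⟩
        rcases h1 with h1 | h1
        · exact Or.inr (huniq _ h1.2 (hXt e he))
        · exact Or.inl (huniq _ h1.2 (hXs e he))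
      · rcases h1 with h1 | h1
        · have h2 : K.s e ≠ y0 := by rw [h1.1]; exact hvy
          rw [if_neg h2]
          exact h1.1
        · have h2 : K.s e = y0 := huniq _ h1.2 (hXs e he)
          rw [if_pos h2]
          exact h1.1
    have h3 := (card_le_card hsub).trans card_image_le
    rw [h.degN y0 hy0] at h3
    exact h3
  -- the count
  have hcount := le_ins (D := D) (fun e he => h.ne e (hJF he)) hJS (filter_subset _ _)
    (fun v hv => hf1 v (hDf v hv))
    (fun v hv hvD => by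
      rw [hD, mem_filter] at hvD
      by_contra h1
      exact hvD ⟨hv, by omega⟩)
  -- the main contradiction
  have hmain : ∀ p, Foot K B p → J.card + 2 < S0.card + (K.cut J {p}).card := by
    intro p hp
    by_contra hlt
    obtain ⟨hpN, hp2, e0, he0, he0B, hpc⟩ := foot_struct h hX hmax hp
    have hpS : p ∈ S0 := (hm p).mpr ⟨⟨hp.1, hp.2.1⟩, hpN⟩
    have hyS : y ∉ S0 := fun h => ((hm y).mp h).2 hyN
    have hyp : y ≠ p := fun h => hpN (h ▸ hyN)
    set S' := insert y (S0.erase p) with hS'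
    set Y' := K.ins K.F S' with hY'
    have hY'F : Y' ⊆ K.F := K.ins_subset _ _
    have hS'c : S'.card = S0.card := by
      rw [hS', card_insert_of_notMem (fun h => hyS (mem_of_mem_erase h)), card_erase_of_mem hpS]
      have := card_pos.mpr ⟨p, hpS⟩
      omega
    have hsub : (J \ K.cut J {p}) ∪ K.cut K.F {y} ⊆ Y' := by
      intro e he
      rw [mem_union, mem_sdiff, mem_cut1 h.ne hJF, mem_cut1 h.ne (Subset.refl _)] at he
      rw [hY', K.mem_ins, hS', mem_insert, mem_insert, mem_erase, mem_erase]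
      rcases he with he | he
      · have h1 := hJS e he.1
        refine ⟨hJF he.1, Or.inr ⟨?_, h1.1⟩, Or.inr ⟨?_, h1.2⟩⟩
        · intro h2
          exact he.2 ⟨he.1, Or.inl h2⟩
        · intro h2
          exact he.2 ⟨he.1, Or.inr h2⟩
      · -- an edge at `y`
        have h1 := h.ind e he.1
        have hy_foot : ¬ Foot K B y := by
          intro hf
          exact (foot_struct h hX hmax hf).1 hyN
        have heX : e ∉ X := by
          intro heX
          rcases he.2 with h2 | h2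
          · exact hyX (h2 ▸ hXs e heX)
          · exact hyX (h2 ▸ hXt e heX)
        have hep : ∀ (hh : K.s e = p ∨ K.t e = p), K.s e ∈ B ∨ K.t e ∈ B := by
          intro hh
          have h2 : e ∈ K.cut K.F {p} := (mem_cut1 h.ne (Subset.refl _)).mpr ⟨he.1, hh⟩
          rw [hpc, mem_insert] at h2
          rcases h2 with h2 | h2
          · rw [h2]
            exact he0B
          · exact absurd (K.cut_subset _ _ h2) heX
        rcases he.2 with h2 | h2
        · have h3 : K.t e ∉ B := fun h3 => hy_foot ⟨h.NA hyN, hyB, e, he.1, Or.inl ⟨h2, h3⟩⟩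
          have h4 : K.s e ∉ B := by rw [h2]; exact hyB
          refine ⟨he.1, Or.inl h2, Or.inr ⟨?_, ?_⟩⟩
          · intro h5
            rcases hep (Or.inr h5) with h6 | h6
            · exact h4 h6
            · exact h3 h6
          · rw [hm]
            refine ⟨⟨h.tA e he.1, h3⟩, fun h5 => h1 ⟨h2 ▸ hyN, h5⟩⟩
        · have h3 : K.s e ∉ B := fun h3 => hy_foot ⟨h.NA hyN, hyB, e, he.1, Or.inr ⟨h2, h3⟩⟩
          have h4 : K.t e ∉ B := by rw [h2]; exact hyB
          refine ⟨he.1, Or.inr ⟨?_, ?_⟩, Or.inl h2⟩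
          · intro h5
            rcases hep (Or.inl h5) with h6 | h6
            · exact h3 h6
            · exact h4 h6
          · rw [hm]
            refine ⟨⟨h.sA e he.1, h3⟩, fun h5 => h1 ⟨h5, h2 ▸ hyN⟩⟩
    have hdisj : Disjoint (J \ K.cut J {p}) (K.cut K.F {y}) := by
      rw [disjoint_left]
      intro e he he'
      rw [mem_cut1 h.ne (Subset.refl _)] at he'
      have h1 := hJS e (mem_sdiff.mp he).1
      rcases he'.2 with h2 | h2
      · exact hyS (h2 ▸ h1.1)
      · exact hyS (h2 ▸ h1.2)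
    have hcard : S'.card ≤ Y'.card := by
      have h1 := card_le_card hsub
      rw [card_union_of_disjoint hdisj, h.degN y hyN, card_sdiff_of_subset (K.cut_subset _ _)] at h1
      have h2 := card_le_card (K.cut_subset J {p})
      omega
    obtain ⟨Z, hZ, hZn, hZe⟩ := K.exists_even (S := S') (Y := Y')
      (fun e he => ((K.mem_ins).mp he).2) ⟨y, mem_insert_self _ _⟩ hcard
    have hZS : ∀ v ∈ vs K Z, v ∈ S' := by
      intro v hv
      rw [mem_vs h.ne (hZ.trans hY'F)] at hv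
      obtain ⟨e, he, h1⟩ := hv
      have h2 := ((K.mem_ins).mp (hZ he)).2
      rcases h1 with h1 | h1
      · exact h1 ▸ h2.1
      · exact h1 ▸ h2.2
    have hpZ := foot_mem hX.BA hX.con hmax hp (hZ.trans hY'F) hZn hZe
      (by
        rw [disjoint_left]
        intro v hv hvZ
        have h1 := hZS v hvZ
        rw [hS', mem_insert, mem_erase, hm] at h1
        rcases h1 with h1 | h1
        · exact hyB (h1 ▸ hv)
        · exact h1.2.1.2 hv)
      (by
        have h1 : N ∩ vs K Z ⊆ {y} := by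
          intro v hv
          rw [mem_inter] at hv
          have h1 := hZS v hv.2
          rw [hS', mem_insert, mem_erase, hm] at h1
          rw [mem_singleton]
          rcases h1 with h1 | h1
          · exact h1
          · exact absurd hv.1 h1.2.2
        have := card_le_card h1
        rwa [card_singleton] at this)
    have h1 := hZS p hpZ
    rw [hS', mem_insert, mem_erase] at h1
    rcases h1 with h1 | h1
    · exact hyp h1.symm
    · exact h1.1 rfl
  -- conclusion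
  rcases D.eq_empty_or_nonempty with h0 | ⟨v0, hv0⟩
  · rw [h0, card_empty] at hcount
    have hfoot : ∃ p, Foot K B p := by
      obtain ⟨e1, he1⟩ := hX.circ.ne
      have h1 : B ≠ K.A := by
        intro h1
        have h2 := h.sA e1 (hXF he1)
        rw [← h1] at h2
        exact hXB _ (hXs e1 he1) h2
      obtain ⟨e, he⟩ := h.con B hX.BA hBn h1
      rw [K.mem_cut, K.mem_ins] at he
      by_cases hs : K.s e ∈ B
      · have ht : K.t e ∉ B := fun ht => he.2 ⟨fun _ => ht, fun _ => hs⟩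
        exact ⟨K.t e, he.1.2.2, ht, e, he.1.1, Or.inr ⟨rfl, hs⟩⟩
      · have ht : K.t e ∈ B := by
          by_contra ht
          exact he.2 ⟨fun h => absurd h hs, fun h => absurd h ht⟩
        exact ⟨K.s e, he.1.2.1, hs, e, he.1.1, Or.inl ⟨rfl, ht⟩⟩
    obtain ⟨p, hp⟩ := hfoot
    have h1 := hmain p hp
    have h2 := hf2 p hp
    omega
  · have h1 := hmain v0 (hDf v0 hv0)
    have h2 : (K.cut J {v0}).card < 2 := (mem_filter.mp hv0).2
    omega

end GLQ
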