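import Pool.Agent.Helper18.GLQ.D
import Pool.Agent.Helper18.GLQ.E

/-! Assembly of GLQ. -/

namespace GLQ

open Finset GLR

set_option linter.unusedSectionVars false

variable {V E : Type*} [Fintype V] [DecidableEq V] [DecidableEq E]

/-- the final situation for an edge-minimal graph -/
theorem Mn.fi {K : Gph V E} {N : Finset V} (h : Mn K N) :
    Fi { K with A := K.A.filter fun v => (K.cut K.F {v}).Nonempty } N := by
  have hmem : ∀ e ∈ K.F, (K.cut K.F {K.s e}).Nonempty ∧ (K.cut K.F {K.t e}).Nonempty := by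
    intro e he
    have hne := h.ne e he
    refine ⟨⟨e, ?_⟩, ⟨e, ?_⟩⟩
    · rw [Gph.mem_cut_singleton]
      exact ⟨he, Or.inl ⟨rfl, fun h => hne h.symm⟩⟩
    · rw [Gph.mem_cut_singleton]
      exact ⟨he, Or.inr ⟨hne, rfl⟩⟩
  refine
    { sA := fun e he => mem_filter.mpr ⟨h.sA e he, (hmem e he).1⟩
      tA := fun e he => mem_filter.mpr ⟨h.tA e he, (hmem e he).2⟩
      ne := h.ne
      NA := ?_
      two := h.two
      degN := h.degN
      ind := h.ind
      port := fun v hv hN => h.port v (mem_filter.mp hv).1 hN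
      deg2 := ?_
      deg3 := fun v hv hN => h.deg v (mem_filter.mp hv).1 hN
      degP := fun v hv hp => h.toKF.port_deg hp (mem_filter.mp hv).1
      con := h.conn
      circ := fun Z hZ => h.circ (Z := Z) ⟨hZ.sub, hZ.ne, hZ.ev, hZ.min⟩ }
  · intro y hy
    refine mem_filter.mpr ⟨h.NA hy, ?_⟩
    rw [← card_pos]
    have := h.degN y hy
    show 0 < (K.cut K.F {y}).card
    omega
  · intro v hv hN
    rw [mem_filter] at hv
    have hpos := card_pos.mpr hv.2
    show 2 ≤ (K.cut K.F {v}).card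
    by_cases hp : Port K N v
    · have := h.toKF.port_deg hp hv.1
      omega
    · have := h.deg_ne_one hp hN hv.1
      omega

/-- **GLQ** in K-form. -/
theorem main {K : Gph V E} {N : Finset V} (h : KF K N) : ∃ X B, GoodK K N X B := by
  obtain ⟨F', hF', hL, hM⟩ := exists_min h
  obtain ⟨X, B, hg⟩ := hM.fi.good
  refine ⟨X, B, ?_⟩
  have hcut : ∀ Z U, Gph.cut { K with F := F', A := K.A.filter fun v =>
      (Gph.cut { K with F := F' } F' {v}).Nonempty } Z U = K.cut Z U := fun Z U => rfl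
  refine
    { circ := ⟨hg.circ.sub.trans hF', hg.circ.ne, hg.circ.ev, hg.circ.min⟩
      BA := hg.BA.trans (filter_subset _ _)
      con := ?_
      dis := hg.dis
      one := hg.one
      all := hg.all
      two := ?_ }
  · intro Y hY hne hneq
    obtain ⟨e, he⟩ := hg.con Y hY hne hneq
    refine ⟨e, ?_⟩
    have h1 := Gph.mem_cut _ |>.mp he
    have h2 := Gph.mem_ins _ |>.mp h1.1
    exact (Gph.mem_cut _).mpr ⟨(Gph.mem_ins _).mpr ⟨hF' h2.1, h2.2⟩, h1.2⟩
  · refine hg.two.trans (card_le_card ?_)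
    intro y hy
    rw [tch, mem_filter] at hy ⊢
    obtain ⟨hyN, e, he⟩ := hy
    refine ⟨hyN, e, ?_⟩
    have h1 := Gph.mem_meet _ |>.mp he
    have h2 := Gph.mem_cut _ |>.mp h1.1
    exact (Gph.mem_meet _).mpr ⟨(Gph.mem_cut _).mpr ⟨hF' h2.1, h2.2⟩, h1.2⟩

end GLQ
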