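import Pool.Agent.Helper18.GLR.Tools
import Pool.Agent.Helper18.GLQ.Defs
import Pool.Agent.Helper37.IE.Defs
import Pool.Agent.Helper89.GL.Cyc

/-! Translation between helper37's `ends : E → Sym2 V`, `K : Set V` and `Gph`. -/

namespace GLQ

open Finset GLR Pool.Agent.Helper49.CDC Pool.Agent.Helper37.IE
open scoped Classical

set_option linter.unusedSectionVars false

universe u v

variable {V : Type v} {E : Type u} [Fintype V] [Fintype E]

/-- the graph induced on `K` -/
noncomputable def gph (ends : E → Sym2 V) (K : Set V) : Gph V E where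
  s := fun e => (Quot.out (ends e)).1
  t := fun e => (Quot.out (ends e)).2
  A := univ.filter fun v => v ∈ K
  F := univ.filter fun e => e ∈ Inner ends K

theorem ends_gph (ends : E → Sym2 V) (K : Set V) (e : E) :
    ends e = s((gph ends K).s e, (gph ends K).t e) :=
  (Quot.out_eq (ends e)).symm

theorem mem_A (ends : E → Sym2 V) (K : Set V) (v : V) : v ∈ (gph ends K).A ↔ v ∈ K := by
  simp [gph]

theorem mem_F (ends : E → Sym2 V) (K : Set V) (e : E) :
    e ∈ (gph ends K).F ↔ (gph ends K).s e ∈ K ∧ (gph ends K).t e ∈ K := by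
  rw [← mem_inner_iff ends K e _ _ (ends_gph ends K e)]
  simp [gph]

theorem st_ne {ends : E → Sym2 V} (hl : ∀ e, ¬ (ends e).IsDiag) (K : Set V) (e : E) :
    (gph ends K).s e ≠ (gph ends K).t e := by
  have h := hl e
  rw [ends_gph ends K e] at h
  simpa using h

/-- edges joining `U` to `K \ U` -/
theorem mem_cut_iff {ends : E → Sym2 V} {K : Set V} {U : Finset V} (hU : (U : Set V) ⊆ K) (e : E) :
    e ∈ (gph ends K).cut (gph ends K).F U ↔ e ∈ Between ends (U : Set V) (K \ (U : Set V)) := by
  rw [Gph.mem_cut, mem_F, mem_between_iff ends _ _ e _ _ (ends_gph ends K e)]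
  simp only [Set.mem_sdiff, mem_coe]
  constructor
  · rintro ⟨⟨h1, h2⟩, h3⟩
    tauto
  · rintro (⟨h1, h2, h3⟩ | ⟨h1, h2, h3⟩)
    · exact ⟨⟨hU h1, h2⟩, by tauto⟩
    · exact ⟨⟨h2, hU h1⟩, by tauto⟩

/-- legs of `K` with an end in `U` -/
noncomputable def lgs (ends : E → Sym2 V) (K : Set V) (U : Finset V) : Finset E :=
  univ.filter fun e => e ∈ Legs ends K ∧ ∃ v ∈ ends e, v ∈ U

theorem legs_card {ends : E → Sym2 V} {K : Set V} {U : Finset V} (hU : (U : Set V) ⊆ K) :
    (Legs ends (U : Set V)).ncard =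
      ((gph ends K).cut (gph ends K).F U).card + (lgs ends K U).card := by
  have hd : Disjoint ((gph ends K).cut (gph ends K).F U) (lgs ends K U) := by
    rw [Finset.disjoint_left]
    intro e h1 h2
    rw [Gph.mem_cut] at h1
    simp only [lgs, mem_filter, mem_univ, true_and] at h2
    apply not_inner_of_legs ends K e h2.1
    have := h1.1
    simpa [gph] using this
  rw [← card_union_of_disjoint hd, ← Set.ncard_coe_finset]
  congr 1
  ext e
  have he := ends_gph ends K e
  rw [mem_legs_iff ends _ e _ _ he]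
  simp only [mem_coe]
  rw [mem_union, Gph.mem_cut, mem_F, lgs, mem_filter, mem_legs_iff ends _ e _ _ he]
  have h3 : (∃ v ∈ ends e, v ∈ U) ↔ ((gph ends K).s e ∈ U ∨ (gph ends K).t e ∈ U) := by
    constructor
    · rintro ⟨v, hv, hvU⟩
      rw [he, Sym2.mem_iff] at hv
      rcases hv with rfl | rfl
      · exact Or.inl hvU
      · exact Or.inr hvU
    · rintro (h | h)
      · exact ⟨_, by rw [he]; exact Sym2.mem_mk_left _ _, h⟩
      · exact ⟨_, by rw [he]; exact Sym2.mem_mk_right _ _, h⟩
  rw [h3]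
  simp only [mem_univ, true_and]
  have h1 : (gph ends K).s e ∈ U → (gph ends K).s e ∈ K := fun h => hU h
  have h2 : (gph ends K).t e ∈ U → (gph ends K).t e ∈ K := fun h => hU h
  tauto

/-- the leg vertices -/
noncomputable def lv (ends : E → Sym2 V) (K : Set V) : Finset V :=
  univ.filter fun v => v ∈ K ∧ (lgs ends K {v}).Nonempty

theorem mem_lgs_singleton {ends : E → Sym2 V} {K : Set V} {v : V} {e : E} :
    e ∈ lgs ends K {v} ↔ e ∈ Legs ends K ∧ v ∈ ends e := by
  simp only [lgs, mem_filter, mem_univ, true_and, mem_singleton]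
  constructor
  · rintro ⟨h1, w, hw, rfl⟩
    exact ⟨h1, hw⟩
  · rintro ⟨h1, h2⟩
    exact ⟨h1, v, h2, rfl⟩

/-- the star of a vertex of a cubic set -/
theorem star_card {ends : E → Sym2 V} (hl : ∀ e, ¬ (ends e).IsDiag) {K : Set V}
    (hcub : CubicOn ends K) {v : V} (hv : v ∈ K) :
    ((gph ends K).cut (gph ends K).F {v}).card + (lgs ends K {v}).card = 3 := by
  rw [← legs_card (by simpa using hv), ← hcub v hv, ← Set.ncard_coe_finset]
  congr 1
  ext e
  have he := ends_gph ends K e
  rw [mem_legs_iff ends _ e _ _ he]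
  have hne := st_ne hl K e
  simp only [coe_singleton, Set.mem_singleton_iff, coe_filter, mem_univ, true_and,
    Set.mem_ofPred_eq]
  rw [he, Sym2.mem_iff]
  constructor
  · rintro (⟨h1, h2⟩ | ⟨h1, h2⟩)
    · exact Or.inl h1.symm
    · exact Or.inr h2.symm
  · rintro (h | h)
    · exact Or.inl ⟨h.symm, fun h2 => hne (by rw [← h, h2])⟩
    · exact Or.inr ⟨fun h2 => hne (by rw [← h, h2]), h.symm⟩

/-- a circuit (minimal nonempty even set) is a cycle -/
theorem isCycle_of_circ {ends : E → Sym2 V} (hl : ∀ e, ¬ (ends e).IsDiag) {K : Set V}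
    {X : Finset E} (hX : (gph ends K).Circ X) : IsCycle ends (X : Set E) := by
  have hdeg : ∀ (Z : Finset E) (v : V),
      Pool.Agent.Helper89.GL.deg ends (Z : Set E) v = ((gph ends K).cut Z {v}).card := by
    intro Z v
    unfold Pool.Agent.Helper89.GL.deg
    rw [← Set.ncard_coe_finset]
    congr 1
    ext e
    have he := ends_gph ends K e
    have hne := st_ne hl K e
    rw [mem_coe, Gph.mem_cut_singleton, Set.mem_ofPred_eq, he, Sym2.mem_iff, mem_coe]
    constructor
    · rintro ⟨h1, h2 | h2⟩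
      · exact ⟨h1, Or.inl ⟨h2.symm, fun h3 => hne (by rw [← h2, h3])⟩⟩
      · exact ⟨h1, Or.inr ⟨fun h3 => hne (by rw [← h2, h3]), h2.symm⟩⟩
    · rintro ⟨h1, ⟨h2, _⟩ | ⟨_, h2⟩⟩
      · exact ⟨h1, Or.inl h2.symm⟩
      · exact ⟨h1, Or.inr h2.symm⟩
  obtain ⟨C, hC, hcyc⟩ := Pool.Agent.Helper89.GL.exists_cycle (ends := ends) hl
    (F := (X : Set E)) (by simpa using hX.ne) (by
      intro v h1
      rw [hdeg] at h1
      have := hX.ev v
      rw [h1] at this
      exact absurd this (by decide))
  have h1 : C.toFinset ⊆ X := by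
    intro e he
    rw [Set.mem_toFinset] at he
    exact hC he
  have h2 : (gph ends K).Ev C.toFinset := by
    intro v
    rw [← hdeg]
    simp only [Set.coe_toFinset]
    by_cases hv : v ∈ verts ends C
    · have h3 := cycle_two hcyc v hv
      have h4 : Pool.Agent.Helper89.GL.deg ends C v = 2 := by
        rw [← h3, ← Set.ncard_coe_finset]
        unfold Pool.Agent.Helper89.GL.deg
        congr 1
        ext e
        simp [and_comm]
      rw [h4]
      decide
    · have h4 : Pool.Agent.Helper89.GL.deg ends C v = 0 := by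
        unfold Pool.Agent.Helper89.GL.deg
        rw [Set.ncard_eq_zero]
        ext e
        simp only [Set.mem_ofPred_eq, Set.mem_empty_iff_false, iff_false, not_and]
        intro h5 h6
        exact hv ⟨e, h5, h6⟩
      rw [h4]
      decide
  have h3 : C.toFinset.Nonempty := by
    obtain ⟨n, vv, ee, hn, _, _, _, hr⟩ := hcyc
    exact ⟨ee 0, by rw [Set.mem_toFinset, ← hr]; exact ⟨0, rfl⟩⟩
  have h4 := hX.min _ h1 h2 h3
  rw [← h4]
  simpa using hcyc

/-- the vertices of a circuit -/
theorem verts_eq {ends : E → Sym2 V} (hl : ∀ e, ¬ (ends e).IsDiag) {K : Set V} (X : Finset E) :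
    verts ends (X : Set E) = (vs (gph ends K) X : Set V) := by
  ext v
  simp only [verts, Set.mem_ofPred_eq, vs, coe_filter, mem_univ, true_and, mem_coe]
  constructor
  · rintro ⟨e, he, hv⟩
    refine ⟨e, ?_⟩
    have hne := st_ne hl K e
    rw [ends_gph ends K e, Sym2.mem_iff] at hv
    rw [Gph.mem_cut_singleton]
    rcases hv with h | h
    · exact ⟨he, Or.inl ⟨h.symm, fun h3 => hne (by rw [← h, h3])⟩⟩
    · exact ⟨he, Or.inr ⟨fun h3 => hne (by rw [← h, h3]), h.symm⟩⟩
  · rintro ⟨e, he⟩
    rw [Gph.mem_cut_singleton] at he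
    refine ⟨e, he.1, ?_⟩
    rw [ends_gph ends K e, Sym2.mem_iff]
    rcases he.2 with h | h
    · exact Or.inl h.1.symm
    · exact Or.inr h.2.symm

end GLQ
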