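import Pool.Agent.Helper18.GLQ.Trans1
import Pool.Agent.Helper37.IE.St.Cases

/-! Translation, second part: the small configurations, or the hypotheses of GLQ. -/

namespace GLQ

open Finset GLR Pool.Agent.Helper49.CDC Pool.Agent.Helper37.IE
open scoped Classical

set_option linter.unusedSectionVars false

universe u v

variable {V : Type v} {E : Type u} [Fintype V] [Fintype E]

/-- edges of `F` joining `U` and `W` -/
noncomputable def btw (G : Gph V E) (U W : Finset V) : Finset E :=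
  G.F.filter fun e => (G.s e ∈ U ∧ G.t e ∈ W) ∨ (G.t e ∈ U ∧ G.s e ∈ W)

theorem mem_btw {G : Gph V E} {U W : Finset V} {e : E} :
    e ∈ btw G U W ↔ e ∈ G.F ∧ ((G.s e ∈ U ∧ G.t e ∈ W) ∨ (G.t e ∈ U ∧ G.s e ∈ W)) := by
  simp [btw]

theorem between_btw {ends : E → Sym2 V} {K : Set V} {U W : Finset V} (hU : (U : Set V) ⊆ K)
    (hW : (W : Set V) ⊆ K) :
    Between ends (U : Set V) (W : Set V) = (btw (gph ends K) U W : Set E) := by
  ext e
  rw [mem_between_iff ends _ _ e _ _ (ends_gph ends K e)]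
  simp only [mem_coe]
  rw [mem_btw, mem_F]
  constructor
  · rintro (⟨h1, h2⟩ | ⟨h1, h2⟩)
    · exact ⟨⟨hU h1, hW h2⟩, Or.inl ⟨h1, h2⟩⟩
    · exact ⟨⟨hW h2, hU h1⟩, Or.inr ⟨h1, h2⟩⟩
  · rintro ⟨_, h | h⟩
    · exact Or.inl h
    · exact Or.inr h

/-- the cut of `U` splits according to a partition of the rest -/
theorem card_cut_btw {G : Gph V E} (hs : ∀ e ∈ G.F, G.s e ∈ G.A) (ht : ∀ e ∈ G.F, G.t e ∈ G.A)
    {U W1 W2 : Finset V} (hA : G.A = U ∪ W1 ∪ W2) (h1 : Disjoint U W1) (h2 : Disjoint U W2)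
    (h12 : Disjoint W1 W2) :
    (G.cut G.F U).card = (btw G U W1).card + (btw G U W2).card := by
  have hd : Disjoint (btw G U W1) (btw G U W2) := by
    rw [Finset.disjoint_left]
    intro e he he'
    rw [mem_btw] at he he'
    rw [Finset.disjoint_left] at h1 h2 h12
    rcases he.2 with h | h <;> rcases he'.2 with h' | h'
    · exact h12 h.2 h'.2
    · exact h1 h'.1 h.2
    · exact h1 h'.1 h.2
    · exact h12 h.2 h'.2
  rw [← card_union_of_disjoint hd]
  congr 1
  ext e
  rw [Gph.mem_cut, mem_union, mem_btw, mem_btw]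
  rw [Finset.disjoint_left] at h1 h2 h12
  constructor
  · rintro ⟨he, hx⟩
    have ha := hs e he
    have hb := ht e he
    rw [hA] at ha hb
    simp only [mem_union] at ha hb
    tauto
  · rintro (⟨he, h⟩ | ⟨he, h⟩)
    · refine ⟨he, ?_⟩
      rcases h with h | h
      · have := h1 (a := G.t e)
        tauto
      · have := h1 (a := G.s e)
        tauto
    · refine ⟨he, ?_⟩
      rcases h with h | h
      · have := h2 (a := G.t e)
        tauto
      · have := h2 (a := G.s e)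
        tauto

theorem conn_iff {ends : E → Sym2 V} {K : Set V} {U : Finset V} (hU : (U : Set V) ⊆ K) :
    Conn ends (U : Set V) ↔ (gph ends K).Conn (gph ends K).F U := by
  constructor
  · intro h Y hY hne hneq
    obtain ⟨e, he⟩ := h (Y : Set V) (by exact_mod_cast hY) (by exact_mod_cast hne)
      (by exact_mod_cast hneq)
    refine ⟨e, ?_⟩
    rw [mem_between_iff ends _ _ e _ _ (ends_gph ends K e)] at he
    rw [Gph.mem_cut, Gph.mem_ins, mem_F]
    simp only [Set.mem_sdiff, mem_coe] at he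
    rcases he with ⟨h1, h2, h3⟩ | ⟨h1, h2, h3⟩
    · exact ⟨⟨⟨hU (hY h1), hU h2⟩, hY h1, h2⟩, by tauto⟩
    · exact ⟨⟨⟨hU h2, hU (hY h1)⟩, h2, hY h1⟩, by tauto⟩
  · intro h S hS hne hneq
    obtain ⟨e, he⟩ := h S.toFinset (by
        intro x hx
        rw [Set.mem_toFinset] at hx
        exact_mod_cast hS hx) (by simpa using hne) (by
        intro h2
        apply hneq
        rw [← h2]
        simp)
    refine ⟨e, ?_⟩
    rw [mem_between_iff ends _ _ e _ _ (ends_gph ends K e)]
    rw [Gph.mem_cut, Gph.mem_ins] at he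
    simp only [Set.mem_toFinset] at he
    simp only [Set.mem_sdiff, mem_coe]
    tauto

/-- a side of a cut with at most one edge is connected -/
theorem conn_side {G : Gph V E} (hs : ∀ e ∈ G.F, G.s e ∈ G.A) (ht : ∀ e ∈ G.F, G.t e ∈ G.A)
    (hc : ∀ U ⊆ G.A, U.Nonempty → U ≠ G.A → (G.cut G.F U).Nonempty)
    {U : Finset V} (hU : U ⊆ G.A) (h1 : (G.cut G.F U).card ≤ 1) :
    G.Conn G.F U := by
  intro T hT hne hneq
  by_contra hcon
  rw [not_nonempty_iff_eq_empty] at hcon
  have hno : ∀ e ∈ G.F, ¬ ((G.s e ∈ T ∧ G.t e ∈ U ∧ G.t e ∉ T) ∨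
      (G.t e ∈ T ∧ G.s e ∈ U ∧ G.s e ∉ T)) := by
    intro e he h
    have : e ∈ G.cut (G.ins G.F U) T := by
      rw [Gph.mem_cut, Gph.mem_ins]
      rcases h with h | h
      · exact ⟨⟨he, hT h.1, h.2.1⟩, by tauto⟩
      · exact ⟨⟨he, h.2.1, hT h.1⟩, by tauto⟩
    rw [hcon] at this
    exact absurd this (notMem_empty _)
  have hTU : (U \ T).Nonempty := by
    rw [nonempty_iff_ne_empty]
    intro h
    rw [sdiff_eq_empty_iff_subset] at h
    exact hneq (Subset.antisymm hT h)
  have hTA : T ≠ G.A := by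
    intro h
    apply hneq
    exact Subset.antisymm hT (by rw [h]; exact hU)
  have hTA' : U \ T ≠ G.A := by
    intro h
    obtain ⟨x, hx⟩ := hne
    have : x ∈ U \ T := by rw [h]; exact hU (hT hx)
    exact (mem_sdiff.mp this).2 hx
  obtain ⟨e1, he1⟩ := hc T (hT.trans hU) hne hTA
  obtain ⟨e2, he2⟩ := hc (U \ T) (sdiff_subset.trans hU) hTU hTA'
  rw [Gph.mem_cut] at he1 he2
  simp only [mem_sdiff] at he2
  have hn1 := hno e1 he1.1
  have hn2 := hno e2 he2.1
  have hT' : ∀ x, x ∈ T → x ∈ U := fun x hx => hT hx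
  have b1 := hT' (G.s e1)
  have b2 := hT' (G.t e1)
  have b3 := hT' (G.s e2)
  have b4 := hT' (G.t e2)
  clear hT' hno hTA hTA' hTU hneq
  have a1 : e1 ∈ G.cut G.F U := by
    rw [Gph.mem_cut]
    refine ⟨he1.1, ?_⟩
    clear b3 b4 hn2 he2
    grind
  have a2 : e2 ∈ G.cut G.F U := by
    rw [Gph.mem_cut]
    refine ⟨he2.1, ?_⟩
    clear b1 b2 hn1 he1 a1
    grind
  have heq : e1 = e2 := card_le_one.mp h1 _ a1 _ a2
  subst heq
  grind

/-- a set with few outgoing edges is connected if there is no bridge -/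
theorem conn_of_few {G : Gph V E}
    (hc : ∀ U ⊆ G.A, U.Nonempty → U ≠ G.A → 2 ≤ (G.cut G.F U).card)
    {U : Finset V} (hU : U ⊆ G.A) (hU' : U ≠ G.A) (h1 : (G.cut G.F U).card ≤ 3) :
    G.Conn G.F U := by
  intro T hT hne hneq
  by_contra hcon
  rw [not_nonempty_iff_eq_empty] at hcon
  have hno : ∀ e ∈ G.F, ¬ ((G.s e ∈ T ∧ G.t e ∈ U ∧ G.t e ∉ T) ∨
      (G.t e ∈ T ∧ G.s e ∈ U ∧ G.s e ∉ T)) := by
    intro e he h
    have : e ∈ G.cut (G.ins G.F U) T := by
      rw [Gph.mem_cut, Gph.mem_ins]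
      rcases h with h | h
      · exact ⟨⟨he, hT h.1, h.2.1⟩, by tauto⟩
      · exact ⟨⟨he, h.2.1, hT h.1⟩, by tauto⟩
    rw [hcon] at this
    exact absurd this (notMem_empty _)
  have hTU : (U \ T).Nonempty := by
    rw [nonempty_iff_ne_empty]
    intro h
    rw [sdiff_eq_empty_iff_subset] at h
    exact hneq (Subset.antisymm hT h)
  have hTA : T ≠ G.A := by
    intro h
    apply hneq
    exact Subset.antisymm hT (by rw [h]; exact hU)
  have hTA' : U \ T ≠ G.A := by
    intro h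
    obtain ⟨x, hx⟩ := hne
    have : x ∈ U \ T := by rw [h]; exact hU (hT hx)
    exact (mem_sdiff.mp this).2 hx
  have c1 := hc T (hT.trans hU) hne hTA
  have c2 := hc (U \ T) (sdiff_subset.trans hU) hTU hTA'
  have hT' : ∀ x, x ∈ T → x ∈ U := fun x hx => hT hx
  have hd : Disjoint (G.cut G.F T) (G.cut G.F (U \ T)) := by
    rw [Finset.disjoint_left]
    intro e he1 he2
    rw [Gph.mem_cut] at he1 he2
    simp only [mem_sdiff] at he2
    have hn1 := hno e he1.1
    have := hT' (G.s e)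
    have := hT' (G.t e)
    tauto
  have hsub : G.cut G.F T ∪ G.cut G.F (U \ T) ⊆ G.cut G.F U := by
    intro e he
    rw [mem_union, Gph.mem_cut, Gph.mem_cut] at he
    simp only [mem_sdiff] at he
    rw [Gph.mem_cut]
    have a1 := hT' (G.s e)
    have a2 := hT' (G.t e)
    rcases he with he | he
    · have hn1 := hno e he.1
      refine ⟨he.1, ?_⟩
      tauto
    · have hn1 := hno e he.1
      refine ⟨he.1, ?_⟩
      tauto
  have := card_le_card hsub
  rw [card_union_of_disjoint hd] at this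
  omega

end GLQ
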