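import Pool.Agent.Helper18.GLQ.Trans2

/-! Translation, third part: the small configurations. -/

namespace GLQ

open Finset GLR Pool.Agent.Helper49.CDC Pool.Agent.Helper37.IE
open scoped Classical

set_option linter.unusedSectionVars false

universe u v

variable {V : Type v} {E : Type u} [Fintype V] [Fintype E]

/-- the standing assumptions, in the language of `Gph` -/
structure Ctx (ends : E → Sym2 V) (K : Set V) : Prop where
  hl : ∀ e, ¬ (ends e).IsDiag
  cub : CubicOn ends K
  conn : Conn ends K
  cut : CutOK ends K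

namespace Ctx

variable {ends : E → Sym2 V} {K : Set V}

theorem sub (U : Finset V) : U ⊆ (gph ends K).A ↔ (U : Set V) ⊆ K := by
  constructor
  · intro h x hx
    exact (mem_A ends K x).mp (h hx)
  · intro h x hx
    exact (mem_A ends K x).mpr (h hx)

theorem coeA : ((gph ends K).A : Set V) = K := by
  ext x
  rw [mem_coe, mem_A]

theorem hs : ∀ e ∈ (gph ends K).F, (gph ends K).s e ∈ (gph ends K).A := by
  intro e he
  rw [mem_F] at he
  rw [mem_A]
  exact he.1

theorem ht : ∀ e ∈ (gph ends K).F, (gph ends K).t e ∈ (gph ends K).A := by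
  intro e he
  rw [mem_F] at he
  rw [mem_A]
  exact he.2

theorem hcut (h : Ctx ends K) : ∀ U ⊆ (gph ends K).A, U.Nonempty → U ≠ (gph ends K).A →
    ((gph ends K).cut (gph ends K).F U).Nonempty := by
  intro U hU hne hneq
  obtain ⟨e, he⟩ := h.conn (U : Set V) ((sub U).mp hU) (by exact_mod_cast hne) (by
    intro h2
    apply hneq
    rw [← Finset.coe_inj, h2, coeA])
  exact ⟨e, (mem_cut_iff ((sub U).mp hU) e).mpr he⟩

theorem star (h : Ctx ends K) {v : V} (hv : v ∈ (gph ends K).A) :
    ((gph ends K).cut (gph ends K).F {v}).card + (lgs ends K {v}).card = 3 :=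
  star_card h.hl h.cub ((mem_A ends K v).mp hv)

theorem four (h : Ctx ends K) {U : Finset V} (hU : U ⊆ (gph ends K).A) (h2 : 2 ≤ U.card) :
    4 ≤ ((gph ends K).cut (gph ends K).F U).card + (lgs ends K U).card := by
  rw [← legs_card ((sub U).mp hU)]
  exact h.cut.1 _ ((sub U).mp hU) (by rw [Set.ncard_coe_finset]; exact h2)

theorem five (h : Ctx ends K) {U : Finset V} (hU : U ⊆ (gph ends K).A)
    (hne : U ≠ (gph ends K).A) (h2 : 3 ≤ U.card) :
    5 ≤ ((gph ends K).cut (gph ends K).F U).card + (lgs ends K U).card := by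
  rw [← legs_card ((sub U).mp hU)]
  refine h.cut.2 _ ((sub U).mp hU) ?_ (by rw [Set.ncard_coe_finset]; exact h2)
  intro h3
  apply hne
  rw [← Finset.coe_inj, h3, coeA]

/-- the legs at a set are the legs at its vertices -/
theorem lgs_card {U : Finset V} (hU : U ⊆ (gph ends K).A) :
    (lgs ends K U).card = ∑ v ∈ U, (lgs ends K {v}).card := by
  rw [← card_biUnion]
  · congr 1
    ext e
    simp only [mem_biUnion, mem_lgs_singleton]
    simp only [lgs, mem_filter, mem_univ, true_and]
    constructor
    · rintro ⟨h1, v, hv, hvU⟩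
      exact ⟨v, hvU, h1, hv⟩
    · rintro ⟨v, hvU, h1, hv⟩
      exact ⟨h1, v, hv, hvU⟩
  · intro a ha b hb hab
    rw [Function.onFun, Finset.disjoint_left]
    intro e h1 h2
    rw [mem_lgs_singleton] at h1 h2
    have h3 := (mem_legs_iff ends K e _ _ (ends_gph ends K e)).mp h1.1
    have ha' := (mem_A ends K a).mp (hU ha)
    have hb' := (mem_A ends K b).mp (hU hb)
    have h4 := h1.2
    have h5 := h2.2
    rw [ends_gph ends K e, Sym2.mem_iff] at h4 h5
    rcases h3 with h3 | h3 <;> rcases h4 with h4 | h4 <;> rcases h5 with h5 | h5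
    · exact hab (h4.trans h5.symm)
    · rw [h5] at hb'; exact h3.2 hb'
    · rw [h4] at ha'; exact h3.2 ha'
    · exact hab (h4.trans h5.symm)
    · exact hab (h4.trans h5.symm)
    · rw [h4] at ha'; exact h3.1 ha'
    · rw [h5] at hb'; exact h3.1 hb'
    · exact hab (h4.trans h5.symm)

/-- second alternative -/
theorem alt2 (h : Ctx ends K) {U : Finset V} (hU : U ⊆ (gph ends K).A) (hne : U.Nonempty)
    (hneq : U ≠ (gph ends K).A) (h1 : ((gph ends K).cut (gph ends K).F U).card ≤ 1) :
    Config ends K := by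
  right; left
  have hU' : (U : Set V) ⊆ K := (sub U).mp hU
  have hW : (gph ends K).A \ U ⊆ (gph ends K).A := sdiff_subset
  have hW' : (((gph ends K).A \ U : Finset V) : Set V) = K \ (U : Set V) := by
    rw [coe_sdiff, coeA]
  refine ⟨(U : Set V), K \ (U : Set V), ?_, ?_, by exact_mod_cast hne, ?_, ?_, ?_, ?_⟩
  · rw [Set.union_sdiff_cancel hU']
  · exact Set.disjoint_sdiff_right
  · rw [← hW']
    have : ((gph ends K).A \ U).Nonempty := by
      rw [nonempty_iff_ne_empty]
      intro h2
      rw [sdiff_eq_empty_iff_subset] at h2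
      exact hneq (Subset.antisymm hU h2)
    exact_mod_cast this
  · rw [conn_iff hU']
    exact conn_side hs ht h.hcut hU h1
  · rw [← hW', conn_iff ((sub _).mp hW)]
    apply conn_side hs ht h.hcut hW
    rw [Gph.cut_compl _ hs ht (Subset.refl _)]
    exact h1
  · obtain ⟨f, hf⟩ := h.hcut U hU hne hneq
    refine ⟨f, ?_⟩
    ext e
    rw [← mem_cut_iff hU' e, Set.mem_singleton_iff]
    constructor
    · intro he
      exact card_le_one.mp h1 _ he _ hf
    · rintro rfl
      exact hf

/-- no bridge -/
def NB (ends : E → Sym2 V) (K : Set V) : Prop :=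
  ∀ U ⊆ (gph ends K).A, U.Nonempty → U ≠ (gph ends K).A →
    2 ≤ ((gph ends K).cut (gph ends K).F U).card

theorem NB.conn (h : NB ends K) {U : Finset V} (hU : U ⊆ (gph ends K).A)
    (hU' : U ≠ (gph ends K).A) (h1 : ((gph ends K).cut (gph ends K).F U).card ≤ 3) :
    Conn ends (U : Set V) := by
  rw [conn_iff ((sub U).mp hU)]
  exact conn_of_few h hU hU' h1

end Ctx

theorem card_btw_union {G : Gph V E} {U W1 W2 : Finset V} (h1 : Disjoint U W1)
    (h2 : Disjoint U W2) (h12 : Disjoint W1 W2) :
    (btw G U (W1 ∪ W2)).card = (btw G U W1).card + (btw G U W2).card := by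
  have hd : Disjoint (btw G U W1) (btw G U W2) := by
    rw [Finset.disjoint_left]
    intro e he he'
    rw [mem_btw] at he he'
    rw [Finset.disjoint_left] at h1 h2 h12
    rcases he.2 with h | h <;> rcases he'.2 with h' | h'
    · exact h12 h.2 h'.2
    · exact h1 h'.1 h.2
    · exact h1 h'.1 h.2
    · exact h12 h.2 h'.2
  rw [← card_union_of_disjoint hd]
  congr 1
  ext e
  rw [mem_union, mem_btw, mem_btw, mem_btw, mem_union, mem_union]
  tauto

theorem btw_comm (G : Gph V E) (U W : Finset V) : btw G U W = btw G W U := by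
  ext e
  rw [mem_btw, mem_btw]
  tauto

end GLQ
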