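import Pool.Agent.Helper18.GLQ.Trans3

/-! Translation, fourth part: the third and fourth alternatives, and `KF` otherwise. -/

namespace GLQ

open Finset GLR Pool.Agent.Helper49.CDC Pool.Agent.Helper37.IE
open scoped Classical

set_option linter.unusedSectionVars false

universe u v

variable {V : Type v} {E : Type u} [Fintype V] [Fintype E]

namespace Ctx

variable {ends : E → Sym2 V} {K : Set V}

theorem ne (h : Ctx ends K) : ∀ e ∈ (gph ends K).F, (gph ends K).s e ≠ (gph ends K).t e :=
  fun e _ => st_ne h.hl K e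

theorem mem_lv {v : V} : v ∈ lv ends K ↔ v ∈ (gph ends K).A ∧ (lgs ends K {v}).Nonempty := by
  simp only [lv, mem_filter, mem_univ, true_and, mem_A]

/-- degrees in the induced graph -/
theorem deg_lv (h : Ctx ends K) (hnb : NB ends K) (h2 : 2 ≤ (gph ends K).A.card) {v : V}
    (hv : v ∈ (gph ends K).A) :
    ((gph ends K).cut (gph ends K).F {v}).card = (if v ∈ lv ends K then 2 else 3) ∧
    (lgs ends K {v}).card = (if v ∈ lv ends K then 1 else 0) := by
  have h1 := h.star hv
  have h3 := hnb {v} (by simpa using hv) (by simp) (by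
    intro h3
    rw [← h3] at h2
    simp at h2)
  by_cases hl : v ∈ lv ends K
  · have h4 := card_pos.mpr (mem_lv.mp hl).2
    simp only [hl, if_true]
    omega
  · have h4 : (lgs ends K {v}).card = 0 := by
      rw [card_eq_zero, ← not_nonempty_iff_eq_empty]
      intro h5
      exact hl (mem_lv.mpr ⟨hv, h5⟩)
    simp only [hl, if_false]
    omega

/-- the pieces of a small set -/
theorem single_btw {u v : V} {e : E} (h : e ∈ (gph ends K).F)
    (huv : ((gph ends K).s e = u ∧ (gph ends K).t e = v) ∨
      ((gph ends K).s e = v ∧ (gph ends K).t e = u)) : e ∈ btw (gph ends K) {u} {v} := by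
  rw [mem_btw]
  simp only [mem_singleton]
  exact ⟨h, by tauto⟩

theorem coe_btw {U W : Finset V} (hU : U ⊆ (gph ends K).A) (hW : W ⊆ (gph ends K).A)
    (hc : (btw (gph ends K) U W).card = 1) : ∃ f, Between ends (U : Set V) (W : Set V) = {f} := by
  obtain ⟨f, hf⟩ := card_eq_one.mp hc
  refine ⟨f, ?_⟩
  rw [between_btw ((sub U).mp hU) ((sub W).mp hW), hf]
  simp

theorem Between_single {u v : V} (hu : u ∈ (gph ends K).A) (hv : v ∈ (gph ends K).A)
    (hc : (btw (gph ends K) {u} {v}).card = 1) : ∃ f, Between ends {u} {v} = {f} := by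
  have := coe_btw (ends := ends) (K := K) (U := {u}) (W := {v}) (by simpa using hu)
    (by simpa using hv) hc
  simpa using this

/-- third alternative -/
theorem alt3 (h : Ctx ends K) (hnb : NB ends K) (h2 : 2 ≤ (gph ends K).A.card) {u v : V}
    (hu : u ∈ lv ends K) (hv : v ∈ lv ends K) (huv : u ≠ v)
    (he : (btw (gph ends K) {u} {v}).Nonempty) : Config ends K := by
  have huA : u ∈ (gph ends K).A := (mem_lv.mp hu).1
  have hvA : v ∈ (gph ends K).A := (mem_lv.mp hv).1
  obtain ⟨du, lu⟩ := h.deg_lv hnb h2 huA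
  obtain ⟨dv, lvv⟩ := h.deg_lv hnb h2 hvA
  simp only [hu, hv, if_true] at du lu dv lvv
  have hS : ({u, v} : Finset V) ⊆ (gph ends K).A := by
    intro x hx
    rw [mem_insert, mem_singleton] at hx
    rcases hx with rfl | rfl
    · exact huA
    · exact hvA
  have hlegs : (lgs ends K {u, v}).card = 2 := by
    rw [lgs_card hS, sum_pair huv, lu, lvv]
  have h4 := h.four hS (by rw [card_pair huv])
  have hhs := (gph ends K).handshake (X := (gph ends K).F) h.ne {u, v}
  rw [sum_pair huv, du, dv] at hhs
  have hins : btw (gph ends K) {u} {v} ⊆ (gph ends K).ins (gph ends K).F {u, v} := by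
    intro e he
    rw [mem_btw] at he
    simp only [mem_singleton] at he
    rw [Gph.mem_ins]
    simp only [mem_insert, mem_singleton]
    exact ⟨he.1, by tauto⟩
  have hb1 : 0 < (btw (gph ends K) {u} {v}).card := card_pos.mpr he
  have hb2 := card_le_card hins
  have hb : (btw (gph ends K) {u} {v}).card = 1 := by omega
  have hcut : ((gph ends K).cut (gph ends K).F {u, v}).card = 2 := by omega
  set W := (gph ends K).A \ {u, v} with hW
  have hWA : W ⊆ (gph ends K).A := sdiff_subset
  have huW : u ∉ W := by simp [hW]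
  have hvW : v ∉ W := by simp [hW]
  have hAu : (gph ends K).A = {u} ∪ {v} ∪ W := by
    ext x
    simp only [hW, mem_union, mem_singleton, mem_sdiff, mem_insert]
    constructor
    · intro hx
      tauto
    · rintro ((rfl | rfl) | hx)
      · exact huA
      · exact hvA
      · exact hx.1
  have hAv : (gph ends K).A = {v} ∪ {u} ∪ W := by
    rw [hAu, union_comm {u} {v}]
  have c1 := card_cut_btw (G := gph ends K) hs ht hAu (by simpa using huv) (by simpa using huW)
    (by simpa using hvW)
  have c2 := card_cut_btw (G := gph ends K) hs ht hAv (by simpa using huv.symm) (by simpa using hvW)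
    (by simpa using huW)
  rw [btw_comm (gph ends K) {v} {u}] at c2
  have b1 : (btw (gph ends K) W {u}).card = 1 := by
    rw [btw_comm]; omega
  have b2 : (btw (gph ends K) W {v}).card = 1 := by
    rw [btw_comm]; omega
  obtain ⟨e0, he0⟩ := Between_single huA hvA hb
  obtain ⟨a, ha⟩ := coe_btw (ends := ends) (K := K) hWA (by simpa using huA) b1
  obtain ⟨c, hc⟩ := coe_btw (ends := ends) (K := K) hWA (by simpa using hvA) b2
  right; right; left
  refine ⟨(W : Set V), u, v, e0, a, c, ?_, by simpa using huW, by simpa using hvW, huv, ?_, ?_,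
    he0, by simpa using ha, by simpa using hc⟩
  · ext x
    rw [← mem_A ends K x, hAu]
    simp only [mem_union, mem_singleton, Set.mem_union, mem_coe, Set.mem_singleton_iff]
    tauto
  · obtain ⟨f, hf⟩ := card_pos.mp (by omega : 0 < (btw (gph ends K) W {u}).card)
    rw [mem_btw] at hf
    rcases hf.2 with hf | hf
    · exact ⟨_, hf.1⟩
    · exact ⟨_, hf.1⟩
  · apply NB.conn hnb hWA
    · intro h3
      apply huW
      rw [h3]
      exact huA
    · rw [hW, Gph.cut_compl _ hs ht (Subset.refl _)]
      omega

/-- fourth alternative -/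
theorem alt4 (h : Ctx ends K) (hnb : NB ends K) (h2 : 2 ≤ (gph ends K).A.card) {n1 v n2 : V}
    (hn1 : n1 ∈ lv ends K) (hv : v ∈ (gph ends K).A) (hv' : v ∉ lv ends K)
    (hn2 : n2 ∈ lv ends K) (h12 : n1 ≠ n2)
    (hno : btw (gph ends K) {n1} {n2} = ∅) (he1 : (btw (gph ends K) {n1} {v}).Nonempty)
    (he2 : (btw (gph ends K) {v} {n2}).Nonempty) : Config ends K := by
  have hn1A : n1 ∈ (gph ends K).A := (mem_lv.mp hn1).1
  have hn2A : n2 ∈ (gph ends K).A := (mem_lv.mp hn2).1
  have h1v : n1 ≠ v := fun h => hv' (h ▸ hn1)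
  have hv2 : v ≠ n2 := fun h => hv' (h ▸ hn2)
  obtain ⟨d1, l1⟩ := h.deg_lv hnb h2 hn1A
  obtain ⟨d2, l2⟩ := h.deg_lv hnb h2 hn2A
  obtain ⟨dv, lvv⟩ := h.deg_lv hnb h2 hv
  simp only [hn1, hn2, hv', if_true, if_false] at d1 l1 d2 l2 dv lvv
  have hS : ({n1, v, n2} : Finset V) ⊆ (gph ends K).A := by
    intro x hx
    simp only [mem_insert, mem_singleton] at hx
    rcases hx with rfl | rfl | rfl
    · exact hn1A
    · exact hv
    · exact hn2A
  have hn1' : n1 ∉ ({v, n2} : Finset V) := by
    simp [h1v, h12]
  have hlegs : (lgs ends K {n1, v, n2}).card = 2 := by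
    rw [lgs_card hS, sum_insert hn1', sum_pair hv2]
    omega
  have h4 := h.four hS (by rw [card_insert_of_notMem hn1', card_pair hv2]; omega)
  have hhs := (gph ends K).handshake (X := (gph ends K).F) h.ne {n1, v, n2}
  rw [sum_insert hn1', sum_pair hv2, d1, dv, d2] at hhs
  have hins : btw (gph ends K) {n1} {v} ∪ btw (gph ends K) {v} {n2} ⊆ (gph ends K).ins (gph ends K).F {n1, v, n2} := by
    intro e he
    rw [mem_union, mem_btw, mem_btw] at he
    simp only [mem_singleton] at he
    rw [Gph.mem_ins]
    simp only [mem_insert, mem_singleton]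
    exact ⟨by tauto, by tauto⟩
  have hdis : Disjoint (btw (gph ends K) {n1} {v}) (btw (gph ends K) {v} {n2}) := by
    rw [Finset.disjoint_left]
    intro e he he'
    rw [mem_btw] at he he'
    simp only [mem_singleton] at he he'
    rcases he.2 with h5 | h5 <;> rcases he'.2 with h6 | h6
    · exact h1v (h5.1.symm.trans h6.1)
    · exact h12 (h5.1.symm.trans h6.2)
    · exact h12 (h5.1.symm.trans h6.2)
    · exact h1v (h5.1.symm.trans h6.1)
  have hb1 : 0 < (btw (gph ends K) {n1} {v}).card := card_pos.mpr he1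
  have hb2 : 0 < (btw (gph ends K) {v} {n2}).card := card_pos.mpr he2
  have hb3 := card_le_card hins
  rw [card_union_of_disjoint hdis] at hb3
  have hb : (btw (gph ends K) {n1} {v}).card = 1 := by omega
  have hb' : (btw (gph ends K) {v} {n2}).card = 1 := by omega
  have hcut : ((gph ends K).cut (gph ends K).F {n1, v, n2}).card ≤ 3 := by omega
  set W := (gph ends K).A \ {n1, v, n2} with hW
  have hWA : W ⊆ (gph ends K).A := sdiff_subset
  have hn1W : n1 ∉ W := by simp [hW]
  have hvW : v ∉ W := by simp [hW]
  have hn2W : n2 ∉ W := by simp [hW]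
  have hA : ∀ x, x ∈ (gph ends K).A ↔ x = n1 ∨ x = v ∨ x = n2 ∨ x ∈ W := by
    intro x
    simp only [hW, mem_sdiff, mem_insert, mem_singleton]
    constructor
    · intro hx
      by_cases q1 : x = n1
      · exact Or.inl q1
      by_cases q2 : x = v
      · exact Or.inr (Or.inl q2)
      by_cases q3 : x = n2
      · exact Or.inr (Or.inr (Or.inl q3))
      refine Or.inr (Or.inr (Or.inr ⟨hx, ?_⟩))
      rintro (q | q | q)
      · exact q1 q
      · exact q2 q
      · exact q3 q
    · rintro (rfl | rfl | rfl | hx)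
      · exact hn1A
      · exact hv
      · exact hn2A
      · exact hx.1
  have hA1 : (gph ends K).A = {n1} ∪ ({v} ∪ {n2}) ∪ W := by
    ext x
    rw [hA]
    simp only [mem_union, mem_singleton]
    clear hA
    grind
  have hA2 : (gph ends K).A = {v} ∪ ({n1} ∪ {n2}) ∪ W := by
    ext x
    rw [hA]
    simp only [mem_union, mem_singleton]
    clear hA
    grind
  have hA3 : (gph ends K).A = {n2} ∪ ({n1} ∪ {v}) ∪ W := by
    ext x
    rw [hA]
    simp only [mem_union, mem_singleton]
    clear hA
    grind
  have c1 := card_cut_btw (G := gph ends K) hs ht hA1 (by simp [h1v, h12]) (by simpa using hn1W)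
    (by simp [hvW, hn2W])
  have c2 := card_cut_btw (G := gph ends K) hs ht hA2 (by simp [h1v.symm, hv2]) (by simpa using hvW)
    (by simp [hn1W, hn2W])
  have c3 := card_cut_btw (G := gph ends K) hs ht hA3 (by simp [h12.symm, hv2.symm])
    (by simpa using hn2W) (by simp [hvW, hn1W])
  rw [card_btw_union (by simpa using h1v) (by simpa using h12) (by simpa using hv2), hno,
    card_empty] at c1
  rw [card_btw_union (by simpa using h1v.symm) (by simpa using hv2) (by simpa using h12),
    btw_comm (gph ends K) {v} {n1}] at c2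
  rw [card_btw_union (by simpa using h12.symm) (by simpa using hv2.symm) (by simpa using h1v),
    btw_comm (gph ends K) {n2} {n1}, hno, card_empty, btw_comm (gph ends K) {n2} {v}] at c3
  have b1 : (btw (gph ends K) W {n1}).card = 1 := by
    rw [btw_comm]; omega
  have b2 : (btw (gph ends K) W {n2}).card = 1 := by
    rw [btw_comm]; omega
  have b3 : (btw (gph ends K) W {v}).card = 1 := by
    rw [btw_comm]; omega
  obtain ⟨e1, he1'⟩ := Between_single hn1A hv hb
  obtain ⟨e2, he2'⟩ := Between_single hv hn2A hb'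
  obtain ⟨g1, hg1⟩ := coe_btw (ends := ends) (K := K) hWA (by simpa using hn1A) b1
  obtain ⟨g2, hg2⟩ := coe_btw (ends := ends) (K := K) hWA (by simpa using hn2A) b2
  obtain ⟨g3, hg3⟩ := coe_btw (ends := ends) (K := K) hWA (by simpa using hv) b3
  right; right; right; left
  refine ⟨(W : Set V), n1, v, n2, e1, e2, g1, g2, g3, ?_, by simpa using hn1W,
    by simpa using hvW, by simpa using hn2W, h1v, hv2, h12, ?_, ?_, he1', he2', ?_,
    by simpa using hg1, by simpa using hg2, by simpa using hg3⟩
  · ext x
    rw [← mem_A ends K x, hA]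
    simp only [Set.mem_union, mem_coe, Set.mem_singleton_iff]
    tauto
  · obtain ⟨f, hf⟩ := card_pos.mp (by omega : 0 < (btw (gph ends K) W {n1}).card)
    rw [mem_btw] at hf
    rcases hf.2 with hf | hf
    · exact ⟨_, hf.1⟩
    · exact ⟨_, hf.1⟩
  · apply NB.conn hnb hWA
    · intro h3
      apply hn1W
      rw [h3]
      exact hn1A
    · rw [hW, Gph.cut_compl _ hs ht (Subset.refl _)]
      exact hcut
  · have := between_btw (ends := ends) (K := K) (U := {n1}) (W := {n2})
      ((sub _).mp (by simpa using hn1A)) ((sub _).mp (by simpa using hn2A))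
    rw [hno] at this
    simpa using this

end Ctx

end GLQ
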