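import Pool.Agent.Helper18.GLQ.Trans4
import Pool.Agent.Helper18.GLQ.E

/-! Translation, fifth part: a good circuit gives the fifth or the sixth alternative. (helper12)

Plan: let `S = vs G X`, `B* ⊇ B` a maximal connected set inside `A \ S` (finite maximality), so no
edge joins `B*` to `R := A \ (S ∪ B*)`; all leg vertices off `S` are in `B*`; `X` is a cycle
(`isCycle_of_circ`, `verts_eq`).
* no leg vertex on `S`: two touched leg vertices `y1 ≠ y2`, both in `B*`, each has exactly one edge to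
  `S` (otherwise `B* = {y_i}`) and one edge to `B' := B* \ {y1, y2}`; `B'` is connected (two leaves
  removed) : fifth alternative;
* one leg vertex `y0` on `S`: a touched `y ≠ y0`, `B' := B* \ {y}` : sixth alternative, `e0` = the leg
  at `y0` (`(lgs ends K {y0}).card = 1`). -/

namespace GLQ

open Finset GLR Pool.Agent.Helper49.CDC Pool.Agent.Helper37.IE
open scoped Classical

set_option linter.unusedSectionVars false

universe u v

variable {V : Type v} {E : Type u} [Fintype V] [Fintype E]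

namespace T5

/-- removing a leaf of a connected set -/
theorem conn_erase {G : Gph V E} {T : Finset V} (hT : G.Conn G.F T) {y : V}
    (h1 : (btw G {y} (T.erase y)).card ≤ 1) : G.Conn G.F (T.erase y) := by
  intro Y hY hne hneq
  by_contra hcon
  rw [not_nonempty_iff_eq_empty] at hcon
  have hyY : y ∉ Y := fun h => (mem_erase.mp (hY h)).1 rfl
  have hno : ∀ e ∈ G.F, G.s e ∈ T.erase y → G.t e ∈ T.erase y → (G.s e ∈ Y ↔ G.t e ∈ Y) := by
    intro e he h2 h3
    by_contra h4
    have : e ∈ G.cut (G.ins G.F (T.erase y)) Y := by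
      rw [Gph.mem_cut, Gph.mem_ins]
      exact ⟨⟨he, h2, h3⟩, h4⟩
    rw [hcon] at this
    exact absurd this (notMem_empty _)
  -- every proper nonempty union of pieces sends an edge to `y`
  have key : ∀ Q ⊆ T.erase y, Q.Nonempty →
      (∀ e ∈ G.F, G.s e ∈ T.erase y → G.t e ∈ T.erase y → (G.s e ∈ Q ↔ G.t e ∈ Q)) →
      T.Nonempty → Q ≠ T →
      ∃ e ∈ btw G {y} (T.erase y), (G.s e ∈ Q ∨ G.t e ∈ Q) := by
    intro Q hQ hQne hQno _ hQT
    obtain ⟨e, he⟩ := hT Q (hQ.trans (erase_subset _ _)) hQne hQT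
    rw [Gph.mem_cut, Gph.mem_ins] at he
    obtain ⟨⟨heF, hs, ht⟩, hx⟩ := he
    have h5 := hQno e heF
    have h6 : G.s e = y ∨ G.t e = y := by
      by_contra h7
      push Not at h7
      exact hx (h5 (mem_erase.mpr ⟨h7.1, hs⟩) (mem_erase.mpr ⟨h7.2, ht⟩))
    have hyQ : y ∉ Q := fun h => (mem_erase.mp (hQ h)).1 rfl
    rcases h6 with h6 | h6
    · have h8 : G.t e ∈ Q := by
        by_contra h9
        exact hx ⟨fun h => absurd (h6 ▸ h) hyQ, fun h => absurd h h9⟩
      refine ⟨e, ?_, Or.inr h8⟩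
      rw [mem_btw]
      exact ⟨heF, Or.inl ⟨mem_singleton.mpr h6, hQ h8⟩⟩
    · have h8 : G.s e ∈ Q := by
        by_contra h9
        exact hx ⟨fun h => absurd h h9, fun h => absurd (h6 ▸ h) hyQ⟩
      refine ⟨e, ?_, Or.inl h8⟩
      rw [mem_btw]
      exact ⟨heF, Or.inr ⟨mem_singleton.mpr h6, hQ h8⟩⟩
  have hZne : ((T.erase y) \ Y).Nonempty := by
    rw [nonempty_iff_ne_empty]
    intro h
    rw [sdiff_eq_empty_iff_subset] at h
    exact hneq (Subset.antisymm hY h)
  have hTne : T.Nonempty := by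
    obtain ⟨x, hx⟩ := hne
    exact ⟨x, (mem_erase.mp (hY hx)).2⟩
  have hYT : Y ≠ T := by
    intro h
    subst h
    obtain ⟨x, hx⟩ := hZne
    rw [mem_sdiff, mem_erase] at hx
    exact hx.2 hx.1.2
  have hZT : (T.erase y) \ Y ≠ T := by
    intro h
    obtain ⟨x, hx⟩ := hne
    have h2 : x ∈ T := (mem_erase.mp (hY hx)).2
    rw [← h] at h2
    exact (mem_sdiff.mp h2).2 hx
  obtain ⟨e1, he1, h1'⟩ := key Y hY hne hno hTne hYT
  obtain ⟨e2, he2, h2'⟩ := key ((T.erase y) \ Y) sdiff_subset hZne (by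
    intro e he h2 h3
    rw [mem_sdiff, mem_sdiff]
    have := hno e he h2 h3
    tauto) hTne hZT
  have heq : e1 = e2 := card_le_one.mp h1 _ he1 _ he2
  subst heq
  rw [mem_btw] at he1
  simp only [mem_sdiff, mem_erase] at h2'
  rcases he1.2 with h3 | h3
  · have h4 := mem_singleton.mp h3.1
    rcases h1' with h5 | h5
    · exact hyY (h4 ▸ h5)
    · rcases h2' with h6 | h6
      · exact h6.1.1 h4
      · exact h6.2 h5
  · have h4 := mem_singleton.mp h3.1
    rcases h1' with h5 | h5
    · rcases h2' with h6 | h6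
      · exact h6.2 h5
      · exact h6.1.1 h4
    · exact hyY (h4 ▸ h5)

/-- extend to a maximal connected set off `S` -/
theorem exists_max {G : Gph V E} {A S B : Finset V} (hBA : B ⊆ A) (hBS : Disjoint B S)
    (hB : G.Conn G.F B) :
    ∃ T, B ⊆ T ∧ T ⊆ A ∧ Disjoint T S ∧ G.Conn G.F T ∧
      btw G T (A \ (S ∪ T)) = ∅ := by
  obtain ⟨T, hT, hmax⟩ := exists_max_image
    (A.powerset.filter fun T => B ⊆ T ∧ Disjoint T S ∧ G.Conn G.F T) card
    ⟨B, by rw [mem_filter, mem_powerset]; exact ⟨hBA, Subset.refl _, hBS, hB⟩⟩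
  rw [mem_filter, mem_powerset] at hT
  obtain ⟨hTA, hBT, hTS, hTc⟩ := hT
  refine ⟨T, hBT, hTA, hTS, hTc, ?_⟩
  rw [eq_empty_iff_forall_notMem]
  intro e he
  rw [mem_btw] at he
  obtain ⟨heF, he⟩ := he
  have key : ∀ p b, b ∈ T → p ∈ A \ (S ∪ T) →
      ((G.s e = p ∧ G.t e = b) ∨ (G.t e = p ∧ G.s e = b)) → False := by
    intro p b hb hp h1
    rw [mem_sdiff, mem_union, not_or] at hp
    have h2 := PE.conn_insert hTc heF hb hp.2.2 h1
    have h3 := hmax (insert p T) (by
      rw [mem_filter, mem_powerset]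
      refine ⟨insert_subset hp.1 hTA, hBT.trans (subset_insert _ _), ?_, h2⟩
      rw [disjoint_insert_left]
      exact ⟨hp.2.1, hTS⟩)
    rw [card_insert_of_notMem hp.2.2] at h3
    omega
  rcases he with h | h
  · exact key _ _ h.1 h.2 (Or.inr ⟨rfl, rfl⟩)
  · exact key _ _ h.1 h.2 (Or.inl ⟨rfl, rfl⟩)

/-- a touched leg vertex off the circuit: one edge to the circuit, one edge to the rest -/
theorem one_one {G : Gph V E} (hne : ∀ e ∈ G.F, G.s e ≠ G.t e) {S T : Finset V} {y : V}
    (hdeg : (G.cut G.F {y}).card = 2) (hyT : y ∈ T)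
    (hTS : Disjoint T S) (hT : G.Conn G.F T) (hT2 : ∃ z ∈ T, z ≠ y)
    (ht : (G.meet (G.cut G.F {y}) S).Nonempty) :
    (btw G {y} S).card = 1 ∧ (btw G {y} (T.erase y)).card = 1 := by
  have hyS : y ∉ S := disjoint_left.mp hTS hyT
  have h1 : btw G {y} S ⊆ G.cut G.F {y} := by
    intro e he
    rw [mem_btw, mem_singleton, mem_singleton] at he
    rw [Gph.mem_cut_singleton]
    have := hne e he.1
    refine ⟨he.1, ?_⟩
    rcases he.2 with h | h
    · exact Or.inl ⟨h.1, fun h2 => this (h.1.trans h2.symm)⟩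
    · exact Or.inr ⟨fun h2 => this (h2.trans h.1.symm), h.1⟩
  have h2 : btw G {y} (T.erase y) ⊆ G.cut G.F {y} := by
    intro e he
    rw [mem_btw, mem_singleton, mem_singleton] at he
    rw [Gph.mem_cut_singleton]
    have := hne e he.1
    refine ⟨he.1, ?_⟩
    rcases he.2 with h | h
    · exact Or.inl ⟨h.1, fun h2 => this (h.1.trans h2.symm)⟩
    · exact Or.inr ⟨fun h2 => this (h2.trans h.1.symm), h.1⟩
  have h3 : Disjoint (btw G {y} S) (btw G {y} (T.erase y)) := by
    rw [disjoint_left]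
    intro e he he'
    rw [mem_btw, mem_singleton, mem_singleton] at he he'
    have hd := disjoint_left.mp hTS
    rcases he.2 with h | h <;> rcases he'.2 with h' | h'
    · exact hd (mem_erase.mp h'.2).2 h.2
    · exact hyS (h'.1 ▸ h.2)
    · exact hyS (h'.1 ▸ h.2)
    · exact hd (mem_erase.mp h'.2).2 h.2
  have h4 := card_le_card (union_subset h1 h2)
  rw [card_union_of_disjoint h3, hdeg] at h4
  have h5 : 0 < (btw G {y} S).card := by
    obtain ⟨e, he⟩ := ht
    rw [Gph.mem_meet, Gph.mem_cut_singleton] at he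
    refine card_pos.mpr ⟨e, ?_⟩
    rw [mem_btw, mem_singleton, mem_singleton]
    refine ⟨he.1.1, ?_⟩
    rcases he.1.2 with h | h
    · refine Or.inl ⟨h.1, ?_⟩
      rcases he.2 with h6 | h6
      · exact absurd (h.1 ▸ h6) hyS
      · exact h6
    · refine Or.inr ⟨h.2, ?_⟩
      rcases he.2 with h6 | h6
      · exact h6
      · exact absurd (h.2 ▸ h6) hyS
  have h6 : 0 < (btw G {y} (T.erase y)).card := by
    obtain ⟨z, hz, hzy⟩ := hT2
    obtain ⟨e, he⟩ := hT {y} (singleton_subset_iff.mpr hyT) (singleton_nonempty _) (by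
      intro h7
      rw [← h7] at hz
      exact hzy (mem_singleton.mp hz))
    rw [Gph.mem_cut_singleton, Gph.mem_ins] at he
    refine card_pos.mpr ⟨e, ?_⟩
    rw [mem_btw, mem_singleton, mem_singleton]
    refine ⟨he.1.1, ?_⟩
    rcases he.2 with h | h
    · exact Or.inl ⟨h.1, mem_erase.mpr ⟨h.2, he.1.2.2⟩⟩
    · exact Or.inr ⟨h.2, mem_erase.mpr ⟨h.1, he.1.2.1⟩⟩
  omega

end T5

open T5 Ctx

theorem config_of_good {ends : E → Sym2 V} {K : Set V} (h : Ctx ends K)
    (hN : 4 ≤ (lv ends K).card)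
    (hind : ∀ u ∈ lv ends K, ∀ v ∈ lv ends K, btw (gph ends K) {u} {v} = ∅)
    (hdeg : ∀ y ∈ lv ends K, ((gph ends K).cut (gph ends K).F {y}).card = 2)
    (hlgs : ∀ y ∈ lv ends K, (lgs ends K {y}).card = 1)
    {X : Finset E} {B : Finset V} (hg : GoodK (gph ends K) (lv ends K) X B) :
    Config ends K := by
  set G := gph ends K with hG
  set N := lv ends K with hNdef
  set S := vs G X with hS
  have hne := h.ne
  have hXcyc : IsCycle ends (X : Set E) := isCycle_of_circ h.hl hg.circ
  have hSv : (S : Set V) = verts ends (X : Set E) := (verts_eq h.hl X).symm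
  have hSA : S ⊆ G.A := by
    intro v hv
    rw [hS, vs, mem_filter] at hv
    obtain ⟨e, he⟩ := hv.2
    rw [Gph.mem_cut_singleton] at he
    have heF := hg.circ.sub he.1
    rcases he.2 with h1 | h1
    · exact h1.1 ▸ hs e heF
    · exact h1.2 ▸ ht e heF
  -- three leg vertices off the circuit
  have hoff : 3 ≤ (N \ S).card := by
    have h1 := card_sdiff_add_card_inter N S
    have h2 : (N ∩ S).card ≤ 1 := hg.one
    omega
  have hoffB : N \ S ⊆ B := by
    intro y hy
    rw [mem_sdiff] at hy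
    exact hg.all y hy.1 hy.2
  obtain ⟨T, hBT, hTA, hTS, hTc, hTR⟩ := exists_max (G := G) hg.BA hg.dis hg.con
  set R := G.A \ (S ∪ T) with hR
  have hRA : R ⊆ G.A := sdiff_subset
  have hT3 : ∀ y, ∃ z ∈ T, z ≠ y := by
    intro y
    have h1 : 0 < ((N \ S).erase y).card := by
      have := pred_card_le_card_erase (s := N \ S) (a := y)
      omega
    obtain ⟨z, hz⟩ := card_pos.mp h1
    rw [mem_erase] at hz
    exact ⟨z, hBT (hoffB hz.2), hz.1⟩
  have hNR : ∀ v ∈ N, v ∉ R := by
    intro v hv hvR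
    rw [hR, mem_sdiff, mem_union, not_or] at hvR
    exact hvR.2.2 (hBT (hoffB (mem_sdiff.mpr ⟨hv, hvR.2.1⟩)))
  have hlegN : ∀ (U : Finset V), U ⊆ G.A → ∀ e ∈ Legs ends K, e ∈ Touch ends (U : Set V) →
      ∃ v ∈ U, v ∈ N ∧ e ∈ lgs ends K {v} := by
    intro U hU e he hte
    obtain ⟨v, hv, hvU⟩ := hte
    have h1 : e ∈ lgs ends K {v} := mem_lgs_singleton.mpr ⟨he, hv⟩
    exact ⟨v, hvU, mem_lv.mpr ⟨hU hvU, e, h1⟩, h1⟩
  have hRlegs : ∀ e ∈ Legs ends K, e ∉ Touch ends (R : Set V) := by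
    intro e he hte
    obtain ⟨v, hv, hvN, -⟩ := hlegN R hRA e he hte
    exact hNR v hvN hv
  have hKeq : K = (S : Set V) ∪ (T : Set V) ∪ (R : Set V) := by
    ext v
    rw [← mem_A ends K v, ← hG]
    simp only [Set.mem_union, mem_coe, hR, mem_sdiff, mem_union]
    constructor
    · intro hv
      by_cases h1 : v ∈ S
      · exact Or.inl (Or.inl h1)
      by_cases h2 : v ∈ T
      · exact Or.inl (Or.inr h2)
      · exact Or.inr ⟨hv, by tauto⟩
    · rintro ((h1 | h1) | h1)
      · exact hSA h1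
      · exact hTA h1
      · exact h1.1
  have hSR : Disjoint (S : Set V) (R : Set V) := by
    rw [disjoint_coe, disjoint_left]
    intro v h1 h2
    rw [hR, mem_sdiff, mem_union] at h2
    exact h2.2 (Or.inl h1)
  have hTRd : Disjoint T R := by
    rw [disjoint_left]
    intro v h1 h2
    rw [hR, mem_sdiff, mem_union] at h2
    exact h2.2 (Or.inr h1)
  have hBtwTR : Between ends (T : Set V) (R : Set V) = ∅ := by
    rw [between_btw ((sub T).mp hTA) ((sub R).mp hRA), ← hG, hTR]
    simp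
  have htch : ∀ y ∈ tch G N S, y ∉ S → y ∈ N ∧ y ∈ T ∧ (btw G {y} S).card = 1 ∧
      (btw G {y} (T.erase y)).card = 1 := by
    intro y hy hyS
    rw [tch, mem_filter] at hy
    have hyT : y ∈ T := hBT (hoffB (mem_sdiff.mpr ⟨hy.1, hyS⟩))
    have h1 := one_one hne (hdeg y hy.1) hyT hTS hTc (hT3 y) hy.2
    exact ⟨hy.1, hyT, h1.1, h1.2⟩
  have hNA : N ⊆ G.A := fun v hv => (mem_lv.mp hv).1
  by_cases h0 : (N ∩ S) = ∅
  · -- fifth alternative
    have hNS : ∀ v ∈ N, v ∉ S := by
      intro v hv hvS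
      have : v ∈ N ∩ S := mem_inter.mpr ⟨hv, hvS⟩
      rw [h0] at this
      exact absurd this (notMem_empty _)
    obtain ⟨y1, hy1, y2, hy2, h12⟩ := one_lt_card.mp (lt_of_lt_of_le one_lt_two hg.two)
    have hN1 := (mem_filter.mp hy1).1
    have hN2 := (mem_filter.mp hy2).1
    obtain ⟨-, hT1, hb1, hc1⟩ := htch y1 hy1 (hNS _ hN1)
    obtain ⟨-, hT2, hb2, hc2⟩ := htch y2 hy2 (hNS _ hN2)
    have hi12 := hind y1 hN1 y2 hN2
    have hi21 := hind y2 hN2 y1 hN1
    set B' := (T.erase y1).erase y2 with hB'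
    have hB'T : B' ⊆ T := (erase_subset _ _).trans (erase_subset _ _)
    have hB'A : B' ⊆ G.A := hB'T.trans hTA
    have hd1 : btw G {y1} (T.erase y1) = btw G {y1} B' := by
      ext e
      rw [mem_btw, mem_btw]
      have h3 : e ∉ btw G {y1} {y2} := by rw [hi12]; exact notMem_empty _
      rw [mem_btw] at h3
      simp only [mem_singleton, hB', mem_erase] at h3 ⊢
      tauto
    have hd2 : btw G {y2} (T.erase y2) = btw G {y2} B' := by
      ext e
      rw [mem_btw, mem_btw]
      have h3 : e ∉ btw G {y2} {y1} := by rw [hi21]; exact notMem_empty _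
      rw [mem_btw] at h3
      simp only [mem_singleton, hB', mem_erase] at h3 ⊢
      tauto
    rw [hd1] at hc1
    rw [hd2] at hc2
    have hconn : G.Conn G.F B' := by
      apply conn_erase
      · apply conn_erase hTc
        rw [hd1]
        omega
      · exact hc2.le
    have hB'ne : B'.Nonempty := by
      obtain ⟨f, hf⟩ := card_pos.mp (by omega : 0 < (btw G {y1} B').card)
      rw [mem_btw] at hf
      rcases hf.2 with hf | hf
      · exact ⟨_, hf.2⟩
      · exact ⟨_, hf.2⟩
    have hy1A : ({y1} : Finset V) ⊆ G.A := by simpa using hNA hN1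
    have hy2A : ({y2} : Finset V) ⊆ G.A := by simpa using hNA hN2
    obtain ⟨g1, hg1⟩ := coe_btw (ends := ends) (K := K) hB'A hy1A (by rw [btw_comm]; exact hc1)
    obtain ⟨g2, hg2⟩ := coe_btw (ends := ends) (K := K) hB'A hy2A (by rw [btw_comm]; exact hc2)
    obtain ⟨β1, hβ1⟩ := coe_btw (ends := ends) (K := K) hSA hy1A (by rw [btw_comm]; exact hb1)
    obtain ⟨β2, hβ2⟩ := coe_btw (ends := ends) (K := K) hSA hy2A (by rw [btw_comm]; exact hb2)
    have hTeq : (T : Set V) = (B' : Set V) ∪ {y1} ∪ {y2} := by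
      ext v
      simp only [Set.mem_union, mem_coe, Set.mem_singleton_iff, hB', mem_erase]
      constructor
      · intro hv
        by_cases h3 : v = y1
        · exact Or.inl (Or.inr h3)
        by_cases h4 : v = y2
        · exact Or.inr h4
        exact Or.inl (Or.inl ⟨h4, h3, hv⟩)
      · rintro ((h3 | h3) | h3)
        · exact h3.2.2
        · exact h3 ▸ hT1
        · exact h3 ▸ hT2
    right; right; right; right; left
    refine ⟨(X : Set E), (S : Set V), (B' : Set V), (R : Set V), y1, y2, g1, g2, β1, β2,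
      ?_, hXcyc, hSv, ?_, hSR, ?_, ?_, ?_, ?_, ?_, ?_, ?_, h12, ?_, ?_, ?_, ?_, ?_, ?_, hRlegs, ?_,
      ?_, ?_⟩
    · rw [← hTeq]
      exact hKeq
    · rw [disjoint_coe]
      exact (hTS.mono_left hB'T).symm
    · rw [disjoint_coe]
      exact hTRd.mono_left hB'T
    · exact_mod_cast hNS y1 hN1
    · exact_mod_cast hNS y2 hN2
    · simp [hB']
    · simp [hB']
    · exact_mod_cast hNR y1 hN1
    · exact_mod_cast hNR y2 hN2
    · simpa using hg1
    · simpa using hg2
    · simpa using hβ1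
    · simpa using hβ2
    · have := between_btw (ends := ends) (K := K) (U := {y1}) (W := {y2}) ((sub _).mp hy1A)
        ((sub _).mp hy2A)
      rw [← hG, hi12] at this
      simpa using this
    · rw [← hTeq]
      exact hBtwTR
    · intro e he hte
      obtain ⟨v, hv, hvN, -⟩ := hlegN S hSA e he hte
      exact hNS v hvN hv
    · exact_mod_cast hB'ne
    · exact (conn_iff ((sub _).mp hB'A)).mpr hconn
  · -- sixth alternative
    obtain ⟨y0, hy0⟩ := nonempty_iff_ne_empty.mpr h0
    have hy0' := mem_inter.mp hy0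
    have huniq : ∀ v ∈ N, v ∈ S → v = y0 :=
      fun v hv hvS => card_le_one.mp hg.one _ (mem_inter.mpr ⟨hv, hvS⟩) _ hy0
    obtain ⟨y, hy, hyy⟩ := exists_mem_ne (lt_of_lt_of_le one_lt_two hg.two) y0
    have hNy := (mem_filter.mp hy).1
    have hyS : y ∉ S := fun h3 => hyy (huniq y hNy h3)
    obtain ⟨-, hT1, hb1, hc1⟩ := htch y hy hyS
    have hB'A : T.erase y ⊆ G.A := (erase_subset _ _).trans hTA
    have hconn : G.Conn G.F (T.erase y) := conn_erase hTc hc1.le
    have hB'ne : (T.erase y).Nonempty := by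
      obtain ⟨z, hz, hzy⟩ := hT3 y
      exact ⟨z, mem_erase.mpr ⟨hzy, hz⟩⟩
    have hyA : ({y} : Finset V) ⊆ G.A := by simpa using hNA hNy
    obtain ⟨g, hg'⟩ := coe_btw (ends := ends) (K := K) hB'A hyA (by rw [btw_comm]; exact hc1)
    obtain ⟨β, hβ⟩ := coe_btw (ends := ends) (K := K) hSA hyA (by rw [btw_comm]; exact hb1)
    obtain ⟨e0, he0⟩ := card_eq_one.mp (hlgs y0 hy0'.1)
    have hTeq : (T : Set V) = ((T.erase y : Finset V) : Set V) ∪ {y} := by
      ext v
      simp only [Set.mem_union, mem_coe, Set.mem_singleton_iff, mem_erase]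
      constructor
      · intro hv
        by_cases h3 : v = y
        · exact Or.inr h3
        exact Or.inl ⟨h3, hv⟩
      · rintro (h3 | h3)
        · exact h3.2
        · exact h3 ▸ hT1
    right; right; right; right; right
    refine ⟨(X : Set E), (S : Set V), ((T.erase y : Finset V) : Set V), (R : Set V), y, g, β, e0,
      ?_, hXcyc, hSv, ?_, hSR, ?_, ?_, ?_, ?_, ?_, ?_, ?_, hRlegs, ?_, ?_, ?_⟩
    · rw [← hTeq]
      exact hKeq
    · rw [disjoint_coe]
      exact (hTS.mono_left (erase_subset _ _)).symm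
    · rw [disjoint_coe]
      exact hTRd.mono_left (erase_subset _ _)
    · exact_mod_cast hyS
    · simp
    · exact_mod_cast hNR y hNy
    · simpa using hg'
    · simpa using hβ
    · rw [← hTeq]
      exact hBtwTR
    · intro e
      constructor
      · rintro ⟨he, hte⟩
        obtain ⟨v, hv, hvN, hev⟩ := hlegN S hSA e he hte
        rw [huniq v hvN hv, he0, mem_singleton] at hev
        exact hev
      · rintro rfl
        have h3 : e ∈ lgs ends K {y0} := by rw [he0]; exact mem_singleton_self _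
        rw [mem_lgs_singleton] at h3
        exact ⟨h3.1, y0, h3.2, hy0'.2⟩
    · exact_mod_cast hB'ne
    · exact (conn_iff ((sub _).mp hB'A)).mpr hconn

end GLQ
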