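import Pool.Agent.Helper18.GLQ.Trans5
import Pool.Agent.Helper18.GLQ.Main

/-! Translation, sixth part: `config_of_cut`. -/

namespace GLQ

open Finset GLR Pool.Agent.Helper49.CDC Pool.Agent.Helper37.IE
open scoped Classical

set_option linter.unusedSectionVars false

universe u v

variable {V : Type v} {E : Type u} [Fintype V] [Fintype E]

/-- the other end -/
noncomputable def oth (G : Gph V E) (e : E) (y : V) : V := if G.s e = y then G.t e else G.s e

theorem oth_spec {G : Gph V E} {X : Finset E} {e : E} {y : V} (he : e ∈ G.cut X {y}) :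
    oth G e y ≠ y ∧ ((G.s e = y ∧ G.t e = oth G e y) ∨ (G.t e = y ∧ G.s e = oth G e y)) := by
  rw [Gph.mem_cut_singleton] at he
  unfold oth
  rcases he.2 with ⟨h1, h2⟩ | ⟨h1, h2⟩
  · rw [if_pos h1]
    exact ⟨h2, Or.inl ⟨h1, rfl⟩⟩
  · rw [if_neg h1]
    exact ⟨h1, Or.inr ⟨h2, rfl⟩⟩

theorem btw_of {G : Gph V E} {e : E} {u v : V} (he : e ∈ G.F)
    (h : (G.s e = u ∧ G.t e = v) ∨ (G.t e = u ∧ G.s e = v)) : (btw G {u} {v}).Nonempty := by
  refine ⟨e, ?_⟩
  rw [mem_btw]
  simp only [mem_singleton]
  exact ⟨he, h⟩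

namespace Ctx

variable {ends : E → Sym2 V} {K : Set V}

theorem lgs_eq (h : Ctx ends K) (hnb : NB ends K) (h2 : 2 ≤ (gph ends K).A.card) {U : Finset V}
    (hU : U ⊆ (gph ends K).A) : (lgs ends K U).card = (U ∩ lv ends K).card := by
  rw [lgs_card hU, card_eq_sum_ones, ← filter_mem_eq_inter, sum_filter]
  exact sum_congr rfl fun v hv => (h.deg_lv hnb h2 (hU hv)).2

theorem lv_sub : lv ends K ⊆ (gph ends K).A := fun _ hv => (mem_lv.mp hv).1

theorem lv_card (h : Ctx ends K) (hnb : NB ends K) (h2 : 2 ≤ (gph ends K).A.card) :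
    4 ≤ (lv ends K).card := by
  have h1 := h.four (Subset.refl _) h2
  rw [h.lgs_eq hnb h2 (Subset.refl _), inter_eq_right.mpr lv_sub] at h1
  have h3 : (gph ends K).cut (gph ends K).F (gph ends K).A = ∅ := by
    rw [eq_empty_iff_forall_notMem]
    intro e he
    rw [Gph.mem_cut] at he
    have := hs e he.1
    have := ht e he.1
    tauto
  rw [h3, card_empty] at h1
  omega

/-- the hypotheses of GLQ -/
theorem kf (h : Ctx ends K) (hnb : NB ends K) (h2 : 2 ≤ (gph ends K).A.card)
    (hadj : ∀ u ∈ lv ends K, ∀ v ∈ lv ends K, btw (gph ends K) {u} {v} = ∅)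
    (htwo : ∀ n1 ∈ lv ends K, ∀ n2 ∈ lv ends K, n1 ≠ n2 → ∀ v ∈ (gph ends K).A, v ∉ lv ends K →
      (btw (gph ends K) {n1} {v}).Nonempty → (btw (gph ends K) {v} {n2}).Nonempty → False) :
    KF (gph ends K) (lv ends K) := by
  have hcard := h.lv_card hnb h2
  have hdN : ∀ y ∈ lv ends K, ((gph ends K).cut (gph ends K).F {y}).card = 2 := by
    intro y hy
    have := (h.deg_lv hnb h2 (lv_sub hy)).1
    simpa only [hy, if_true] using this
  have hind : ∀ e ∈ (gph ends K).F, ¬ ((gph ends K).s e ∈ lv ends K ∧
      (gph ends K).t e ∈ lv ends K) := by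
    rintro e he ⟨h3, h4⟩
    have h5 := btw_of he (Or.inl ⟨rfl, rfl⟩)
    rw [hadj _ h3 _ h4] at h5
    simp at h5
  have hport : ∀ v ∈ (gph ends K).A, v ∉ lv ends K →
      ((gph ends K).cut ((gph ends K).meet (gph ends K).F (lv ends K)) {v}).card ≤ 1 := by
    intro v hv hvN
    rw [card_le_one]
    intro e1 he1 e2 he2
    by_contra hne
    have o1 := oth_spec he1
    have o2 := oth_spec he2
    have m1 := (Gph.mem_meet _).mp ((Gph.mem_cut _).mp he1).1
    have m2 := (Gph.mem_meet _).mp ((Gph.mem_cut _).mp he2).1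
    have n1 : oth (gph ends K) e1 v ∈ lv ends K := by
      rcases o1.2 with ⟨q1, q2⟩ | ⟨q1, q2⟩
      · rw [← q2]
        rcases m1.2 with q | q
        · rw [q1] at q; exact absurd q hvN
        · exact q
      · rw [← q2]
        rcases m1.2 with q | q
        · exact q
        · rw [q1] at q; exact absurd q hvN
    have n2 : oth (gph ends K) e2 v ∈ lv ends K := by
      rcases o2.2 with ⟨q1, q2⟩ | ⟨q1, q2⟩
      · rw [← q2]
        rcases m2.2 with q | q
        · rw [q1] at q; exact absurd q hvN
        · exact q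
      · rw [← q2]
        rcases m2.2 with q | q
        · exact q
        · rw [q1] at q; exact absurd q hvN
    by_cases heq : oth (gph ends K) e1 v = oth (gph ends K) e2 v
    · rw [← heq] at o2 n2
      set n := oth (gph ends K) e1 v with hn
      have hnv : n ≠ v := o1.1
      have hS : ({n, v} : Finset V) ⊆ (gph ends K).A := by
        intro x hx
        rw [mem_insert, mem_singleton] at hx
        rcases hx with rfl | rfl
        · exact lv_sub n1
        · exact hv
      have hhs := (gph ends K).handshake (X := (gph ends K).F) h.ne {n, v}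
      have dv := (h.deg_lv hnb h2 hv).1
      simp only [hvN, if_false] at dv
      rw [sum_pair hnv, hdN n n1, dv] at hhs
      have hlg := h.lgs_eq hnb h2 hS
      have hint : ({n, v} : Finset V) ∩ lv ends K = {n} := by
        ext x
        simp only [mem_inter, mem_insert, mem_singleton]
        constructor
        · rintro ⟨rfl | rfl, q⟩
          · rfl
          · exact absurd q hvN
        · rintro rfl
          exact ⟨Or.inl rfl, n1⟩
      rw [hint, card_singleton] at hlg
      have h4 := h.four hS (by rw [card_pair hnv])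
      have hins : ({e1, e2} : Finset E) ⊆ (gph ends K).ins (gph ends K).F {n, v} := by
        intro e he
        rw [mem_insert, mem_singleton] at he
        rw [Gph.mem_ins]
        simp only [mem_insert, mem_singleton]
        rcases he with rfl | rfl
        · refine ⟨m1.1, ?_⟩
          rcases o1.2 with ⟨q1, q2⟩ | ⟨q1, q2⟩
          · exact ⟨Or.inr q1, Or.inl q2⟩
          · exact ⟨Or.inl q2, Or.inr q1⟩
        · refine ⟨m2.1, ?_⟩
          rcases o2.2 with ⟨q1, q2⟩ | ⟨q1, q2⟩
          · exact ⟨Or.inr q1, Or.inl q2⟩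
          · exact ⟨Or.inl q2, Or.inr q1⟩
      have h5 := card_le_card hins
      rw [card_pair hne] at h5
      omega
    · refine htwo _ n1 _ n2 heq v hv hvN ?_ ?_
      · apply btw_of m1.1
        rcases o1.2 with ⟨q1, q2⟩ | ⟨q1, q2⟩
        · exact Or.inr ⟨q2, q1⟩
        · exact Or.inl ⟨q2, q1⟩
      · apply btw_of m2.1
        rcases o2.2 with ⟨q1, q2⟩ | ⟨q1, q2⟩
        · exact Or.inl ⟨q1, q2⟩
        · exact Or.inr ⟨q1, q2⟩
  refine
    { sA := hs
      tA := ht
      ne := h.ne
      NA := lv_sub
      two := by omega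
      degN := hdN
      ind := hind
      port := hport
      deg := fun v hv _ => by
        have := h.star hv
        omega
      con := ?_
      q := ?_ }
  · intro U hU h3 h4
    apply h.hcut U hU
    · obtain ⟨x, hx⟩ := h3
      exact ⟨x, (mem_inter.mp hx).1⟩
    · rintro rfl
      obtain ⟨x, hx⟩ := h4
      rw [mem_sdiff] at hx
      exact hx.2 (lv_sub hx.1)
  · intro U hU hcl h1
    have hUA : U ≠ (gph ends K).A := by
      rintro rfl
      rw [inter_eq_right.mpr lv_sub] at h1
      omega
    have h3 : 3 ≤ U.card := by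
      obtain ⟨y, hy⟩ := card_eq_one.mp h1
      have hy' : y ∈ U ∩ lv ends K := by rw [hy]; exact mem_singleton_self y
      rw [mem_inter] at hy'
      obtain ⟨e1, e2, hne, he⟩ := card_eq_two.mp (hdN y hy'.2)
      have he1 : e1 ∈ (gph ends K).cut (gph ends K).F {y} := by rw [he]; simp
      have he2 : e2 ∈ (gph ends K).cut (gph ends K).F {y} := by rw [he]; simp
      have o1 := oth_spec he1
      have o2 := oth_spec he2
      have hF1 := ((Gph.mem_cut _).mp he1).1
      have hF2 := ((Gph.mem_cut _).mp he2).1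
      have key : ∀ e ∈ (gph ends K).F, oth (gph ends K) e y ≠ y →
          (((gph ends K).s e = y ∧ (gph ends K).t e = oth (gph ends K) e y) ∨
          ((gph ends K).t e = y ∧ (gph ends K).s e = oth (gph ends K) e y)) →
          oth (gph ends K) e y ∈ U ∧ oth (gph ends K) e y ∉ lv ends K ∧
          e ∈ (gph ends K).cut ((gph ends K).meet (gph ends K).F (lv ends K))
            {oth (gph ends K) e y} := by
        intro e heF hne' ho
        have hm : e ∈ (gph ends K).meet (gph ends K).F (lv ends K) := by
          rw [Gph.mem_meet]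
          refine ⟨heF, ?_⟩
          rcases ho with ⟨q, _⟩ | ⟨q, _⟩
          · rw [q]; exact Or.inl hy'.2
          · rw [q]; exact Or.inr hy'.2
        refine ⟨?_, ?_, ?_⟩
        · by_contra hnU
          have : e ∈ (gph ends K).cut ((gph ends K).meet (gph ends K).F (lv ends K)) U := by
            rw [Gph.mem_cut]
            refine ⟨hm, ?_⟩
            rcases ho with ⟨q, q'⟩ | ⟨q, q'⟩
            · rw [q, q']
              intro hh
              exact hnU (hh.mp hy'.1)
            · rw [q, q']
              intro hh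
              exact hnU (hh.mpr hy'.1)
          rw [hcl] at this
          exact absurd this (notMem_empty _)
        · intro hl
          apply hind e heF
          rcases ho with ⟨q, q'⟩ | ⟨q, q'⟩
          · rw [q, q']; exact ⟨hy'.2, hl⟩
          · rw [q, q']; exact ⟨hl, hy'.2⟩
        · rw [Gph.mem_cut_singleton]
          refine ⟨hm, ?_⟩
          rcases ho with ⟨q, q'⟩ | ⟨q, q'⟩
          · exact Or.inr ⟨by rw [q]; exact hne'.symm, q'⟩
          · exact Or.inl ⟨q', by rw [q]; exact hne'.symm⟩
      have k1 := key e1 hF1 o1.1 o1.2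
      have k2 := key e2 hF2 o2.1 o2.2
      have hpp : oth (gph ends K) e1 y ≠ oth (gph ends K) e2 y := by
        intro heq
        have h5 := hport _ (hU k1.1) k1.2.1
        rw [card_le_one] at h5
        apply hne
        apply h5 e1 k1.2.2 e2
        rw [heq]
        exact k2.2.2
      have hsub : ({y, oth (gph ends K) e1 y, oth (gph ends K) e2 y} : Finset V) ⊆ U := by
        intro x hx
        simp only [mem_insert, mem_singleton] at hx
        rcases hx with rfl | rfl | rfl
        · exact hy'.1
        · exact k1.1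
        · exact k2.1
      have h6 := card_le_card hsub
      rw [card_insert_of_notMem (by
        simp only [mem_insert, mem_singleton]
        rintro (q | q)
        · exact o1.1 q.symm
        · exact o2.1 q.symm), card_pair hpp] at h6
      omega
    have h5 := h.five hU hUA h3
    rw [h.lgs_eq hnb h2 hU, h1] at h5
    omega

end Ctx

/-- helper37's `config_of_cut` -/
theorem config_of_cut' (ends : E → Sym2 V)
    (hl : ∀ e, ¬ (ends e).IsDiag) (K : Set V) (hne : K.Nonempty) (hcub : CubicOn ends K)
    (hconn : Conn ends K) (hcut : CutOK ends K) : Config ends K := by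
  have h : Ctx ends K := ⟨hl, hcub, hconn, hcut⟩
  by_cases h2 : 2 ≤ (gph ends K).A.card
  swap
  · left
    obtain ⟨v, hv⟩ := hne
    refine ⟨v, ?_⟩
    have h3 : (gph ends K).A.card ≤ 1 := by omega
    ext x
    rw [Set.mem_singleton_iff]
    constructor
    · intro hx
      exact card_le_one.mp h3 _ ((mem_A ends K x).mpr hx) _ ((mem_A ends K v).mpr hv)
    · rintro rfl
      exact hv
  by_cases hnb : Ctx.NB ends K
  swap
  · unfold Ctx.NB at hnb
    push Not at hnb
    obtain ⟨U, hU, hUn, hUA, hc⟩ := hnb
    exact h.alt2 hU hUn hUA (by omega)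
  by_cases hadj : ∀ u ∈ lv ends K, ∀ v ∈ lv ends K, btw (gph ends K) {u} {v} = ∅
  swap
  · push Not at hadj
    obtain ⟨u, hu, v, hv, he⟩ := hadj
    have he' : (btw (gph ends K) {u} {v}).Nonempty := he
    refine h.alt3 hnb h2 hu hv ?_ he'
    rintro rfl
    obtain ⟨e, he⟩ := he'
    rw [mem_btw] at he
    simp only [mem_singleton] at he
    apply st_ne hl K e
    rcases he.2 with q | q
    · rw [q.1, q.2]
    · rw [q.1, q.2]
  by_cases htwo : ∀ n1 ∈ lv ends K, ∀ n2 ∈ lv ends K, n1 ≠ n2 → ∀ v ∈ (gph ends K).A,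
      v ∉ lv ends K → (btw (gph ends K) {n1} {v}).Nonempty →
      (btw (gph ends K) {v} {n2}).Nonempty → False
  swap
  · push Not at htwo
    obtain ⟨n1, hn1, n2, hn2, h12, v, hv, hvN, hb1, hb2, _⟩ := htwo
    exact h.alt4 hnb h2 hn1 hv hvN hn2 h12 (hadj n1 hn1 n2 hn2) hb1 hb2
  obtain ⟨X, B, hg⟩ := main (h.kf hnb h2 hadj htwo)
  refine config_of_good h (h.lv_card hnb h2) hadj ?_ ?_ hg
  · intro y hy
    have := (h.deg_lv hnb h2 (Ctx.lv_sub hy)).1
    simpa only [hy, if_true] using this
  · intro y hy
    have := (h.deg_lv hnb h2 (Ctx.lv_sub hy)).2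
    simpa only [hy, if_true] using this

end GLQ
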